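import Pool.Agent.TIA.D1
import Pool.Agent.TII.D1b

/-!
# [TIA-D1b] correlations for different n
-/

set_option autoImplicit false

namespace Pool.Agent.TIA

open Finset
open Pool.Agent.TII (prs D1b_coprime)

variable {ra : ℤ}

/-- the expansion of the product -/
theorem D1b_expand (M p1 p2 n1 n2 : ℕ) :
    ∑ m ∈ Ioc M (2 * M), dd ra p1 m n1 * dd ra p2 m n2 = (cc ra M p1 p2 n1 n2 : ℝ) -
      ((((Ioc M (2 * M)).filter fun m : ℕ => (p1 : ℤ) ∣ (m : ℤ) * n1 - ra).card : ℕ) : ℝ) * (1 / p2) -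
      ((((Ioc M (2 * M)).filter fun m : ℕ => (p2 : ℤ) ∣ (m : ℤ) * n2 - ra).card : ℕ) : ℝ) * (1 / p1) +
      (M : ℝ) * (1 / p1 * (1 / p2)) := by
  have h1 : ∀ m : ℕ, dd ra p1 m n1 * dd ra p2 m n2 =
      (if (p1 : ℤ) ∣ (m : ℤ) * n1 - ra ∧ (p2 : ℤ) ∣ (m : ℤ) * n2 - ra then (1 : ℝ) else 0) -
      (if (p1 : ℤ) ∣ (m : ℤ) * n1 - ra then (1 : ℝ) else 0) * (1 / p2) -
      (if (p2 : ℤ) ∣ (m : ℤ) * n2 - ra then (1 : ℝ) else 0) * (1 / p1) +
      1 / p1 * (1 / p2) := by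
    intro m
    unfold dd
    by_cases ha : (p1 : ℤ) ∣ (m : ℤ) * n1 - ra <;> by_cases hb : (p2 : ℤ) ∣ (m : ℤ) * n2 - ra <;>
      simp only [ha, hb, if_true, if_false, and_self, and_true, true_and, and_false, false_and] <;> ring
  rw [sum_congr rfl fun m _ => h1 m, sum_add_distrib, sum_sub_distrib, sum_sub_distrib,
    ← sum_mul, ← sum_mul, sum_boole, sum_boole, sum_boole, sum_const, Nat.card_Ioc, nsmul_eq_mul]
  have h2 : 2 * M - M = M := by omega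
  rw [h2]
  rfl

/-- [D1b] different primes, different `n`: `∑_m dd dd = cc - M/(p1 p2) + O(3/X)` (expand the product, `count_m` twice) -/
theorem corr_ne (X M p1 p2 n1 n2 : ℕ) (h1 : p1 ∈ prs X) (h2 : p2 ∈ prs X) (hn1 : 1 ≤ n1 ∧ n1 ≤ X) (hn2 : 1 ≤ n2 ∧ n2 ≤ X) :
    |∑ m ∈ Ioc M (2 * M), dd ra p1 m n1 * dd ra p2 m n2 - ((cc ra M p1 p2 n1 n2 : ℝ) - (M : ℝ) / (p1 * p2))| ≤ 3 / X := by
  have hc1 := D1b_coprime X p1 n1 h1 hn1
  have hc2 := D1b_coprime X p2 n2 h2 hn2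
  rw [prs, mem_filter, mem_Ioc] at h1 h2
  have hX : 0 < X := by omega
  have e1 := count_m ra M p1 n1 (by omega) hc1
  have e2 := count_m ra M p2 n2 (by omega) hc2
  rw [D1b_expand]
  set A := ((((Ioc M (2 * M)).filter fun m : ℕ => (p1 : ℤ) ∣ (m : ℤ) * n1 - ra).card : ℕ) : ℝ) with hA
  set B := ((((Ioc M (2 * M)).filter fun m : ℕ => (p2 : ℤ) ∣ (m : ℤ) * n2 - ra).card : ℕ) : ℝ) with hB
  have hXR : (0 : ℝ) < X := by exact_mod_cast hX
  have hp1 : (X : ℝ) < p1 := by exact_mod_cast h1.1.1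
  have hp2 : (X : ℝ) < p2 := by exact_mod_cast h2.1.1
  have hp1' : (0 : ℝ) < p1 := by linarith
  have hp2' : (0 : ℝ) < p2 := by linarith
  have i1 : (1 : ℝ) / p1 ≤ 1 / X := one_div_le_one_div_of_le hXR hp1.le
  have i2 : (1 : ℝ) / p2 ≤ 1 / X := one_div_le_one_div_of_le hXR hp2.le
  have j1 : (0 : ℝ) < 1 / p1 := by positivity
  have j2 : (0 : ℝ) < 1 / p2 := by positivity
  have e : (cc ra M p1 p2 n1 n2 : ℝ) - A * (1 / p2) - B * (1 / p1) + (M : ℝ) * (1 / p1 * (1 / p2)) -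
      ((cc ra M p1 p2 n1 n2 : ℝ) - (M : ℝ) / (p1 * p2)) =
      -((A - M / p1) * (1 / p2)) - (B - M / p2) * (1 / p1) := by
    field_simp
    ring
  rw [e]
  have k1 : |(A - M / p1) * (1 / p2)| ≤ 1 / X := by
    rw [abs_mul, abs_of_pos j2]
    calc |A - M / p1| * (1 / p2) ≤ 1 * (1 / p2) := mul_le_mul_of_nonneg_right e1 j2.le
      _ ≤ 1 / X := by rw [one_mul]; exact i2
  have k2 : |(B - M / p2) * (1 / p1)| ≤ 1 / X := by
    rw [abs_mul, abs_of_pos j1]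
    calc |B - M / p2| * (1 / p1) ≤ 1 * (1 / p1) := mul_le_mul_of_nonneg_right e2 j1.le
      _ ≤ 1 / X := by rw [one_mul]; exact i1
  have k3 : (0 : ℝ) < 1 / X := by positivity
  have k4 : (3 : ℝ) / X = 1 / X + 1 / X + 1 / X := by ring
  rw [abs_le] at k1 k2 ⊢
  rw [k4]
  constructor
  · linarith [k1.1, k1.2, k2.1, k2.2]
  · linarith [k1.1, k1.2, k2.1, k2.2]

/-- [D1c] the same prime, different `n`: `cc = 0` because `p ∣ n1 - n2`, `0 < |n1 - n2| < X` -/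
theorem corr_eq (X M p n1 n2 : ℕ) (h : p ∈ prs X) (hn1 : 1 ≤ n1 ∧ n1 ≤ X) (hn2 : 1 ≤ n2 ∧ n2 ≤ X) (hne : n1 ≠ n2)
    (hM : X ≤ M) (hra : ra ≠ 0) (hraX : |ra| ≤ X) : |∑ m ∈ Ioc M (2 * M), dd ra p m n1 * dd ra p m n2| ≤ 5 * M / (X : ℝ) ^ 2 := by
  have h0 := corr_ne (ra := ra) X M p p n1 n2 h h hn1 hn2
  rw [prs, mem_filter, mem_Ioc] at h
  have hcc : cc ra M p p n1 n2 = 0 := by
    unfold cc
    rw [card_eq_zero, filter_eq_empty_iff]
    rintro m _ ⟨ha, hb⟩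
    have hp : Prime (p : ℤ) := Nat.prime_iff_prime_int.1 h.2
    have h1 : (p : ℤ) ∣ (m : ℤ) * ((n1 : ℤ) - n2) := by
      have := dvd_sub ha hb
      have e : (m : ℤ) * n1 - ra - ((m : ℤ) * n2 - ra) = (m : ℤ) * ((n1 : ℤ) - n2) := by ring
      rwa [e] at this
    rcases hp.dvd_or_dvd h1 with h2 | h2
    · have h3 : (p : ℤ) ∣ ra := by
        have := dvd_sub (h2.mul_right (n1 : ℤ)) ha
        have e : (m : ℤ) * n1 - ((m : ℤ) * n1 - ra) = ra := by ring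
        rwa [e] at this
      have h4 := Int.le_of_dvd (abs_pos.2 hra) ((dvd_abs _ _).2 h3)
      have h6 : (X : ℤ) < p := by exact_mod_cast h.1.1
      omega
    · have h3 : (n1 : ℤ) - n2 ≠ 0 := by
        rw [sub_ne_zero]
        exact_mod_cast hne
      have h4 := Int.le_of_dvd (abs_pos.2 h3) ((dvd_abs _ _).2 h2)
      have h5 : |(n1 : ℤ) - n2| < X := by
        rw [abs_lt]
        constructor
        · omega
        · omega
      have h6 : (X : ℤ) < p := by exact_mod_cast h.1.1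
      omega
  rw [hcc] at h0
  have hX : 0 < X := by omega
  have hXR : (0 : ℝ) < X := by exact_mod_cast hX
  have hMR : (X : ℝ) ≤ M := by exact_mod_cast hM
  have hp1 : (X : ℝ) < p := by exact_mod_cast h.1.1
  have hp1' : (0 : ℝ) < p := by linarith
  have h1 : (M : ℝ) / (p * p) ≤ M / (X : ℝ) ^ 2 := by
    rw [sq]
    gcongr
  have h2 : (3 : ℝ) / X ≤ 3 * M / (X : ℝ) ^ 2 := by
    rw [div_le_div_iff₀ hXR (by positivity)]
    nlinarith
  have h3 : (0 : ℝ) ≤ (M : ℝ) / (p * p) := by positivity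
  have h4 : (0 : ℝ) ≤ M / (X : ℝ) ^ 2 := by positivity
  have e : 5 * (M : ℝ) / (X : ℝ) ^ 2 = 3 * M / (X : ℝ) ^ 2 + M / (X : ℝ) ^ 2 + M / (X : ℝ) ^ 2 := by ring
  rw [e]
  rw [abs_le] at h0 ⊢
  push_cast at h0
  constructor
  · linarith [h0.1, h0.2]
  · linarith [h0.1, h0.2]

end Pool.Agent.TIA
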