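import Pool.Agent.TII.Defs

/-!
# [TIA] Type II estimate for the class `a` modulo p: definitions
The integer `ra` is the residue class; `h = ra (n1 - n2)`.
-/

set_option autoImplicit false

namespace Pool.Agent.TIA

open Finset Pool.Agent.TII

/-- standing assumptions on a pair of primes -/
structure Pair (ra : ℤ) (N H n1 n2 : ℕ) : Prop where
  ra0 : ra ≠ 0
  HN : H < N
  p1 : n1.Prime
  p2 : n2.Prime
  l1 : N < n1
  u1 : n1 ≤ 2 * N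
  l2 : N < n2
  u2 : n2 ≤ 2 * N
  ne : n1 ≠ n2
  dist : |ra * ((n1 : ℤ) - n2)| ≤ H

/-- standing assumptions on the set of the parameters `t` -/
structure Win (N : ℕ) (W : Finset ℤ) : Prop where
  abs : ∀ t ∈ W, |t| ≤ 9 * N
  diam : ∀ s ∈ W, ∀ t ∈ W, 2 * |s - t| ≤ N

/-- standing assumptions on the sizes -/
structure Par (N H Z V : ℕ) (T : ℝ) : Prop where
  loss : Loss V T
  hH : 1 ≤ H
  hZ : 2 ≤ Z
  hV : N ^ 100 ≤ V
  hN : (10000 * T * H * Z) ^ 100 ≤ N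

/-- the number of `t ∈ W` with `n1 ∣ h x + t q1`, `n2 ∣ h y + t q2` for `g = [[q1, q2], [x, y]]`,
`h = ra (n1 - n2)` -/
def FF (ra : ℤ) (W : Finset ℤ) (n1 n2 : ℕ) (g : SL) : ℝ :=
  ((W.filter fun t : ℤ => (n1 : ℤ) ∣ (ra * ((n1 : ℤ) - n2)) * g.1 1 0 + t * g.1 0 0 ∧
    (n2 : ℤ) ∣ (ra * ((n1 : ℤ) - n2)) * g.1 1 1 + t * g.1 0 1).card : ℝ)

/-- the expected value of `FF` -/
noncomputable def mu (W : Finset ℤ) (n1 n2 : ℕ) : ℝ := (W.card : ℝ) / ((n1 + 1) * (n2 + 1))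

/-- the number of pairs `(t, t') ∈ W²` with `n1 n2 ∣ b t t' - a h t' + d h t - c h²`, `h = ra (n1 - n2)` -/
def rr (ra : ℤ) (W : Finset ℤ) (n1 n2 : ℕ) (δ : SL) : ℕ :=
  ((W ×ˢ W).filter fun p : ℤ × ℤ => ((n1 : ℤ) * n2) ∣
    δ.1 0 1 * p.1 * p.2 - δ.1 0 0 * (ra * ((n1 : ℤ) - n2)) * p.2 + δ.1 1 1 * (ra * ((n1 : ℤ) - n2)) * p.1 -
      δ.1 1 0 * (ra * ((n1 : ℤ) - n2)) ^ 2).card

end Pool.Agent.TIA
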