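import Pool.Agent.TIA.Defs

/-!
# [TIA] two consequences of `Pair`
-/

set_option autoImplicit false

namespace Pool.Agent.TIA

open Finset Pool.Agent.TII

variable {ra : ℤ}

theorem Pair.dist' {N H n1 n2 : ℕ} (h : Pair ra N H n1 n2) : |(n1 : ℤ) - n2| ≤ H := by
  have h1 := h.dist
  rw [abs_mul] at h1
  have h2 : 1 ≤ |ra| := Int.one_le_abs h.ra0
  nlinarith [abs_nonneg ((n1 : ℤ) - n2)]

theorem Pair.ra_le {N H n1 n2 : ℕ} (h : Pair ra N H n1 n2) : |ra| ≤ H := by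
  have h1 := h.dist
  rw [abs_mul] at h1
  have h3 : (n1 : ℤ) - n2 ≠ 0 := by
    intro h4
    apply h.ne
    omega
  have h2 : 1 ≤ |(n1 : ℤ) - n2| := Int.one_le_abs h3
  nlinarith [abs_nonneg ra]

end Pool.Agent.TIA
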