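import Pool.Agent.TIA.E2
import Pool.Agent.TIA.Pr
import Pool.Agent.TII.E3

/-!
# [TIA-E3] the windows attached to a box
-/

set_option autoImplicit false

namespace Pool.Agent.TIA

open Finset
open Pool.Agent.TII (Esz llo lhi box_range lhi_le)

variable {ra : ℤ}

/-- the lower window -/
noncomputable def Wm (X M N H B i1 i2 e : ℕ) : Finset ℤ :=
  Finset.Ioc ⌊lhi X M N H B i1 i2 e + H + 1⌋ ⌊2 * llo X M N H B i1 i2 e - H - 1⌋

/-- the upper window -/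
noncomputable def Wp (X M N H B i1 i2 e : ℕ) : Finset ℤ :=
  Finset.Ioc ⌊llo X M N H B i1 i2 e - H - 1⌋ ⌊2 * lhi X M N H B i1 i2 e + H + 1⌋

/-- [E3a] `llo ≤ M n1 n2 / (q1 q2) ≤ lhi` on the box -/
theorem llo_le (X M N H B : ℕ) (hs : Esz X M N H B) (q1 q2 n1 n2 : ℕ) (hq1 : q1 ∈ Ioc X (2 * X))
    (hq2 : q2 ∈ Ioc X (2 * X)) (hp : Pair ra N H n1 n2) :
    llo X M N H B (B * q1 / X) (B * q2 / X) (B * n1 / N) ≤ (M : ℝ) * n1 * n2 / (q1 * q2) ∧
      (M : ℝ) * n1 * n2 / (q1 * q2) ≤ lhi X M N H B (B * q1 / X) (B * q2 / X) (B * n1 / N) := by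
  have hB0 : 0 < B := lt_of_lt_of_le (by norm_num) hs.hB
  have hN0 : 0 < N := by
    have := hs.hBH
    have : 0 < B * H := Nat.mul_pos hB0 hs.hH
    nlinarith
  have hX0 : 0 < X := by have := hs.hX; omega
  have hBr : (0 : ℝ) < B := by exact_mod_cast hB0
  have hNr : (0 : ℝ) < N := by exact_mod_cast hN0
  have hXr : (0 : ℝ) < X := by exact_mod_cast hX0
  have hn1 : n1 ∈ Ioc N (2 * N) := mem_Ioc.2 ⟨hp.l1, hp.u1⟩
  have r1 := (box_range X N B q1 n1 (by omega) hq1 hn1)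
  have r2 := (box_range X N B q2 n1 (by omega) hq2 hn1)
  -- real bounds for the quotients
  have key : ∀ Y k : ℕ, 0 < Y → ((B * k / Y : ℕ) : ℝ) * Y ≤ B * k ∧
      (B : ℝ) * k ≤ (((B * k / Y : ℕ) : ℝ) + 1) * Y := by
    intro Y k hY
    constructor
    · exact_mod_cast Nat.div_mul_le_self (B * k) Y
    · have h := (Nat.lt_div_mul_add (a := B * k) hY).le
      have h' : ((B * k : ℕ) : ℝ) ≤ ((B * k / Y * Y + Y : ℕ) : ℝ) := by exact_mod_cast h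
      push_cast at h'
      linarith
  obtain ⟨a1, a2⟩ := key X q1 hX0
  obtain ⟨b1, b2⟩ := key X q2 hX0
  obtain ⟨c1, c2⟩ := key N n1 hN0
  have hi1 : (B : ℝ) ≤ ((B * q1 / X : ℕ) : ℝ) := by exact_mod_cast (mem_Icc.1 r1.1).1
  have hi2 : (B : ℝ) ≤ ((B * q2 / X : ℕ) : ℝ) := by exact_mod_cast (mem_Icc.1 r2.1).1
  have he : (B : ℝ) ≤ ((B * n1 / N : ℕ) : ℝ) := by exact_mod_cast (mem_Icc.1 r1.2).1
  set i1 : ℝ := ((B * q1 / X : ℕ) : ℝ)
  set i2 : ℝ := ((B * q2 / X : ℕ) : ℝ)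
  set e : ℝ := ((B * n1 / N : ℕ) : ℝ)
  have hq1p : (0 : ℝ) < q1 := by
    have := (mem_Ioc.1 hq1).1
    exact_mod_cast (by omega : 0 < q1)
  have hq2p : (0 : ℝ) < q2 := by
    have := (mem_Ioc.1 hq2).1
    exact_mod_cast (by omega : 0 < q2)
  have hHN : (H : ℝ) ≤ N := by
    have h1 := hs.hBH
    have h2 : H ≤ 100 * B * H := Nat.le_mul_of_pos_left H (by omega)
    exact_mod_cast h2.trans h1
  have hd : |(n1 : ℝ) - n2| ≤ H := by exact_mod_cast hp.dist'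
  obtain ⟨d1, d2⟩ := abs_le.1 hd
  have hH0 : (0 : ℝ) ≤ H := Nat.cast_nonneg H
  have hM0 : (0 : ℝ) ≤ M := Nat.cast_nonneg M
  have hu : e * N / B ≤ n1 := by rw [div_le_iff₀ hBr]; linarith
  have hw : (e * N - H * B) / B ≤ n2 := by rw [div_le_iff₀ hBr]; nlinarith
  have hu' : (n1 : ℝ) ≤ (e + 1) * N / B := by rw [le_div_iff₀ hBr]; linarith
  have hw' : (n2 : ℝ) ≤ ((e + 1) * N + H * B) / B := by rw [le_div_iff₀ hBr]; nlinarith
  have hs1 : (q1 : ℝ) ≤ (i1 + 1) * X / B := by rw [le_div_iff₀ hBr]; linarith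
  have hs2 : (q2 : ℝ) ≤ (i2 + 1) * X / B := by rw [le_div_iff₀ hBr]; linarith
  have ht1 : i1 * X / B ≤ q1 := by rw [div_le_iff₀ hBr]; linarith
  have ht2 : i2 * X / B ≤ q2 := by rw [div_le_iff₀ hBr]; linarith
  have hi1p : 0 < i1 := hBr.trans_le hi1
  have hi2p : 0 < i2 := hBr.trans_le hi2
  have hep : 0 < e := hBr.trans_le he
  have hw0 : 0 ≤ (e * N - H * B) / B := by
    apply div_nonneg _ hBr.le
    nlinarith [mul_le_mul he hHN hH0 hep.le]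
  unfold llo lhi
  constructor
  · have e1 : (M : ℝ) * (e * N) * (e * N - H * B) / ((i1 + 1) * (i2 + 1) * (X : ℝ) ^ 2) =
        M * (e * N / B) * ((e * N - H * B) / B) / (((i1 + 1) * X / B) * ((i2 + 1) * X / B)) := by
      field_simp
    rw [e1]
    have hn1p : (0 : ℝ) ≤ n1 := Nat.cast_nonneg n1
    gcongr
  · have e1 : (M : ℝ) * ((e + 1) * N) * ((e + 1) * N + H * B) / (i1 * i2 * (X : ℝ) ^ 2) =
        M * ((e + 1) * N / B) * (((e + 1) * N + H * B) / B) / ((i1 * X / B) * (i2 * X / B)) := by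
      field_simp
    rw [e1]
    gcongr

end Pool.Agent.TIA
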