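import Pool.Agent.TIA.Defs
import Pool.Agent.TII.E3p

/-!
# [TIA-E3p] the pieces of a window
-/

set_option autoImplicit false

namespace Pool.Agent.TIA

open Finset
open Pool.Agent.TII (SL piece)

variable {ra : ℤ}

/-- the pieces of a window -/
def piece (N : ℕ) (W : Finset ℤ) (i : ℤ) : Finset ℤ := W.filter fun t => 2 * t / (N : ℤ) = i

/-- [E3e] -/
theorem piece_win (N : ℕ) (hN : 1 ≤ N) (W : Finset ℤ) (hW : ∀ t ∈ W, |t| ≤ 9 * N) (i : ℤ) : Win N (piece N W i) := by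
  have hN' : (0 : ℤ) < N := by exact_mod_cast hN
  refine ⟨fun t ht => hW t (Finset.mem_filter.1 ht).1, fun s hs t ht => ?_⟩
  have h1 := (Finset.mem_filter.1 hs).2
  have h2 := (Finset.mem_filter.1 ht).2
  have a1 := Int.emod_add_mul_ediv (2 * s) N
  have a2 := Int.emod_add_mul_ediv (2 * t) N
  have b1 := Int.emod_nonneg (2 * s) hN'.ne'
  have b2 := Int.emod_nonneg (2 * t) hN'.ne'
  have c1 := Int.emod_lt_of_pos (2 * s) hN'
  have c2 := Int.emod_lt_of_pos (2 * t) hN'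
  rw [h1] at a1
  rw [h2] at a2
  have : 2 * |s - t| = |2 * s - 2 * t| := by
    rw [← mul_sub, abs_mul]; norm_num
  rw [this, abs_le]
  constructor <;> linarith

private theorem E3p_range (N : ℕ) (hN : 1 ≤ N) (t : ℤ) (ht : |t| ≤ 9 * N) :
    2 * t / (N : ℤ) ∈ Icc (-18 : ℤ) 18 := by
  have hN' : (0 : ℤ) < N := by exact_mod_cast hN
  rw [abs_le] at ht
  rw [Finset.mem_Icc]
  constructor
  · rw [Int.le_ediv_iff_mul_le hN']; linarith [ht.1]
  · have : 2 * t / (N : ℤ) ≤ 18 * N / N := Int.ediv_le_ediv hN' (by linarith [ht.2])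
    rwa [Int.mul_ediv_cancel _ hN'.ne'] at this

private theorem E3p_card (N : ℕ) (hN : 1 ≤ N) (W : Finset ℤ) (hW : ∀ t ∈ W, |t| ≤ 9 * N)
    (P : ℤ → Prop) [DecidablePred P] :
    (W.filter P).card = ∑ i ∈ Icc (-18 : ℤ) 18, ((piece N W i).filter P).card := by
  rw [Finset.card_eq_sum_card_fiberwise (f := fun t => 2 * t / (N : ℤ)) (t := Icc (-18 : ℤ) 18)]
  · refine Finset.sum_congr rfl fun i _ => ?_
    congr 1
    ext t
    simp only [piece, Finset.mem_filter]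
    tauto
  · intro t ht
    exact E3p_range N hN t (hW t (Finset.mem_filter.1 ht).1)

theorem FF_pieces (N : ℕ) (hN : 1 ≤ N) (W : Finset ℤ) (hW : ∀ t ∈ W, |t| ≤ 9 * N) (n1 n2 : ℕ) (g : SL) :
    FF ra W n1 n2 g = ∑ i ∈ Icc (-18 : ℤ) 18, FF ra (piece N W i) n1 n2 g := by
  unfold FF
  rw [E3p_card N hN W hW]
  push_cast
  rfl

theorem mu_pieces (N : ℕ) (hN : 1 ≤ N) (W : Finset ℤ) (hW : ∀ t ∈ W, |t| ≤ 9 * N) (n1 n2 : ℕ) :
    mu W n1 n2 = ∑ i ∈ Icc (-18 : ℤ) 18, mu (piece N W i) n1 n2 := by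
  unfold mu
  rw [← Finset.sum_div]
  congr 1
  have h := E3p_card N hN W hW (fun _ => True)
  simp only [Finset.filter_true] at h
  rw [h]
  push_cast
  rfl

end Pool.Agent.TIA
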