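import Pool.Agent.TIA.E3w
import Pool.Agent.TIA.E3s
import Pool.Agent.TIA.E3p
import Pool.Agent.TII.E4a

/-!
# [TIA-E4a] the main terms
-/

set_option autoImplicit false

namespace Pool.Agent.TIA

open Finset
open Pool.Agent.TII (SL Esz llo lhi box_range lhi_le piece piece_win DDe gv gv_spec)

variable {ra : ℤ}

/-- the quantity of the dispersion method -/
noncomputable def UU (ra : ℤ) (M : ℕ) (DD : Finset (ℕ × ℕ)) (b : ℕ × ℕ → ℝ) (q1 q2 : ℕ) : ℝ :=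
  ∑ p ∈ DD, b p * ((cc ra M q1 q2 p.1 p.2 : ℝ) - (M : ℝ) / (q1 * q2))

private theorem E4a_real (D lam w d N B H Mq : ℝ) (hN : 0 < N) (hB : 0 < B) (hH : 1 ≤ H)
    (hBH : 100 * B * H ≤ N) (hD : N ^ 2 ≤ D) (hw1 : lam - (40 * N / B + 22 * H + 3) ≤ w) (hw2 : w ≤ lam)
    (hd : d ≤ 60 * N / B + 40 * H) (hq : |lam / D - Mq| ≤ 2 / N ^ 2) :
    d / D + |w / D - Mq| ≤ 200 / (B * N) := by
  have hD0 : 0 < D := lt_of_lt_of_le (by positivity) hD
  have hN2 : (0 : ℝ) < N ^ 2 := by positivity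
  have e1 : |w / D - Mq| ≤ (40 * N / B + 22 * H + 3) / D + 2 / N ^ 2 := by
    have : w / D - Mq = (w - lam) / D + (lam / D - Mq) := by ring
    rw [this]
    refine (abs_add_le _ _).trans (add_le_add ?_ hq)
    rw [abs_div, abs_of_pos hD0]
    refine div_le_div_of_nonneg_right ?_ hD0.le
    rw [abs_le]
    constructor
    · linarith
    · have : 0 ≤ 40 * N / B := by positivity
      linarith
  have e2 : d / D ≤ (60 * N / B + 40 * H) / D := div_le_div_of_nonneg_right hd hD0.le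
  have e3 : (60 * N / B + 40 * H) / D + ((40 * N / B + 22 * H + 3) / D + 2 / N ^ 2) =
      (100 * N / B + 62 * H + 3) / D + 2 / N ^ 2 := by ring
  have e4 : (100 * N / B + 62 * H + 3) / D ≤ (100 * N / B + 62 * H + 3) / N ^ 2 :=
    div_le_div_of_nonneg_left (by positivity) hN2 hD
  have e5 : (100 * N / B + 62 * H + 3) / N ^ 2 + 2 / N ^ 2 ≤ 200 / (B * N) := by
    rw [← add_div, div_le_div_iff₀ hN2 (by positivity)]
    have h1 : (100 * N / B + 62 * H + 3 + 2) * (B * N) = 100 * N ^ 2 + (62 * H + 5) * B * N := by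
      field_simp
      ring
    rw [h1]
    have h2 : (62 * H + 5) * B ≤ 100 * B * H := by nlinarith
    nlinarith
  linarith

/-- [E4a] the main terms. Proof. `(n1+1)(n2+1) ≥ N²`; `mu (Wp \ Wm) ≤ (60 N/B + 38 H)/N²`. `M n1 n2/(q1 q2) - 1 ≤ |Wp|`-type bounds: the integers `t` with `inT` are those of `(T₁, T₂]`,
`T₂ - T₁ = M n1 n2/(q1 q2)`, so their number is within `1` of it, and it lies between `|Wm|` and `|Wp| = |Wm| + |Wp \ Wm|`; `M/(q1 q2) ≤ 1/N`,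
`1 - n1 n2/((n1+1)(n2+1)) ≤ 2/N`. -/
theorem mu_window (X M N H B : ℕ) (hs : Esz X M N H B) (q1 q2 n1 n2 : ℕ) (hq1 : q1 ∈ Ioc X (2 * X))
    (hq2 : q2 ∈ Ioc X (2 * X)) (hc : Nat.Coprime q1 q2) (hp : Pair ra N H n1 n2) :
    mu (Wp X M N H B (B * q1 / X) (B * q2 / X) (B * n1 / N) \ Wm X M N H B (B * q1 / X) (B * q2 / X) (B * n1 / N)) n1 n2 +
      |mu (Wm X M N H B (B * q1 / X) (B * q2 / X) (B * n1 / N)) n1 n2 - (M : ℝ) / (q1 * q2)| ≤ 200 / (B * N) := by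
  have hB1 : 1 ≤ B := by have := hs.hB; omega
  have hn1 : n1 ∈ Ioc N (2 * N) := Finset.mem_Ioc.2 ⟨hp.l1, hp.u1⟩
  obtain ⟨hi1, he⟩ := box_range X N B q1 n1 hB1 hq1 hn1
  obtain ⟨hi2, -⟩ := box_range X N B q2 n1 hB1 hq2 hn1
  obtain ⟨hl1, hl2⟩ := llo_le X M N H B hs q1 q2 n1 n2 hq1 hq2 hp
  obtain ⟨hl3, hl4, hl5⟩ := lhi_le X M N H B hs _ _ _ hi1 hi2 he
  obtain ⟨-, hd, -⟩ := windows_size X M N H B hs _ _ _ hi1 hi2 he
  generalize B * q1 / X = i1 at *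
  generalize B * q2 / X = i2 at *
  generalize B * n1 / N = e at *
  set lam : ℝ := (M : ℝ) * n1 * n2 / (q1 * q2) with hlam
  obtain ⟨hX1, hX1'⟩ := Finset.mem_Ioc.1 hq1
  obtain ⟨hX2, hX2'⟩ := Finset.mem_Ioc.1 hq2
  have hNpos : 0 < N := by
    have h1 := hs.hBH
    have h2 := hs.hH
    have h3 := hs.hB
    have : 0 < 100 * B * H := by positivity
    omega
  have hN : (0 : ℝ) < N := by exact_mod_cast hNpos
  have hH : (1 : ℝ) ≤ H := by exact_mod_cast hs.hH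
  have hBH : (100 : ℝ) * B * H ≤ N := by exact_mod_cast hs.hBH
  have hBr : (0 : ℝ) < B := by exact_mod_cast (by omega : 0 < B)
  have hXpos : 0 < X := by have := hs.hX; omega
  have hXr : (0 : ℝ) < X := by exact_mod_cast hXpos
  have hq1r : (X : ℝ) < q1 := by exact_mod_cast hX1
  have hq2r : (X : ℝ) < q2 := by exact_mod_cast hX2
  have hn1r : (N : ℝ) < n1 := by exact_mod_cast hp.l1
  have hn2r : (N : ℝ) < n2 := by exact_mod_cast hp.l2
  have hlam0 : 0 ≤ lam := hl3.trans hl1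
  have hcard : ((Wm X M N H B i1 i2 e).card : ℝ) ≤ lam ∧
      lam - (40 * N / B + 22 * H + 3) ≤ ((Wm X M N H B i1 i2 e).card : ℝ) := by
    unfold Wm
    rw [Int.card_Ioc]
    have f1 := Int.floor_le (2 * llo X M N H B i1 i2 e - H - 1)
    have f2 := Int.lt_floor_add_one (2 * llo X M N H B i1 i2 e - H - 1)
    have f3 := Int.floor_le (lhi X M N H B i1 i2 e + H + 1)
    have f4 := Int.lt_floor_add_one (lhi X M N H B i1 i2 e + H + 1)
    generalize ⌊2 * llo X M N H B i1 i2 e - H - 1⌋ = a at *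
    generalize ⌊lhi X M N H B i1 i2 e + H + 1⌋ = c at *
    have g1 : (((a - c).toNat : ℕ) : ℝ) = max ((a : ℝ) - c) 0 := by
      have : (((a - c).toNat : ℕ) : ℤ) = max (a - c) 0 := Int.toNat_eq_max _
      have h2 : ((((a - c).toNat : ℕ) : ℤ) : ℝ) = ((max (a - c) 0 : ℤ) : ℝ) := by rw [this]
      push_cast at h2
      exact h2
    rw [g1]
    constructor
    · refine max_le ?_ hlam0
      linarith
    · refine le_trans ?_ (le_max_left _ _)
      have h40 : (40 : ℝ) * N / B = 2 * (20 * N / B) := by ring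
      rw [h40]
      linarith
  have hD : (N : ℝ) ^ 2 ≤ ((n1 : ℝ) + 1) * (n2 + 1) := by nlinarith
  have hq : |lam / (((n1 : ℝ) + 1) * (n2 + 1)) - (M : ℝ) / (q1 * q2)| ≤ 2 / (N : ℝ) ^ 2 := by
    have hq0 : (0 : ℝ) < q1 * q2 := by
      have : (0 : ℝ) < q1 := hXr.trans hq1r
      have : (0 : ℝ) < q2 := hXr.trans hq2r
      positivity
    have hD0 : (0 : ℝ) < ((n1 : ℝ) + 1) * (n2 + 1) := by positivity
    have h1 : lam / (((n1 : ℝ) + 1) * (n2 + 1)) - (M : ℝ) / (q1 * q2) =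
        -((M : ℝ) / (q1 * q2) * ((n1 + n2 + 1) / (((n1 : ℝ) + 1) * (n2 + 1)))) := by
      rw [hlam]
      field_simp
      ring
    rw [h1, abs_neg, abs_of_nonneg (by positivity)]
    have h2 : (M : ℝ) / (q1 * q2) ≤ 1 / N := by
      rw [div_le_div_iff₀ hq0 hN]
      have h3 : ((M : ℝ) * N) ≤ (X : ℝ) ^ 2 := by exact_mod_cast hs.hMN
      nlinarith
    have h4 : ((n1 : ℝ) + n2 + 1) / (((n1 : ℝ) + 1) * (n2 + 1)) ≤ 2 / N := by
      rw [div_le_div_iff₀ hD0 hN]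
      nlinarith
    calc (M : ℝ) / (q1 * q2) * ((n1 + n2 + 1) / (((n1 : ℝ) + 1) * (n2 + 1)))
        ≤ 1 / N * (2 / N) := by gcongr
      _ = 2 / (N : ℝ) ^ 2 := by ring
  have := E4a_real (((n1 : ℝ) + 1) * (n2 + 1)) lam ((Wm X M N H B i1 i2 e).card : ℝ)
    (((Wp X M N H B i1 i2 e \ Wm X M N H B i1 i2 e).card : ℕ) : ℝ) N B H ((M : ℝ) / (q1 * q2)) hN hBr hH hBH hD
    hcard.2 hcard.1 hd hq
  exact this

end Pool.Agent.TIA
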