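import Pool.Agent.TIA.E4a

/-!
# [TIA-E4b] one pair of primes
-/

set_option autoImplicit false

namespace Pool.Agent.TIA

open Finset
open Pool.Agent.TII (SL Esz llo lhi box_range lhi_le piece piece_win DDe gv gv_spec)

variable {ra : ℤ}

theorem E4b_FF_le (Wp Wm : Finset ℤ) (n1 n2 : ℕ) (g : SL) :
    FF ra Wp n1 n2 g ≤ FF ra Wm n1 n2 g + FF ra (Wp \ Wm) n1 n2 g := by
  unfold FF
  rw [← Nat.cast_add, Nat.cast_le]
  refine le_trans (card_le_card ?_) (card_union_le _ _)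
  intro t ht
  rw [mem_filter] at ht
  rw [mem_union, mem_filter, mem_filter, mem_sdiff]
  by_cases h : t ∈ Wm
  · exact Or.inl ⟨h, ht.2⟩
  · exact Or.inr ⟨⟨ht.1, h⟩, ht.2⟩

/-- [E4b] one pair `(n1, n2)`: `cc - M/(q1 q2) = (FF Wm - mu Wm) + rest`, `0 ≤ cc - FF Wm ≤ FF ra (Wp \ Wm)`: `window`, `FF_le_cc`, `cc_le_FF`. -/
theorem cc_window (X M N H B : ℕ) (hs : Esz X M N H B) (q1 q2 n1 n2 : ℕ) (hq1 : q1 ∈ Ioc X (2 * X))
    (hq2 : q2 ∈ Ioc X (2 * X)) (hc : Nat.Coprime q1 q2) (hp : Pair ra N H n1 n2) (b : ℝ) (hb : |b| ≤ 1) :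
    |b * ((cc ra M q1 q2 n1 n2 : ℝ) - (M : ℝ) / (q1 * q2)) -
      b * (FF ra (Wm X M N H B (B * q1 / X) (B * q2 / X) (B * n1 / N)) n1 n2 (gv q1 q2) -
        mu (Wm X M N H B (B * q1 / X) (B * q2 / X) (B * n1 / N)) n1 n2)| ≤
      (FF ra (Wp X M N H B (B * q1 / X) (B * q2 / X) (B * n1 / N) \ Wm X M N H B (B * q1 / X) (B * q2 / X) (B * n1 / N))
          n1 n2 (gv q1 q2) -
        mu (Wp X M N H B (B * q1 / X) (B * q2 / X) (B * n1 / N) \ Wm X M N H B (B * q1 / X) (B * q2 / X) (B * n1 / N))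
          n1 n2) + 400 / (B * N) := by
  have hB : 100 ≤ B := hs.hB
  have hN : 10000 ≤ N := by
    have h1 := hs.hBH
    have h2 := hs.hH
    nlinarith
  have hX : 2 ≤ X := by have := hs.hX; omega
  have hq1' := mem_Ioc.mp hq1
  have hq2' := mem_Ioc.mp hq2
  obtain ⟨hg0, hg1, hg2, hg3, hg4⟩ := gv_spec q1 q2 hc (by omega) (by omega)
  obtain ⟨w1, w2⟩ := window X M N H B hs q1 q2 n1 n2 hq1 hq2 hp (gv q1 q2) hg1 hg2 (hg0 1 1) hg4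
  have f1 := FF_le_cc M hp q1 q2 (gv q1 q2) hg1 hg2 (by omega) (by omega) _ w1
  have f2 := cc_le_FF M hp q1 q2 (gv q1 q2) hg1 hg2 (by omega) (by omega) _ w2
  have hmu := mu_window X M N H B hs q1 q2 n1 n2 hq1 hq2 hc hp
  generalize Wp X M N H B (B * q1 / X) (B * q2 / X) (B * n1 / N) = P at *
  generalize Wm X M N H B (B * q1 / X) (B * q2 / X) (B * n1 / N) = Q at *
  have f3 := E4b_FF_le (ra := ra) P Q n1 n2 (gv q1 q2)
  have e1 : b * ((cc ra M q1 q2 n1 n2 : ℝ) - (M : ℝ) / (q1 * q2)) -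
      b * (FF ra Q n1 n2 (gv q1 q2) - mu Q n1 n2) =
      b * (((cc ra M q1 q2 n1 n2 : ℝ) - FF ra Q n1 n2 (gv q1 q2)) +
        (mu Q n1 n2 - (M : ℝ) / (q1 * q2))) := by ring
  rw [e1, abs_mul]
  have h1 : |((cc ra M q1 q2 n1 n2 : ℝ) - FF ra Q n1 n2 (gv q1 q2)) +
        (mu Q n1 n2 - (M : ℝ) / (q1 * q2))| ≤
      ((cc ra M q1 q2 n1 n2 : ℝ) - FF ra Q n1 n2 (gv q1 q2)) + |mu Q n1 n2 - (M : ℝ) / (q1 * q2)| := by
    refine (abs_add_le _ _).trans ?_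
    rw [abs_of_nonneg (by linarith : (0 : ℝ) ≤ (cc ra M q1 q2 n1 n2 : ℝ) - FF ra Q n1 n2 (gv q1 q2))]
  have h2 : |b| * |((cc ra M q1 q2 n1 n2 : ℝ) - FF ra Q n1 n2 (gv q1 q2)) +
        (mu Q n1 n2 - (M : ℝ) / (q1 * q2))| ≤
      1 * |((cc ra M q1 q2 n1 n2 : ℝ) - FF ra Q n1 n2 (gv q1 q2)) +
        (mu Q n1 n2 - (M : ℝ) / (q1 * q2))| := mul_le_mul_of_nonneg_right hb (abs_nonneg _)
  have h3 : (200 : ℝ) / (B * N) ≤ 400 / (B * N) := by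
    apply div_le_div_of_nonneg_right (by norm_num)
    positivity
  linarith

end Pool.Agent.TIA
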