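import Pool.Agent.TIA.Defs
import Pool.Agent.TII.A0

/-!
# [TII-F0] elementary facts on `rr`
-/

set_option autoImplicit false

namespace Pool.Agent.TIA

open Finset Pool.Agent.TII

variable {ra : ℤ}

variable {N H Z V : ℕ} {T : ℝ} {n1 n2 : ℕ} {W : Finset ℤ}

/-- [F0a] consequences of the standing assumptions: `hN` gives `10 ^ 100 ≤ N` and `H ^ 100 ≤ N` etc. -/
theorem Par.facts (par : Par N H Z V T) : 10 ^ 100 ≤ N ∧ 1000 * H ≤ N ∧ (T : ℝ) ≤ N := by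
  have hT := par.loss.two
  have hH : (1 : ℝ) ≤ H := by exact_mod_cast par.hH
  have hZ : (2 : ℝ) ≤ Z := by exact_mod_cast par.hZ
  have hTH : (2 : ℝ) ≤ T * H := by nlinarith
  have hX : (10000 : ℝ) * T * H * Z = 10000 * (T * H) * Z := by ring
  have h10 : (10 : ℝ) ≤ 10000 * T * H * Z := by
    rw [hX]; nlinarith
  have h1 : (1 : ℝ) ≤ 10000 * T * H * Z := by linarith
  have hself : 10000 * T * H * Z ≤ (10000 * T * H * Z) ^ 100 := le_self_pow₀ h1 (by norm_num)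
  have hN := par.hN
  have hXN : 10000 * T * H * Z ≤ (N : ℝ) := hself.trans hN
  have hTZ : (1 : ℝ) ≤ T * Z := by nlinarith
  have hHZ : (1 : ℝ) ≤ H * Z := by nlinarith
  refine ⟨?_, ?_, ?_⟩
  · have h2 : (10 : ℝ) ^ 100 ≤ N := (pow_le_pow_left₀ (by norm_num) h10 100).trans hN
    exact_mod_cast h2
  · have h2 : (1000 : ℝ) * H ≤ N := by
      refine le_trans ?_ hXN
      have e1 : (10000 : ℝ) * T * H * Z = 10000 * H * (T * Z) := by ring
      rw [e1]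
      nlinarith
    exact_mod_cast h2
  · refine le_trans ?_ hXN
    have e1 : (10000 : ℝ) * T * H * Z = 10000 * T * (H * Z) := by ring
    rw [e1]
    nlinarith

/-- [F0b] `h = n1 - n2` is nonzero, `|h| ≤ H`, not divisible by `n1`, `n2` (`|h| ≤ H < N < n1`) -/
theorem Pair.facts (par : Par N H Z V T) (hp : Pair ra N H n1 n2) :
    ra * ((n1 : ℤ) - n2) ≠ 0 ∧ |ra * ((n1 : ℤ) - n2)| ≤ H ∧ ¬ (n1 : ℤ) ∣ ra * ((n1 : ℤ) - n2) ∧ ¬ (n2 : ℤ) ∣ ra * ((n1 : ℤ) - n2) ∧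
      Nat.Coprime n1 n2 ∧ N ^ 2 < n1 * n2 ∧ n1 * n2 ≤ 4 * N ^ 2 := by
  have hf := par.facts
  have h1 : ra * ((n1 : ℤ) - n2) ≠ 0 := by
    intro h0
    apply hp.ne
    have h0' := (mul_eq_zero.1 h0).resolve_left hp.ra0
    have : (n1 : ℤ) = n2 := by linarith
    exact_mod_cast this
  have h2 : |ra * ((n1 : ℤ) - n2)| ≤ H := hp.dist
  have hl1 := hp.l1
  have hl2 := hp.l2
  have hu1 := hp.u1
  have hu2 := hp.u2
  have hf2 := hf.2.1
  have hpos : 0 < |ra * ((n1 : ℤ) - n2)| := abs_pos.mpr h1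
  refine ⟨h1, h2, ?_, ?_, ?_, ?_, ?_⟩
  · intro hd
    have h3 := Int.le_of_dvd hpos ((dvd_abs _ _).mpr hd)
    omega
  · intro hd
    have h3 := Int.le_of_dvd hpos ((dvd_abs _ _).mpr hd)
    omega
  · exact (Nat.coprime_primes hp.p1 hp.p2).mpr hp.ne
  · rw [sq]
    exact Nat.mul_lt_mul'' hl1 hl2
  · calc n1 * n2 ≤ (2 * N) * (2 * N) := Nat.mul_le_mul hu1 hu2
      _ = 4 * N ^ 2 := by ring

/-- [F0c] `W` lies in an interval of length `N / 2` -/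
theorem card_W (hN : 2 ≤ N) (hW : Win N W) : W.card ≤ N := by
  rcases W.eq_empty_or_nonempty with h0 | hne
  · rw [h0]
    simp
  · set m := W.min' hne with hm
    have hmW : m ∈ W := W.min'_mem hne
    have hsub : W ⊆ Finset.Icc m (m + (N / 2 : ℕ)) := by
      intro t ht
      rw [Finset.mem_Icc]
      have h1 : m ≤ t := W.min'_le t ht
      have h2 := hW.diam t ht m hmW
      rw [abs_of_nonneg (sub_nonneg.mpr h1)] at h2
      refine ⟨h1, ?_⟩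
      push_cast
      omega
    have h3 := Finset.card_le_card hsub
    rw [Int.card_Icc] at h3
    have h4 : (m + ((N / 2 : ℕ) : ℤ) + 1 - m).toNat ≤ N := by
      push_cast
      omega
    exact h3.trans h4

/-- [F0d] Proof. Let `D = n1 n2 ∣ E(t, t')`, `E(t, t') = b t t' - a h t' + d h t - c h²`. The number `b t - a h` is prime to `n1`: otherwise `n1 ∣ h (d t - c h)`, so `n1 ∣ d t - c h` (`n1` prime,
`n1 ∤ h`) and `n1 ∣ b (d t - c h) - d (b t - a h) = h (a d - b c) = h`, contradiction. So for fixed `t` two solutions satisfy `n1 ∣ t' - t''`, `|t' - t''| ≤ N / 2 < n1`, `t' = t''`: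
`p ↦ p.1` is injective on the set, and `rr ≤ W.card ≤ N`. -/
theorem rr_le (par : Par N H Z V T) (hp : Pair ra N H n1 n2) (hW : Win N W) (δ : SL) : rr ra W n1 n2 δ ≤ N := by
  have hf := par.facts
  obtain ⟨g1, g2, g3, g4, g5, g6, g7⟩ := Pair.facts par hp
  have hN2 : 2 ≤ N := le_trans (by norm_num) hf.1
  refine le_trans ?_ (card_W hN2 hW)
  unfold rr
  have hdet : δ.1 0 0 * δ.1 1 1 - δ.1 0 1 * δ.1 1 0 = 1 := by
    have h := δ.2
    rwa [Matrix.det_fin_two] at h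
  have hpr : Prime (n1 : ℤ) := Nat.prime_iff_prime_int.mp hp.p1
  apply Finset.card_le_card_of_injOn (fun p : ℤ × ℤ => p.1)
  · intro p hpm
    rw [Finset.mem_coe, Finset.mem_filter, Finset.mem_product] at hpm
    exact hpm.1.1
  · intro p hpm q hqm hpq
    rw [Finset.mem_coe, Finset.mem_filter, Finset.mem_product] at hpm hqm
    obtain ⟨⟨hp1, hp2⟩, hpd⟩ := hpm
    obtain ⟨⟨hq1, hq2⟩, hqd⟩ := hqm
    have hpq' : p.1 = q.1 := hpq
    have hd1 : (n1 : ℤ) ∣ δ.1 0 1 * p.1 * p.2 - δ.1 0 0 * (ra * ((n1 : ℤ) - n2)) * p.2 +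
        δ.1 1 1 * (ra * ((n1 : ℤ) - n2)) * p.1 - δ.1 1 0 * (ra * ((n1 : ℤ) - n2)) ^ 2 :=
      dvd_trans (dvd_mul_right _ _) hpd
    have hd2 : (n1 : ℤ) ∣ δ.1 0 1 * q.1 * q.2 - δ.1 0 0 * (ra * ((n1 : ℤ) - n2)) * q.2 +
        δ.1 1 1 * (ra * ((n1 : ℤ) - n2)) * q.1 - δ.1 1 0 * (ra * ((n1 : ℤ) - n2)) ^ 2 :=
      dvd_trans (dvd_mul_right _ _) hqd
    have hd3 : (n1 : ℤ) ∣ (δ.1 0 1 * p.1 - δ.1 0 0 * (ra * ((n1 : ℤ) - n2))) * (p.2 - q.2) := by
      have h := dvd_sub hd1 hd2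
      rw [← hpq'] at h
      have e : δ.1 0 1 * p.1 * p.2 - δ.1 0 0 * (ra * ((n1 : ℤ) - n2)) * p.2 +
          δ.1 1 1 * (ra * ((n1 : ℤ) - n2)) * p.1 - δ.1 1 0 * (ra * ((n1 : ℤ) - n2)) ^ 2 -
          (δ.1 0 1 * p.1 * q.2 - δ.1 0 0 * (ra * ((n1 : ℤ) - n2)) * q.2 +
          δ.1 1 1 * (ra * ((n1 : ℤ) - n2)) * p.1 - δ.1 1 0 * (ra * ((n1 : ℤ) - n2)) ^ 2) =
          (δ.1 0 1 * p.1 - δ.1 0 0 * (ra * ((n1 : ℤ) - n2))) * (p.2 - q.2) := by ring
      rwa [e] at h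
    rcases hpr.dvd_or_dvd hd3 with h | h
    · exfalso
      have h5 : (n1 : ℤ) ∣ (ra * ((n1 : ℤ) - n2)) * (δ.1 1 1 * p.1 - δ.1 1 0 * (ra * ((n1 : ℤ) - n2))) := by
        have h6 := dvd_sub hd1 (h.mul_right p.2)
        have e : δ.1 0 1 * p.1 * p.2 - δ.1 0 0 * (ra * ((n1 : ℤ) - n2)) * p.2 +
          δ.1 1 1 * (ra * ((n1 : ℤ) - n2)) * p.1 - δ.1 1 0 * (ra * ((n1 : ℤ) - n2)) ^ 2 -
          (δ.1 0 1 * p.1 - δ.1 0 0 * (ra * ((n1 : ℤ) - n2))) * p.2 =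
          (ra * ((n1 : ℤ) - n2)) * (δ.1 1 1 * p.1 - δ.1 1 0 * (ra * ((n1 : ℤ) - n2))) := by ring
        rwa [e] at h6
      rcases hpr.dvd_or_dvd h5 with h6 | h6
      · exact g3 h6
      · apply g3
        have h7 := dvd_sub (h6.mul_left (-(δ.1 0 1))) (h.mul_left (-(δ.1 1 1)))
        have e : -(δ.1 0 1) * (δ.1 1 1 * p.1 - δ.1 1 0 * (ra * ((n1 : ℤ) - n2))) -
            -(δ.1 1 1) * (δ.1 0 1 * p.1 - δ.1 0 0 * (ra * ((n1 : ℤ) - n2))) = -(ra * ((n1 : ℤ) - n2)) := by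
          linear_combination (-(ra * ((n1 : ℤ) - n2))) * hdet
        rw [e] at h7
        exact (dvd_neg).mp h7
    · have h8 := hW.diam p.2 hp2 q.2 hq2
      have hl1 := hp.l1
      apply Prod.ext hpq'
      by_contra hne
      have hpos : 0 < |p.2 - q.2| := abs_pos.mpr (sub_ne_zero.mpr hne)
      have h9 := Int.le_of_dvd hpos ((dvd_abs _ _).mpr h)
      omega

/-- [F0e] (6.2): the identity `(b t - a h) (b t' + d h) + h² = b E(t, t')` for `a d - b c = 1` (`linear_combination` with the determinant) -/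
theorem tau_identity (δ : SL) (h t t' : ℤ) :
    (δ.1 0 1 * t - δ.1 0 0 * h) * (δ.1 0 1 * t' + δ.1 1 1 * h) + h ^ 2 =
      δ.1 0 1 * (δ.1 0 1 * t * t' - δ.1 0 0 * h * t' + δ.1 1 1 * h * t - δ.1 1 0 * h ^ 2) := by
  have hdet : δ.1 0 0 * δ.1 1 1 - δ.1 0 1 * δ.1 1 0 = 1 := by
    have h := δ.2
    rwa [Matrix.det_fin_two] at h
  linear_combination (-h ^ 2) * hdet

/-- [F0f] `b = 0`: `a = d = ±1`, `c ∈ [-y, y]` -/
theorem card_b_zero (y : ℕ) (hy : 1 ≤ y) : ((ball y).filter fun δ : SL => δ.1 0 1 = 0).card ≤ 6 * y := by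
  have h1 : ((ball y).filter fun δ : SL => δ.1 0 1 = 0).card ≤
      (({1, -1} : Finset ℤ) ×ˢ Finset.Icc (-(y : ℤ)) y).card := by
    apply Finset.card_le_card_of_injOn (fun δ : SL => (δ.1 0 0, δ.1 1 0))
    · intro δ hδ
      rw [Finset.mem_coe, Finset.mem_filter, mem_ball] at hδ
      have hdet : δ.1 0 0 * δ.1 1 1 - δ.1 0 1 * δ.1 1 0 = 1 := by
        have h := δ.2
        rwa [Matrix.det_fin_two] at h
      rw [hδ.2, zero_mul, sub_zero] at hdet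
      have h2 := Int.isUnit_iff.mp (IsUnit.of_mul_eq_one _ hdet)
      have h3' : (nm δ : ℤ) ≤ (y : ℤ) := by exact_mod_cast hδ.1
      have h3 := abs_le.mp ((entry_le δ 1 0).trans h3')
      rw [Finset.mem_coe, Finset.mem_product, Finset.mem_Icc]
      refine ⟨?_, h3⟩
      rw [Finset.mem_insert, Finset.mem_singleton]
      exact h2
    · intro δ hδ δ' hδ' heq
      rw [Finset.mem_coe, Finset.mem_filter, mem_ball] at hδ hδ'
      have hdet : δ.1 0 0 * δ.1 1 1 - δ.1 0 1 * δ.1 1 0 = 1 := by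
        have h := δ.2
        rwa [Matrix.det_fin_two] at h
      have hdet' : δ'.1 0 0 * δ'.1 1 1 - δ'.1 0 1 * δ'.1 1 0 = 1 := by
        have h := δ'.2
        rwa [Matrix.det_fin_two] at h
      rw [hδ.2, zero_mul, sub_zero] at hdet
      rw [hδ'.2, zero_mul, sub_zero] at hdet'
      have e1 : δ.1 0 0 = δ'.1 0 0 := (Prod.ext_iff.mp heq).1
      have e2 : δ.1 1 0 = δ'.1 1 0 := (Prod.ext_iff.mp heq).2
      have e3 : δ.1 0 1 = δ'.1 0 1 := by rw [hδ.2, hδ'.2]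
      have h0 : δ.1 0 0 ≠ 0 := by
        intro h0
        rw [h0, zero_mul] at hdet
        exact zero_ne_one hdet
      have e4 : δ.1 1 1 = δ'.1 1 1 := by
        apply mul_left_cancel₀ h0
        rw [hdet, e1, hdet']
      apply Subtype.ext
      ext i j
      fin_cases i <;> fin_cases j
      · exact e1
      · exact e3
      · exact e2
      · exact e4
  rw [Finset.card_product, Int.card_Icc] at h1
  have h2 : ({1, -1} : Finset ℤ).card = 2 := by decide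
  have h3 : ((y : ℤ) + 1 - -(y : ℤ)).toNat = 2 * y + 1 := by omega
  rw [h2, h3] at h1
  omega

/-- [F0g] `|a| |d| ≤ 1 + |b| |c| ≤ 2 |b| y` -/
theorem ad_le (δ : SL) (y : ℕ) (hy : nm δ ≤ y) (hb : δ.1 0 1 ≠ 0) :
    (δ.1 0 0 * δ.1 1 1).natAbs ≤ 2 * (δ.1 0 1).natAbs * y := by
  have hdet : δ.1 0 0 * δ.1 1 1 - δ.1 0 1 * δ.1 1 0 = 1 := by
    have h := δ.2
    rwa [Matrix.det_fin_two] at h
  have e1 : δ.1 0 0 * δ.1 1 1 = 1 + δ.1 0 1 * δ.1 1 0 := by linarith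
  have h1 : 1 ≤ y := (one_le_nm δ).trans hy
  have h2 : |δ.1 1 0| ≤ (y : ℤ) := (entry_le δ 1 0).trans (by exact_mod_cast hy)
  have h2' : (δ.1 1 0).natAbs ≤ y := by
    have := Int.abs_eq_natAbs (δ.1 1 0)
    omega
  have h3 : 1 ≤ (δ.1 0 1).natAbs := Int.natAbs_pos.mpr hb
  rw [e1]
  have h4 : (1 + δ.1 0 1 * δ.1 1 0).natAbs ≤ 1 + (δ.1 0 1).natAbs * (δ.1 1 0).natAbs := by
    refine (Int.natAbs_add_le _ _).trans ?_
    rw [Int.natAbs_mul]
    exact le_refl _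
  refine h4.trans ?_
  have h5 : (δ.1 0 1).natAbs * (δ.1 1 0).natAbs ≤ (δ.1 0 1).natAbs * y := Nat.mul_le_mul_left _ h2'
  have h6 : 1 ≤ (δ.1 0 1).natAbs * y := Nat.mul_le_mul h3 h1
  have h7 : 2 * (δ.1 0 1).natAbs * y = (δ.1 0 1).natAbs * y + (δ.1 0 1).natAbs * y := by ring
  omega

end Pool.Agent.TIA
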