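import Pool.Agent.TIA.F2
import Pool.Agent.TII.F3

/-!
# [TII-F4] the first moment of `rr`, and the second moment outside the main range
-/

set_option autoImplicit false

namespace Pool.Agent.TIA

open Finset Pool.Agent.TII

variable {ra : ℤ}

variable {N H Z V : ℕ} {T : ℝ} {n1 n2 : ℕ} {W : Finset ℤ}

private theorem F4_sum_union {s t : Finset SL} (f : SL → ℝ) (hf : ∀ δ, 0 ≤ f δ) :
    ∑ δ ∈ s ∪ t, f δ ≤ ∑ δ ∈ s, f δ + ∑ δ ∈ t, f δ := by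
  classical
  rw [← sum_union_inter]
  exact le_add_of_nonneg_right (sum_nonneg fun δ _ => hf δ)

private theorem F4_facts (par : Par N H Z V T) (hp : Pair ra N H n1 n2) :
    1 ≤ (ra * ((n1 : ℤ) - n2)).natAbs ∧ (ra * ((n1 : ℤ) - n2)).natAbs ≤ H ∧ (ra * ((n1 : ℤ) - n2)).natAbs ≤ V ∧
      1 ≤ N ∧ H ≤ N ∧ 2 ≤ T ∧ 1 ≤ H ∧ (∀ y : ℕ, y ≤ N ^ 10 → y ≤ V) ∧
      ¬ n1 ∣ (ra * ((n1 : ℤ) - n2)).natAbs ∧ ¬ n2 ∣ (ra * ((n1 : ℤ) - n2)).natAbs := by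
  obtain ⟨a1, a2, a3⟩ := par.facts
  obtain ⟨b1, b2, b3, b4, -⟩ := hp.facts par
  have hN : 1 ≤ N := le_trans Nat.one_le_two_pow (le_trans (by norm_num : 2 ^ 1 ≤ 10 ^ 100) a1)
  have hH : H ≤ N := by omega
  have hV : N ≤ V := le_trans (Nat.le_self_pow (by norm_num) N) par.hV
  have h1 : 1 ≤ (ra * ((n1 : ℤ) - n2)).natAbs := Int.natAbs_pos.mpr b1
  have h2 : (ra * ((n1 : ℤ) - n2)).natAbs ≤ H := by
    rw [Int.abs_eq_natAbs] at b2; exact_mod_cast b2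
  refine ⟨h1, h2, le_trans h2 (le_trans hH hV), hN, hH, par.loss.two, par.hH, ?_, ?_, ?_⟩
  · intro y hy
    exact le_trans hy (le_trans (Nat.pow_le_pow_right hN (by norm_num)) par.hV)
  · intro h; exact b3 (Int.natCast_dvd.mpr h)
  · intro h; exact b4 (Int.natCast_dvd.mpr h)

private theorem F4_split (T K : ℝ) (G : ℕ → ℝ) (y : ℕ) (s : Finset ℕ) (hs : ∀ b ∈ s, 1 ≤ b) :
    ∑ b ∈ s, 40 * T ^ 2 * (162 * (b : ℝ) + K) * G b ^ 2 * y / b =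
      40 * T ^ 2 * y * (162 * ∑ b ∈ s, G b ^ 2 + K * ∑ b ∈ s, G b ^ 2 / b) := by
  rw [mul_sum, mul_sum, ← sum_add_distrib, mul_sum]
  apply sum_congr rfl
  intro b hb
  have h1 : (b : ℝ) ≠ 0 := by
    have := hs b hb
    exact_mod_cast (by omega : b ≠ 0)
  field_simp

/-- the sum over the nonzero `b` with `P |b|`, in terms of sums of `gcd²` -/
private theorem F4_P (N H n1 n2 : ℕ) (T : ℝ) (W : Finset ℤ) (y : ℕ)
    (P : ℕ → Prop) [DecidablePred P] (hr : ∑ δ ∈ (ball y).filter (fun δ : SL => δ.1 0 1 ≠ 0 ∧ P (δ.1 0 1).natAbs), (rr ra W n1 n2 δ : ℝ) ≤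
      2 * ∑ b ∈ (Icc 1 y).filter P,
        40 * T ^ 2 * (162 * (b : ℝ) + 40 * H * y / N + 3) * (Nat.gcd b (ra * ((n1 : ℤ) - n2)).natAbs : ℝ) ^ 2 * y / b) :
    ∑ δ ∈ (ball y).filter (fun δ : SL => δ.1 0 1 ≠ 0 ∧ P (δ.1 0 1).natAbs), (rr ra W n1 n2 δ : ℝ) ≤
      80 * T ^ 2 * y * (162 * ∑ b ∈ (Icc 1 y).filter P, (Nat.gcd b (ra * ((n1 : ℤ) - n2)).natAbs : ℝ) ^ 2 +
        (40 * H * y / N + 3) * ∑ b ∈ (Icc 1 y).filter P,
          (Nat.gcd b (ra * ((n1 : ℤ) - n2)).natAbs : ℝ) ^ 2 / b) := by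
  refine le_trans hr (le_of_eq ?_)
  have h1 := F4_split T (40 * H * y / N + 3) (fun b => (Nat.gcd b (ra * ((n1 : ℤ) - n2)).natAbs : ℝ)) y
    ((Icc 1 y).filter P) (fun b hb => (mem_Icc.mp (mem_filter.mp hb).1).1)
  simp only [add_assoc]
  rw [h1]; ring

/-- [F4a] Splitting a sum over the ball according to `b = g.1 0 1` in a set `B` of nonzero integers with `|b| ≤ y`, both signs together: for `w b = w' |b|` it is `≤ 2 ∑` over positive `b`. Proof.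
`Finset.sum_fiberwise`-type decomposition, `rr_sum_b`, then `b ↦ |b|` is at most two to one. `P` is any predicate on `|b|`. -/
theorem rr_sum_P (par : Par N H Z V T) (hp : Pair ra N H n1 n2) (hW : Win N W) (y : ℕ) (hy : y ≤ N ^ 10)
    (P : ℕ → Prop) [DecidablePred P] :
    ∑ δ ∈ (ball y).filter (fun δ : SL => δ.1 0 1 ≠ 0 ∧ P (δ.1 0 1).natAbs), (rr ra W n1 n2 δ : ℝ) ≤
      2 * ∑ b ∈ (Icc 1 y).filter P,
        40 * T ^ 2 * (162 * (b : ℝ) + 40 * H * y / N + 3) * (Nat.gcd b (ra * ((n1 : ℤ) - n2)).natAbs : ℝ) ^ 2 * y / b := by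
  classical
  have hmap : ∀ δ ∈ (ball y).filter (fun δ : SL => δ.1 0 1 ≠ 0 ∧ P (δ.1 0 1).natAbs),
      (δ.1 0 1).natAbs ∈ (Icc 1 y).filter P := by
    intro δ hδ
    rw [mem_filter, mem_ball] at hδ
    obtain ⟨h1, h2, h3⟩ := hδ
    rw [mem_filter, mem_Icc]
    refine ⟨⟨Int.natAbs_pos.mpr h2, ?_⟩, h3⟩
    exact le_trans (le_trans (le_max_right _ _) (le_max_left _ _)) h1
  rw [← sum_fiberwise_of_maps_to hmap, mul_sum]
  apply sum_le_sum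
  intro b hb
  rw [mem_filter, mem_Icc] at hb
  obtain ⟨⟨hb1, hb2⟩, -⟩ := hb
  have hsub : ((ball y).filter (fun δ : SL => δ.1 0 1 ≠ 0 ∧ P (δ.1 0 1).natAbs)).filter
      (fun δ => (δ.1 0 1).natAbs = b) ⊆
      (ball y).filter (fun δ : SL => δ.1 0 1 = (b : ℤ)) ∪
        (ball y).filter (fun δ : SL => δ.1 0 1 = -(b : ℤ)) := by
    intro δ hδ
    rw [mem_filter, mem_filter] at hδ
    rw [mem_union, mem_filter, mem_filter]
    obtain ⟨⟨h1, -⟩, h2⟩ := hδ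
    rcases Int.natAbs_eq (δ.1 0 1) with h | h
    · left; exact ⟨h1, by rw [h, h2]⟩
    · right; exact ⟨h1, by rw [h, h2]⟩
  refine le_trans (sum_le_sum_of_subset_of_nonneg hsub fun _ _ _ => Nat.cast_nonneg _) ?_
  refine le_trans (F4_sum_union (fun δ => (rr ra W n1 n2 δ : ℝ)) fun _ => Nat.cast_nonneg _) ?_
  have e1 := rr_sum_b par hp hW y hy (b : ℤ) (by omega) (by omega)
  have e2 := rr_sum_b par hp hW y hy (-(b : ℤ)) (by omega) (by omega)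
  have a1 : |(((b : ℤ)) : ℝ)| = (b : ℝ) := by
    rw [Int.cast_natCast]; exact abs_of_nonneg (Nat.cast_nonneg b)
  have a2 : |((-(b : ℤ) : ℤ) : ℝ)| = (b : ℝ) := by
    rw [Int.cast_neg, abs_neg]; exact a1
  have g1 : Int.gcd (b : ℤ) (ra * ((n1 : ℤ) - n2)) = Nat.gcd b (ra * ((n1 : ℤ) - n2)).natAbs := rfl
  have g2 : Int.gcd (-(b : ℤ)) (ra * ((n1 : ℤ) - n2)) = Nat.gcd b (ra * ((n1 : ℤ) - n2)).natAbs := by
    rw [Int.neg_gcd, g1]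
  rw [a1, g1] at e1
  rw [a2, g2] at e2
  linarith

/-- [F4b] THEOREM FD1. Proof. `b = 0`: `rr_le`, `card_b_zero`: `6 N y`. `b ≠ 0`: `rr_sum_P` with `P = True`, `gcd_sq_sum`, `gcd_sq_div_sum`, `|h| ≤ H`:
`80 T² y (162 T H y + (40 H y / N + 3) T² H) ≤ 9920 T⁴ H y²` (`2 ≤ T`, `H ≤ N`). -/
theorem fd1 (par : Par N H Z V T) (hp : Pair ra N H n1 n2) (hW : Win N W) (y : ℕ) (hy1 : 1 ≤ y) (hy : y ≤ N ^ 10) :
    ∑ δ ∈ ball y, (rr ra W n1 n2 δ : ℝ) ≤ 10000 * T ^ 4 * H * y ^ 2 + 6 * N * y := by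
  obtain ⟨h1, hH, hV, hN, hHN, hT, hH1, hyV, -, -⟩ := F4_facts par hp
  have hNr : (1 : ℝ) ≤ N := by exact_mod_cast hN
  have hHr : (1 : ℝ) ≤ H := by exact_mod_cast hH1
  have hHNr : (H : ℝ) ≤ N := by exact_mod_cast hHN
  have hyr : (1 : ℝ) ≤ y := by exact_mod_cast hy1
  have hhr : (((ra * ((n1 : ℤ) - n2)).natAbs : ℕ) : ℝ) ≤ H := by exact_mod_cast hH
  rw [← sum_filter_add_sum_filter_not (ball y) (fun δ : SL => δ.1 0 1 = 0)]
  have hz : ∑ δ ∈ (ball y).filter (fun δ : SL => δ.1 0 1 = 0), (rr ra W n1 n2 δ : ℝ) ≤ 6 * N * y := by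
    have e1 := sum_le_card_nsmul ((ball y).filter (fun δ : SL => δ.1 0 1 = 0))
      (fun δ => (rr ra W n1 n2 δ : ℝ)) (N : ℝ) (fun δ _ => by exact_mod_cast rr_le par hp hW δ)
    have e2 : ((((ball y).filter (fun δ : SL => δ.1 0 1 = 0)).card : ℕ) : ℝ) ≤ 6 * y := by
      exact_mod_cast card_b_zero y hy1
    rw [nsmul_eq_mul] at e1
    nlinarith
  have hnz := F4_P N H n1 n2 T W y (fun _ => True) (rr_sum_P par hp hW y hy (fun _ => True))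
  simp only [and_true, filter_true] at hnz
  have s1 := gcd_sq_sum par.loss (ra * ((n1 : ℤ) - n2)).natAbs h1 hV y
  have s2 := gcd_sq_div_sum par.loss (ra * ((n1 : ℤ) - n2)).natAbs h1 hV y (hyV y hy)
  have hK : 40 * (H : ℝ) * y / N + 3 ≤ 40 * y + 3 := by
    have : 40 * (H : ℝ) * y / N ≤ 40 * y := by
      rw [div_le_iff₀ (by linarith)]; nlinarith
    linarith
  have hK0 : 0 ≤ 40 * (H : ℝ) * y / N + 3 := by positivity
  have hmain : ∑ δ ∈ (ball y).filter (fun δ : SL => δ.1 0 1 ≠ 0), (rr ra W n1 n2 δ : ℝ) ≤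
      10000 * T ^ 4 * H * y ^ 2 := by
    refine le_trans hnz ?_
    have t1 : ∑ b ∈ Icc 1 y, (Nat.gcd b (ra * ((n1 : ℤ) - n2)).natAbs : ℝ) ^ 2 ≤ T * H * y := by
      refine le_trans s1 ?_
      have : T * (((ra * ((n1 : ℤ) - n2)).natAbs : ℕ) : ℝ) ≤ T * H := by nlinarith
      exact mul_le_mul_of_nonneg_right this (by linarith)
    have t2 : ∑ b ∈ Icc 1 y, (Nat.gcd b (ra * ((n1 : ℤ) - n2)).natAbs : ℝ) ^ 2 / b ≤ T ^ 2 * H := by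
      refine le_trans s2 ?_
      exact mul_le_mul_of_nonneg_left hhr (by positivity)
    have t20 : 0 ≤ ∑ b ∈ Icc 1 y, (Nat.gcd b (ra * ((n1 : ℤ) - n2)).natAbs : ℝ) ^ 2 / b :=
      sum_nonneg fun b _ => by positivity
    have t3 : (40 * (H : ℝ) * y / N + 3) *
        ∑ b ∈ Icc 1 y, (Nat.gcd b (ra * ((n1 : ℤ) - n2)).natAbs : ℝ) ^ 2 / b ≤ (40 * y + 3) * (T ^ 2 * H) :=
      mul_le_mul hK t2 t20 (by positivity)
    have t4 : 162 * ∑ b ∈ Icc 1 y, (Nat.gcd b (ra * ((n1 : ℤ) - n2)).natAbs : ℝ) ^ 2 +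
        (40 * (H : ℝ) * y / N + 3) *
          ∑ b ∈ Icc 1 y, (Nat.gcd b (ra * ((n1 : ℤ) - n2)).natAbs : ℝ) ^ 2 / b ≤
        124 * T ^ 2 * H * y := by
      have u1 : T * (H * y) * 2 ≤ T * (H * y) * T :=
        mul_le_mul_of_nonneg_left hT (by positivity)
      have u2 : T ^ 2 * H * 1 ≤ T ^ 2 * H * y := mul_le_mul_of_nonneg_left hyr (by positivity)
      nlinarith
    refine le_trans (mul_le_mul_of_nonneg_left t4 (by positivity)) ?_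
    have u3 : 0 ≤ T ^ 4 * H * y ^ 2 := by positivity
    nlinarith
  linarith

/-- [F4c] FD2, small `b` (and `b = 0`). Proof. `rr² ≤ N rr` (`rr_le`). `b = 0`: `N² · 6 y`. `b ≠ 0`: `N` times `rr_sum_P` with `P b = (b < N ∨ b N < y)`:
`80 T² y N (162 ∑ g² + (40 H y / N + 3) ∑ g² / b)`, `∑_{b < N} g² ≤ T H N`, `∑_{b ≤ y / N} g² ≤ T H y / N`, `∑_{b ≤ y} g² / b ≤ T² H`:
`≤ 12960 T³ H (y N² + y²) + 3200 T⁴ H² y² + 240 T⁴ H y N`. -/
theorem fd2_small (par : Par N H Z V T) (hp : Pair ra N H n1 n2) (hW : Win N W) (y : ℕ) (hy1 : 1 ≤ y) (hy : y ≤ N ^ 10) :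
    ∑ δ ∈ (ball y).filter (fun δ : SL => (δ.1 0 1).natAbs < N ∨ (δ.1 0 1).natAbs * N < y), (rr ra W n1 n2 δ : ℝ) ^ 2 ≤
      10000 * T ^ 4 * H ^ 2 * (y * N ^ 2 + y ^ 2) := by
  classical
  obtain ⟨h1, hH, hV, hN, hHN, hT, hH1, hyV, -, -⟩ := F4_facts par hp
  have hNr : (1 : ℝ) ≤ N := by exact_mod_cast hN
  have hHr : (1 : ℝ) ≤ H := by exact_mod_cast hH1
  have hHNr : (H : ℝ) ≤ N := by exact_mod_cast hHN
  have hyr : (1 : ℝ) ≤ y := by exact_mod_cast hy1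
  have hhr : (((ra * ((n1 : ℤ) - n2)).natAbs : ℕ) : ℝ) ≤ H := by exact_mod_cast hH
  have hT0 : (0 : ℝ) ≤ T := by linarith
  rw [← sum_filter_add_sum_filter_not _ (fun δ : SL => δ.1 0 1 = 0)]
  have hz : ∑ δ ∈ ((ball y).filter (fun δ : SL => (δ.1 0 1).natAbs < N ∨ (δ.1 0 1).natAbs * N < y)).filter
      (fun δ : SL => δ.1 0 1 = 0), (rr ra W n1 n2 δ : ℝ) ^ 2 ≤ 6 * y * N ^ 2 := by
    have hsub : ((ball y).filter (fun δ : SL => (δ.1 0 1).natAbs < N ∨ (δ.1 0 1).natAbs * N < y)).filter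
        (fun δ : SL => δ.1 0 1 = 0) ⊆ (ball y).filter (fun δ : SL => δ.1 0 1 = 0) := by
      intro δ hδ
      rw [mem_filter, mem_filter] at hδ
      rw [mem_filter]; exact ⟨hδ.1.1, hδ.2⟩
    refine le_trans (sum_le_sum_of_subset_of_nonneg hsub fun _ _ _ => sq_nonneg _) ?_
    have e1 := sum_le_card_nsmul ((ball y).filter (fun δ : SL => δ.1 0 1 = 0))
      (fun δ => (rr ra W n1 n2 δ : ℝ) ^ 2) ((N : ℝ) ^ 2) (fun δ _ => by
        have : (rr ra W n1 n2 δ : ℝ) ≤ N := by exact_mod_cast rr_le par hp hW δ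
        exact pow_le_pow_left₀ (Nat.cast_nonneg _) this 2)
    have e2 : ((((ball y).filter (fun δ : SL => δ.1 0 1 = 0)).card : ℕ) : ℝ) ≤ 6 * y := by
      exact_mod_cast card_b_zero y hy1
    rw [nsmul_eq_mul] at e1
    exact le_trans e1 (mul_le_mul_of_nonneg_right e2 (by positivity))
  have hnz : ∑ δ ∈ ((ball y).filter (fun δ : SL => (δ.1 0 1).natAbs < N ∨ (δ.1 0 1).natAbs * N < y)).filter
      (fun δ : SL => ¬ δ.1 0 1 = 0), (rr ra W n1 n2 δ : ℝ) ^ 2 ≤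
      N * ∑ δ ∈ (ball y).filter (fun δ : SL => δ.1 0 1 ≠ 0 ∧
        ((δ.1 0 1).natAbs < N ∨ (δ.1 0 1).natAbs * N < y)), (rr ra W n1 n2 δ : ℝ) := by
    rw [mul_sum]
    have hsub : ((ball y).filter (fun δ : SL => (δ.1 0 1).natAbs < N ∨ (δ.1 0 1).natAbs * N < y)).filter
        (fun δ : SL => ¬ δ.1 0 1 = 0) ⊆ (ball y).filter (fun δ : SL => δ.1 0 1 ≠ 0 ∧
        ((δ.1 0 1).natAbs < N ∨ (δ.1 0 1).natAbs * N < y)) := by
      intro δ hδ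
      rw [mem_filter, mem_filter] at hδ
      rw [mem_filter]; exact ⟨hδ.1.1, hδ.2, hδ.1.2⟩
    refine le_trans (sum_le_sum fun δ _ => ?_) (sum_le_sum_of_subset_of_nonneg hsub
      fun _ _ _ => by positivity)
    have : (rr ra W n1 n2 δ : ℝ) ≤ N := by exact_mod_cast rr_le par hp hW δ
    rw [sq]
    exact mul_le_mul_of_nonneg_right this (Nat.cast_nonneg _)
  have hP := F4_P N H n1 n2 T W y (fun b => b < N ∨ b * N < y)
    (rr_sum_P par hp hW y hy (fun b => b < N ∨ b * N < y))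
  have s1 : ∑ b ∈ (Icc 1 y).filter (fun b => b < N ∨ b * N < y),
      (Nat.gcd b (ra * ((n1 : ℤ) - n2)).natAbs : ℝ) ^ 2 ≤ T * H * N + T * H * (y / N) := by
    have hsub : (Icc 1 y).filter (fun b => b < N ∨ b * N < y) ⊆ Icc 1 N ∪ Icc 1 (y / N) := by
      intro b hb
      rw [mem_filter, mem_Icc] at hb
      rw [mem_union, mem_Icc, mem_Icc]
      obtain ⟨⟨c1, c2⟩, c3 | c3⟩ := hb
      · left; exact ⟨c1, c3.le⟩
      · right; exact ⟨c1, (Nat.le_div_iff_mul_le hN).mpr c3.le⟩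
    refine le_trans (sum_le_sum_of_subset_of_nonneg hsub fun _ _ _ => by positivity) ?_
    have hu : ∑ b ∈ Icc 1 N ∪ Icc 1 (y / N), (Nat.gcd b (ra * ((n1 : ℤ) - n2)).natAbs : ℝ) ^ 2 ≤
        ∑ b ∈ Icc 1 N, (Nat.gcd b (ra * ((n1 : ℤ) - n2)).natAbs : ℝ) ^ 2 +
          ∑ b ∈ Icc 1 (y / N), (Nat.gcd b (ra * ((n1 : ℤ) - n2)).natAbs : ℝ) ^ 2 := by
      rw [← sum_union_inter]
      exact le_add_of_nonneg_right (sum_nonneg fun b _ => by positivity)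
    refine le_trans hu ?_
    have k1 := gcd_sq_sum par.loss (ra * ((n1 : ℤ) - n2)).natAbs h1 hV N
    have k2 := gcd_sq_sum par.loss (ra * ((n1 : ℤ) - n2)).natAbs h1 hV (y / N)
    have k3 : T * (((ra * ((n1 : ℤ) - n2)).natAbs : ℕ) : ℝ) ≤ T * H := mul_le_mul_of_nonneg_left hhr hT0
    have k4 : (((y / N : ℕ)) : ℝ) ≤ (y : ℝ) / N := Nat.cast_div_le
    have k5 : T * (((ra * ((n1 : ℤ) - n2)).natAbs : ℕ) : ℝ) * N ≤ T * H * N :=
      mul_le_mul_of_nonneg_right k3 (by linarith)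
    have k6 : T * (((ra * ((n1 : ℤ) - n2)).natAbs : ℕ) : ℝ) * (((y / N : ℕ)) : ℝ) ≤ T * H * (y / N) :=
      mul_le_mul k3 k4 (Nat.cast_nonneg _) (by positivity)
    linarith
  have s2 : ∑ b ∈ (Icc 1 y).filter (fun b => b < N ∨ b * N < y),
      (Nat.gcd b (ra * ((n1 : ℤ) - n2)).natAbs : ℝ) ^ 2 / b ≤ T ^ 2 * H := by
    refine le_trans (sum_le_sum_of_subset_of_nonneg (filter_subset _ _)
      fun _ _ _ => by positivity) ?_
    refine le_trans (gcd_sq_div_sum par.loss (ra * ((n1 : ℤ) - n2)).natAbs h1 hV y (hyV y hy)) ?_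
    exact mul_le_mul_of_nonneg_left hhr (by positivity)
  have hK0 : 0 ≤ 40 * (H : ℝ) * y / N + 3 := by positivity
  have s3 := mul_le_mul_of_nonneg_left s2 hK0
  have s4 : 162 * ∑ b ∈ (Icc 1 y).filter (fun b => b < N ∨ b * N < y),
      (Nat.gcd b (ra * ((n1 : ℤ) - n2)).natAbs : ℝ) ^ 2 + (40 * (H : ℝ) * y / N + 3) *
        ∑ b ∈ (Icc 1 y).filter (fun b => b < N ∨ b * N < y),
          (Nat.gcd b (ra * ((n1 : ℤ) - n2)).natAbs : ℝ) ^ 2 / b ≤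
      162 * (T * H * N + T * H * (y / N)) + (40 * (H : ℝ) * y / N + 3) * (T ^ 2 * H) := by
    linarith
  have s5 : N * ∑ δ ∈ (ball y).filter (fun δ : SL => δ.1 0 1 ≠ 0 ∧
        ((δ.1 0 1).natAbs < N ∨ (δ.1 0 1).natAbs * N < y)), (rr ra W n1 n2 δ : ℝ) ≤
      N * (80 * T ^ 2 * y * (162 * (T * H * N + T * H * (y / N)) +
        (40 * (H : ℝ) * y / N + 3) * (T ^ 2 * H))) := by
    apply mul_le_mul_of_nonneg_left _ (by linarith)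
    refine le_trans hP ?_
    exact mul_le_mul_of_nonneg_left s4 (by positivity)
  have s6 : N * (80 * T ^ 2 * y * (162 * (T * H * N + T * H * (y / N)) +
        (40 * (H : ℝ) * y / N + 3) * (T ^ 2 * H))) =
      12960 * T ^ 3 * H * (y * N ^ 2 + y ^ 2) + 3200 * T ^ 4 * H ^ 2 * y ^ 2 +
        240 * T ^ 4 * H * y * N := by
    have : (N : ℝ) ≠ 0 := by linarith
    field_simp
    ring
  have q1 : T ^ 3 * (H * (y * N ^ 2 + y ^ 2)) * 2 ≤ T ^ 3 * (H * (y * N ^ 2 + y ^ 2)) * T :=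
    mul_le_mul_of_nonneg_left hT (by positivity)
  have q2 : T ^ 4 * H * (y * N ^ 2 + y ^ 2) * 1 ≤ T ^ 4 * H * (y * N ^ 2 + y ^ 2) * H :=
    mul_le_mul_of_nonneg_left hHr (by positivity)
  have q3 : T ^ 4 * H ^ 2 * y ^ 2 ≤ T ^ 4 * H ^ 2 * (y * N ^ 2 + y ^ 2) :=
    mul_le_mul_of_nonneg_left (by nlinarith) (by positivity)
  have q4 : T ^ 4 * H * y * N ≤ T ^ 4 * H * (y * N ^ 2 + y ^ 2) := by
    have : T ^ 4 * H * y * N * 1 ≤ T ^ 4 * H * y * N * N :=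
      mul_le_mul_of_nonneg_left hNr (by positivity)
    have h0 : 0 ≤ T ^ 4 * H * y ^ 2 := by positivity
    nlinarith
  have q5 : (1 : ℝ) ≤ T ^ 4 := one_le_pow₀ (by linarith)
  have q6 : (1 : ℝ) ≤ H ^ 2 := one_le_pow₀ hHr
  have q7 : (1 : ℝ) ≤ T ^ 4 * H ^ 2 := by nlinarith
  have q8 : y * N ^ 2 ≤ T ^ 4 * H ^ 2 * (y * N ^ 2 + y ^ 2) := by
    have : 1 * (y * (N : ℝ) ^ 2 + y ^ 2) ≤ T ^ 4 * H ^ 2 * (y * N ^ 2 + y ^ 2) :=
      mul_le_mul_of_nonneg_right q7 (by positivity)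
    nlinarith [sq_nonneg (y : ℝ)]
  have r1 : 12960 * T ^ 3 * H * (y * N ^ 2 + y ^ 2) ≤ 6480 * (T ^ 4 * H ^ 2 * (y * N ^ 2 + y ^ 2)) := by
    nlinarith
  have r2 : 240 * T ^ 4 * H * y * N ≤ 240 * (T ^ 4 * H ^ 2 * (y * N ^ 2 + y ^ 2)) := by
    nlinarith
  rw [s6] at s5
  have r3 : 6 * (y : ℝ) * N ^ 2 ≤ 6 * (T ^ 4 * H ^ 2 * (y * N ^ 2 + y ^ 2)) := by linarith
  have r4 : 0 ≤ T ^ 4 * H ^ 2 * (y * (N : ℝ) ^ 2 + y ^ 2) := by positivity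
  linarith

/-- [F4d] FD2, large `b` with a common factor with `D = n1 n2`. Proof. `rr² ≤ N rr`; `rr_sum_P` with `P b = (N ≤ b ∧ y ≤ b N ∧ n₁ ∣ b)` and the same with `n₂`; there `40 H y / N + 3 ≤ (40 H + 3) b`, so the
weight is `≤ 40 T² · 205 H · g² y`, and `∑_{n₁ ∣ b} g² ≤ T H y / N` (`gcd_sq_sum_mul`): `N · 2 · 2 · 40 T² · 205 H · y · T H y / N`. -/
theorem fd2_common (par : Par N H Z V T) (hp : Pair ra N H n1 n2) (hW : Win N W) (y : ℕ) (hy1 : 1 ≤ y) (hy : y ≤ N ^ 10) :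
    ∑ δ ∈ (ball y).filter (fun δ : SL => N ≤ (δ.1 0 1).natAbs ∧ y ≤ (δ.1 0 1).natAbs * N ∧
      ((n1 : ℤ) ∣ δ.1 0 1 ∨ (n2 : ℤ) ∣ δ.1 0 1)), (rr ra W n1 n2 δ : ℝ) ^ 2 ≤
      20000 * T ^ 4 * H ^ 2 * y ^ 2 := by
  classical
  obtain ⟨h1, hH, hV, hN, hHN, hT, hH1, hyV, hd1, hd2⟩ := F4_facts par hp
  have hNr : (1 : ℝ) ≤ N := by exact_mod_cast hN
  have hHr : (1 : ℝ) ≤ H := by exact_mod_cast hH1
  have hHNr : (H : ℝ) ≤ N := by exact_mod_cast hHN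
  have hyr : (1 : ℝ) ≤ y := by exact_mod_cast hy1
  have hhr : (((ra * ((n1 : ℤ) - n2)).natAbs : ℕ) : ℝ) ≤ H := by exact_mod_cast hH
  have hT0 : (0 : ℝ) ≤ T := by linarith
  have hnz : ∑ δ ∈ (ball y).filter (fun δ : SL => N ≤ (δ.1 0 1).natAbs ∧ y ≤ (δ.1 0 1).natAbs * N ∧
      ((n1 : ℤ) ∣ δ.1 0 1 ∨ (n2 : ℤ) ∣ δ.1 0 1)), (rr ra W n1 n2 δ : ℝ) ^ 2 ≤
      N * ∑ δ ∈ (ball y).filter (fun δ : SL => δ.1 0 1 ≠ 0 ∧
        (N ≤ (δ.1 0 1).natAbs ∧ y ≤ (δ.1 0 1).natAbs * N ∧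
          (n1 ∣ (δ.1 0 1).natAbs ∨ n2 ∣ (δ.1 0 1).natAbs))), (rr ra W n1 n2 δ : ℝ) := by
    rw [mul_sum]
    have hsub : (ball y).filter (fun δ : SL => N ≤ (δ.1 0 1).natAbs ∧ y ≤ (δ.1 0 1).natAbs * N ∧
        ((n1 : ℤ) ∣ δ.1 0 1 ∨ (n2 : ℤ) ∣ δ.1 0 1)) ⊆ (ball y).filter (fun δ : SL => δ.1 0 1 ≠ 0 ∧
        (N ≤ (δ.1 0 1).natAbs ∧ y ≤ (δ.1 0 1).natAbs * N ∧
          (n1 ∣ (δ.1 0 1).natAbs ∨ n2 ∣ (δ.1 0 1).natAbs))) := by
      intro δ hδ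
      rw [mem_filter] at hδ
      rw [mem_filter]
      obtain ⟨c1, c2, c3, c4⟩ := hδ
      refine ⟨c1, ?_, c2, c3, ?_⟩
      · intro h0
        rw [h0] at c2
        simp at c2
        omega
      · rcases c4 with c4 | c4
        · exact Or.inl (Int.natCast_dvd.mp c4)
        · exact Or.inr (Int.natCast_dvd.mp c4)
    refine le_trans (sum_le_sum fun δ _ => ?_) (sum_le_sum_of_subset_of_nonneg hsub
      fun _ _ _ => by positivity)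
    have : (rr ra W n1 n2 δ : ℝ) ≤ N := by exact_mod_cast rr_le par hp hW δ
    rw [sq]
    exact mul_le_mul_of_nonneg_right this (Nat.cast_nonneg _)
  have hP := rr_sum_P par hp hW y hy (fun b => N ≤ b ∧ y ≤ b * N ∧ (n1 ∣ b ∨ n2 ∣ b))
  have hw : ∀ b ∈ (Icc 1 y).filter (fun b => N ≤ b ∧ y ≤ b * N ∧ (n1 ∣ b ∨ n2 ∣ b)),
      40 * T ^ 2 * (162 * (b : ℝ) + 40 * H * y / N + 3) *
        (Nat.gcd b (ra * ((n1 : ℤ) - n2)).natAbs : ℝ) ^ 2 * y / b ≤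
      8200 * T ^ 2 * H * y * (Nat.gcd b (ra * ((n1 : ℤ) - n2)).natAbs : ℝ) ^ 2 := by
    intro b hb
    rw [mem_filter, mem_Icc] at hb
    obtain ⟨⟨c1, c2⟩, c3, c4, -⟩ := hb
    have hb1 : (1 : ℝ) ≤ b := by exact_mod_cast c1
    have hyb : (y : ℝ) ≤ b * N := by exact_mod_cast c4
    have k1 : 40 * (H : ℝ) * y / N ≤ 40 * H * b := by
      rw [div_le_iff₀ (by linarith)]
      have : 40 * (H : ℝ) * y ≤ 40 * H * (b * N) := mul_le_mul_of_nonneg_left hyb (by positivity)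
      linarith
    have k2 : 162 * (b : ℝ) + 40 * H * y / N + 3 ≤ 205 * H * b := by
      have : 1 * (b : ℝ) ≤ H * b := mul_le_mul_of_nonneg_right hHr (by linarith)
      nlinarith
    rw [div_le_iff₀ (by linarith)]
    have k3 : 0 ≤ 40 * T ^ 2 * ((Nat.gcd b (ra * ((n1 : ℤ) - n2)).natAbs : ℝ) ^ 2 * y) := by positivity
    have k4 := mul_le_mul_of_nonneg_left k2 k3
    nlinarith
  have hsum : ∑ b ∈ (Icc 1 y).filter (fun b => N ≤ b ∧ y ≤ b * N ∧ (n1 ∣ b ∨ n2 ∣ b)),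
      (Nat.gcd b (ra * ((n1 : ℤ) - n2)).natAbs : ℝ) ^ 2 ≤ 2 * (T * H * y / N) := by
    have hsub : (Icc 1 y).filter (fun b => N ≤ b ∧ y ≤ b * N ∧ (n1 ∣ b ∨ n2 ∣ b)) ⊆
        (Icc 1 y).filter (fun b => n1 ∣ b) ∪ (Icc 1 y).filter (fun b => n2 ∣ b) := by
      intro b hb
      rw [mem_filter] at hb
      rw [mem_union, mem_filter, mem_filter]
      obtain ⟨c1, -, -, c2 | c2⟩ := hb
      · exact Or.inl ⟨c1, c2⟩
      · exact Or.inr ⟨c1, c2⟩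
    refine le_trans (sum_le_sum_of_subset_of_nonneg hsub fun _ _ _ => by positivity) ?_
    have hu : ∑ b ∈ (Icc 1 y).filter (fun b => n1 ∣ b) ∪ (Icc 1 y).filter (fun b => n2 ∣ b),
        (Nat.gcd b (ra * ((n1 : ℤ) - n2)).natAbs : ℝ) ^ 2 ≤
        ∑ b ∈ (Icc 1 y).filter (fun b => n1 ∣ b), (Nat.gcd b (ra * ((n1 : ℤ) - n2)).natAbs : ℝ) ^ 2 +
          ∑ b ∈ (Icc 1 y).filter (fun b => n2 ∣ b), (Nat.gcd b (ra * ((n1 : ℤ) - n2)).natAbs : ℝ) ^ 2 := by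
      rw [← sum_union_inter]
      exact le_add_of_nonneg_right (sum_nonneg fun b _ => by positivity)
    refine le_trans hu ?_
    have k1 := gcd_sq_sum_mul par.loss (ra * ((n1 : ℤ) - n2)).natAbs h1 hV y n1 hp.p1 hd1
    have k2 := gcd_sq_sum_mul par.loss (ra * ((n1 : ℤ) - n2)).natAbs h1 hV y n2 hp.p2 hd2
    have k3 : T * (((ra * ((n1 : ℤ) - n2)).natAbs : ℕ) : ℝ) * y ≤ T * H * y :=
      mul_le_mul_of_nonneg_right (mul_le_mul_of_nonneg_left hhr hT0) (by linarith)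
    have l1 : (N : ℝ) ≤ n1 := by exact_mod_cast hp.l1.le
    have l2 : (N : ℝ) ≤ n2 := by exact_mod_cast hp.l2.le
    have k4 : T * (((ra * ((n1 : ℤ) - n2)).natAbs : ℕ) : ℝ) * y / n1 ≤ T * H * y / N :=
      div_le_div₀ (by positivity) k3 (by linarith) l1
    have k5 : T * (((ra * ((n1 : ℤ) - n2)).natAbs : ℕ) : ℝ) * y / n2 ≤ T * H * y / N :=
      div_le_div₀ (by positivity) k3 (by linarith) l2
    linarith
  have t1 := sum_le_sum hw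
  rw [← mul_sum] at t1
  have t2 := mul_le_mul_of_nonneg_left hsum (by positivity : 0 ≤ 8200 * T ^ 2 * H * (y : ℝ))
  have t3 : ∑ δ ∈ (ball y).filter (fun δ : SL => δ.1 0 1 ≠ 0 ∧
        (N ≤ (δ.1 0 1).natAbs ∧ y ≤ (δ.1 0 1).natAbs * N ∧
          (n1 ∣ (δ.1 0 1).natAbs ∨ n2 ∣ (δ.1 0 1).natAbs))), (rr ra W n1 n2 δ : ℝ) ≤
      2 * (8200 * T ^ 2 * H * y * (2 * (T * H * y / N))) := by linarith
  refine le_trans hnz (le_trans (mul_le_mul_of_nonneg_left t3 (by linarith)) ?_)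
  have t4 : (N : ℝ) * (2 * (8200 * T ^ 2 * H * y * (2 * (T * H * y / N)))) =
      32800 * (T ^ 3 * H ^ 2 * y ^ 2) := by
    have : (N : ℝ) ≠ 0 := by linarith
    field_simp
    ring
  rw [t4]
  have t5 : T ^ 3 * H ^ 2 * y ^ 2 * 2 ≤ T ^ 3 * H ^ 2 * y ^ 2 * T :=
    mul_le_mul_of_nonneg_left hT (by positivity)
  have t6 : 0 ≤ T ^ 3 * H ^ 2 * (y : ℝ) ^ 2 := by positivity
  nlinarith

end Pool.Agent.TIA
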