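import Pool.Agent.TIA.FM0
import Pool.Agent.TIA.FM9

/-!
# [TII-FM10] multiplicity: from rr ra to AA
-/

set_option autoImplicit false

namespace Pool.Agent.TIA.FM

open Finset Pool.Agent.TII

variable {ra : ℤ}

variable {N H Z V : ℕ} {T : ℝ} {n1 n2 C : ℕ} {D h W : ℤ} {G : ℕ}

/-- the solutions counted by `rr` have `r(-δ) = r(δ)` -/
theorem rr_neg (Wn : Finset ℤ) (n1 n2 : ℕ) (δ : SL) : rr ra Wn n1 n2 (-δ) = rr ra Wn n1 n2 δ := by
  unfold rr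
  congr 1
  apply Finset.filter_congr
  intro p _
  have h1 : (-δ : SL).1 0 1 = - δ.1 0 1 := by simp
  have h2 : (-δ : SL).1 0 0 = - δ.1 0 0 := by simp
  have h3 : (-δ : SL).1 1 1 = - δ.1 1 1 := by simp
  have h4 : (-δ : SL).1 1 0 = - δ.1 1 0 := by simp
  rw [h1, h2, h3, h4]
  rw [show -δ.1 0 1 * p.1 * p.2 - -δ.1 0 0 * (ra * ((n1 : ℤ) - n2)) * p.2 + -δ.1 1 1 * (ra * ((n1 : ℤ) - n2)) * p.1 -
      -δ.1 1 0 * (ra * ((n1 : ℤ) - n2)) ^ 2 = -(δ.1 0 1 * p.1 * p.2 - δ.1 0 0 * (ra * ((n1 : ℤ) - n2)) * p.2 +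
      δ.1 1 1 * (ra * ((n1 : ℤ) - n2)) * p.1 - δ.1 1 0 * (ra * ((n1 : ℤ) - n2)) ^ 2) by ring, dvd_neg]

theorem rr_le_AA_det (δ : SL) : δ.1 0 0 * δ.1 1 1 - δ.1 0 1 * δ.1 1 0 = 1 := by
  have h := δ.2
  rw [Matrix.det_fin_two] at h
  exact h

/-- the pairs counted by `rr` -/
def rr_le_AA_R (ra : ℤ) (Wn : Finset ℤ) (n1 n2 : ℕ) (δ : SL) : Finset (ℤ × ℤ) :=
  (Wn ×ˢ Wn).filter fun p : ℤ × ℤ => ((n1 : ℤ) * n2) ∣
    δ.1 0 1 * p.1 * p.2 - δ.1 0 0 * (ra * ((n1 : ℤ) - n2)) * p.2 + δ.1 1 1 * (ra * ((n1 : ℤ) - n2)) * p.1 -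
      δ.1 1 0 * (ra * ((n1 : ℤ) - n2)) ^ 2

/-- the quadruple attached to a solution -/
def rr_le_AA_q (h : ℤ) (δ : SL) (p : ℤ × ℤ) : ℤ × ℤ × ℤ × ℤ :=
  (δ.1 0 1, δ.1 0 0 % δ.1 0 1, δ.1 0 1 * p.1 - δ.1 0 0 * h, δ.1 0 1 * p.2 + δ.1 1 1 * h)

theorem rr_le_AA_mem (hM : MC ra N H Z V T n1 n2 C D h W G) (Wn : Finset ℤ) (hW : Win N Wn) (y : ℕ)
    (hy : y ≤ N * C) (δ : SL) (hδ : nm δ ≤ y) (hb : (C : ℤ) ≤ δ.1 0 1) (hb2 : δ.1 0 1 < 2 * C)
    (hg : Int.gcd (δ.1 0 1) ((n1 : ℤ) * n2) = 1) (p : ℤ × ℤ) (hp : p ∈ rr_le_AA_R ra Wn n1 n2 δ) :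
    rr_le_AA_q h δ p ∈ GG D h W C := by
  have hN := hM.N1
  have hlo := hM.lo
  have hb0 : 0 < δ.1 0 1 := by omega
  unfold rr_le_AA_R at hp
  rw [Finset.mem_filter, Finset.mem_product, ← hM.h_eq, ← hM.D_eq] at hp
  obtain ⟨⟨hp1, hp2⟩, hd⟩ := hp
  have ht1 := abs_le.1 (hW.abs _ hp1)
  have ht2 := abs_le.1 (hW.abs _ hp2)
  have hdet := rr_le_AA_det δ
  unfold nm at hδ
  simp only [max_le_iff] at hδ
  obtain ⟨⟨ha, -⟩, -, hdd⟩ := hδ
  have ha' : |δ.1 0 0| ≤ y := by rw [Int.abs_eq_natAbs]; exact_mod_cast ha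
  have hd' : |δ.1 1 1| ≤ y := by rw [Int.abs_eq_natAbs]; exact_mod_cast hdd
  have hh := hM.hH
  have hyZ : (y : ℤ) ≤ N * C := by exact_mod_cast hy
  have hbt : ∀ t : ℤ, |t| ≤ 9 * N → |δ.1 0 1 * t| ≤ 18 * C * N := by
    intro t ht
    rw [abs_mul, abs_of_pos hb0]
    calc δ.1 0 1 * |t| ≤ (2 * C) * (9 * N) :=
          mul_le_mul hb2.le ht (abs_nonneg _) (by positivity)
      _ = 18 * C * N := by ring
  have hah : ∀ x : ℤ, |x| ≤ y → |x * h| ≤ H * C * N := by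
    intro x hx
    rw [abs_mul]
    calc |x| * |h| ≤ (N * C) * H := mul_le_mul (hx.trans hyZ) hh (abs_nonneg _) (by positivity)
      _ = H * C * N := by ring
  have hr0 : 0 ≤ δ.1 0 0 % δ.1 0 1 := Int.emod_nonneg _ (by omega)
  have hrb : δ.1 0 0 % δ.1 0 1 < δ.1 0 1 := Int.emod_lt_of_pos _ hb0
  obtain ⟨k, hk⟩ : δ.1 0 1 ∣ δ.1 0 0 - δ.1 0 0 % δ.1 0 1 := Int.dvd_self_sub_emod
  have hCN : (0 : ℤ) ≤ (C : ℤ) * N := by positivity
  rw [mem_GG]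
  unfold rr_le_AA_q
  simp only
  have e1 := abs_le.1 (hbt p.1 (hW.abs _ hp1))
  have e2 := abs_le.1 (hbt p.2 (hW.abs _ hp2))
  have e3 := abs_le.1 (hah _ ha')
  have e4 := abs_le.1 (hah _ hd')
  have eW : W = H * C * N + 20 * (C * N) := by rw [hM.W_eq]; ring
  refine ⟨⟨hb, hb2⟩, ⟨hr0, by omega⟩, ⟨?_, ?_⟩, ⟨?_, ?_⟩, hrb, ?_, ?_, ?_, ?_, ?_⟩
  · rw [eW]; nlinarith [e1.1, e3.2]
  · rw [eW]; nlinarith [e1.2, e3.1]
  · rw [eW]; nlinarith [e2.1, e4.1]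
  · rw [eW]; nlinarith [e2.2, e4.2]
  · rw [← Int.isCoprime_iff_gcd_eq_one]
    refine ⟨δ.1 1 1, k * δ.1 1 1 - δ.1 1 0, ?_⟩
    linear_combination hdet - δ.1 1 1 * hk
  · rw [hM.D_eq]; exact hg
  · exact ⟨p.1 - k * h, by linear_combination (-h) * hk⟩
  · exact ⟨δ.1 0 0 % δ.1 0 1 * p.2 + h * δ.1 1 0 - h * δ.1 1 1 * k, by
      linear_combination h * hdet - h * δ.1 1 1 * hk⟩
  · have e5 : (δ.1 0 1 * p.1 - δ.1 0 0 * h) * (δ.1 0 1 * p.2 + δ.1 1 1 * h) + h ^ 2 =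
        δ.1 0 1 * (δ.1 0 1 * p.1 * p.2 - δ.1 0 0 * h * p.2 + δ.1 1 1 * h * p.1 - δ.1 1 0 * h ^ 2) := by
      linear_combination (-h ^ 2) * hdet
    rw [e5]
    exact Dvd.dvd.mul_left hd _

theorem rr_le_AA_pos (hM : MC ra N H Z V T n1 n2 C D h W G) (Wn : Finset ℤ) (hW : Win N Wn) (y : ℕ)
    (hCy : C ≤ y) (hy : y ≤ N * C) (hy2 : y ≤ N ^ 2 * Z ^ 5) :
    ∑ δ ∈ (ball y).filter (fun δ : SL => (C : ℤ) ≤ δ.1 0 1 ∧ δ.1 0 1 < 2 * C ∧
        Int.gcd (δ.1 0 1) ((n1 : ℤ) * n2) = 1), (rr ra Wn n1 n2 δ : ℝ) ^ 2 ≤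
      100 * T * ((y : ℝ) / C) * (AA D h W C N).card := by
  classical
  have hN := hM.N1
  have hlo := hM.lo
  have hC1 : 1 ≤ C := by omega
  have hT2 := hM.T2
  set Bp := (ball y).filter (fun δ : SL => (C : ℤ) ≤ δ.1 0 1 ∧ δ.1 0 1 < 2 * C ∧
        Int.gcd (δ.1 0 1) ((n1 : ℤ) * n2) = 1) with hBp
  set P : Finset (Σ _ : SL, (ℤ × ℤ) × (ℤ × ℤ)) :=
    Bp.sigma (fun δ => rr_le_AA_R ra Wn n1 n2 δ ×ˢ rr_le_AA_R ra Wn n1 n2 δ) with hP
  have hcardP : ∑ δ ∈ Bp, (rr ra Wn n1 n2 δ : ℝ) ^ 2 = (P.card : ℝ) := by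
    rw [hP, Finset.card_sigma]
    push_cast
    refine Finset.sum_congr rfl fun δ _ => ?_
    rw [Finset.card_product]
    push_cast
    rw [sq]
    rfl
  set Φ : (Σ _ : SL, (ℤ × ℤ) × (ℤ × ℤ)) → (ℤ × ℤ × ℤ × ℤ) × (ℤ × ℤ × ℤ × ℤ) := fun x =>
    (rr_le_AA_q h x.1 x.2.1, rr_le_AA_q h x.1 x.2.2) with hΦ
  have hPm : ∀ x ∈ P, (nm x.1 ≤ y ∧ (C : ℤ) ≤ x.1.1 0 1 ∧ x.1.1 0 1 < 2 * C ∧
      Int.gcd (x.1.1 0 1) ((n1 : ℤ) * n2) = 1) ∧ x.2.1 ∈ rr_le_AA_R ra Wn n1 n2 x.1 ∧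
      x.2.2 ∈ rr_le_AA_R ra Wn n1 n2 x.1 := by
    intro x hx
    rw [hP, Finset.mem_sigma, Finset.mem_product, hBp, Finset.mem_filter, mem_ball] at hx
    exact hx
  have hmaps : ∀ x ∈ P, Φ x ∈ AA D h W C N := by
    intro x hx
    obtain ⟨⟨h1, h2, h3, h4⟩, h5, h6⟩ := hPm x hx
    unfold AA
    rw [Finset.mem_filter, Finset.mem_product]
    have hb0 : 0 < x.1.1 0 1 := by omega
    refine ⟨⟨rr_le_AA_mem hM Wn hW y hy x.1 h1 h2 h3 h4 x.2.1 h5,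
      rr_le_AA_mem hM Wn hW y hy x.1 h1 h2 h3 h4 x.2.2 h6⟩, rfl, rfl, ?_, ?_⟩
    · unfold rr_le_AA_R at h5 h6
      rw [Finset.mem_filter, Finset.mem_product] at h5 h6
      have h7 := hW.diam _ h5.1.1 _ h6.1.1
      have e : x.1.1 0 1 * x.2.1.1 - x.1.1 0 0 * h - (x.1.1 0 1 * x.2.2.1 - x.1.1 0 0 * h) =
          x.1.1 0 1 * (x.2.1.1 - x.2.2.1) := by ring
      simp only [hΦ, rr_le_AA_q]
      rw [e, abs_mul, abs_of_pos hb0]
      nlinarith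
    · unfold rr_le_AA_R at h5 h6
      rw [Finset.mem_filter, Finset.mem_product] at h5 h6
      have h7 := hW.diam _ h5.1.2 _ h6.1.2
      have e : x.1.1 0 1 * x.2.1.2 + x.1.1 1 1 * h - (x.1.1 0 1 * x.2.2.2 + x.1.1 1 1 * h) =
          x.1.1 0 1 * (x.2.1.2 - x.2.2.2) := by ring
      simp only [hΦ, rr_le_AA_q]
      rw [e, abs_mul, abs_of_pos hb0]
      nlinarith
  have hlog : (Nat.log 2 (2 * y) : ℝ) + 2 ≤ T := by
    apply hM.log
    have h5 := hM.Z5N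
    calc 2 * y ≤ N * (N ^ 2 * N) := Nat.mul_le_mul (by omega) (hy2.trans (Nat.mul_le_mul_left _ h5))
      _ = N ^ 4 := by ring
      _ ≤ N ^ 100 := Nat.pow_le_pow_right (by omega) (by norm_num)
  have hfib : ∀ v ∈ AA D h W C N, ((P.filter fun x => Φ x = v).card : ℝ) ≤ 100 * T * ((y : ℝ) / C) := by
    intro v hv
    rcases (P.filter fun x => Φ x = v).eq_empty_or_nonempty with he | ⟨x0, hx0⟩
    · rw [he]
      simp
      positivity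
    rw [Finset.mem_filter] at hx0
    obtain ⟨⟨k1, k2, k3, k4⟩, k5, k6⟩ := hPm x0 hx0.1
    have hcnt := count_ad T C y hC1 hCy hlog (x0.1.1 0 1) (x0.1.1 0 0) (x0.1.1 1 1) k2 k3
    refine le_trans ?_ hcnt
    have hle : (P.filter fun x => Φ x = v).card ≤
        ((Icc (-(y : ℤ)) y ×ˢ Icc (-(y : ℤ)) y).filter fun p : ℤ × ℤ =>
      x0.1.1 0 1 ∣ p.1 - x0.1.1 0 0 ∧ x0.1.1 0 1 ∣ p.2 - x0.1.1 1 1 ∧ |p.1 * p.2| ≤ 4 * C * y).card := by
      have hkey : ∀ x ∈ P.filter (fun x => Φ x = v), x.1.1 0 1 = x0.1.1 0 1 ∧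
          x.1.1 0 0 % x0.1.1 0 1 = x0.1.1 0 0 % x0.1.1 0 1 ∧
          x.1.1 0 1 * x.2.1.1 - x.1.1 0 0 * h = x0.1.1 0 1 * x0.2.1.1 - x0.1.1 0 0 * h ∧
          x.1.1 0 1 * x.2.1.2 + x.1.1 1 1 * h = x0.1.1 0 1 * x0.2.1.2 + x0.1.1 1 1 * h ∧
          x.1.1 0 1 * x.2.2.1 - x.1.1 0 0 * h = x0.1.1 0 1 * x0.2.2.1 - x0.1.1 0 0 * h ∧
          x.1.1 0 1 * x.2.2.2 + x.1.1 1 1 * h = x0.1.1 0 1 * x0.2.2.2 + x0.1.1 1 1 * h := by
        intro x hx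
        rw [Finset.mem_filter] at hx
        have h1 : Φ x = Φ x0 := hx.2.trans hx0.2.symm
        simp only [hΦ, rr_le_AA_q, Prod.mk.injEq] at h1
        obtain ⟨⟨h2, h3, h4, h5⟩, -, -, h6, h7⟩ := h1
        refine ⟨h2, ?_, h4, h5, h6, h7⟩
        rw [← h2, h3, h2]
      have hb0 : 0 < x0.1.1 0 1 := by omega
      apply Finset.card_le_card_of_injOn (fun x => (x.1.1 0 0, x.1.1 1 1))
      · intro x hx
        have hxP := (Finset.mem_filter.1 (Finset.mem_coe.1 hx)).1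
        obtain ⟨⟨l1, l2, l3, l4⟩, -, -⟩ := hPm x hxP
        obtain ⟨m1, m2, m3, m4, m5, m6⟩ := hkey x hx
        unfold nm at l1
        simp only [max_le_iff] at l1
        obtain ⟨⟨n1', -⟩, n3', n4'⟩ := l1
        have q1 : |x.1.1 0 0| ≤ y := by rw [Int.abs_eq_natAbs]; exact_mod_cast n1'
        have q2 : |x.1.1 1 1| ≤ y := by rw [Int.abs_eq_natAbs]; exact_mod_cast n4'
        have q3 : |x.1.1 1 0| ≤ y := by rw [Int.abs_eq_natAbs]; exact_mod_cast n3'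
        have hd1 := rr_le_AA_det x.1
        have hd0 := rr_le_AA_det x0.1
        rw [m1] at hd1
        have hda : x0.1.1 0 1 ∣ x.1.1 0 0 - x0.1.1 0 0 :=
          Int.ModEq.dvd (show x0.1.1 0 0 ≡ x.1.1 0 0 [ZMOD x0.1.1 0 1] from m2.symm)
        simp only [Finset.coe_filter, Finset.mem_product, Finset.mem_Icc, Set.mem_ofPred_eq]
        refine ⟨⟨abs_le.1 q1, abs_le.1 q2⟩, hda, ?_, ?_⟩
        · obtain ⟨k, hk⟩ := hda
          refine ⟨x0.1.1 1 1 * x.1.1 1 0 - x.1.1 1 1 * x0.1.1 1 0 - x0.1.1 1 1 * x.1.1 1 1 * k, ?_⟩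
          linear_combination x0.1.1 1 1 * hd1 - x.1.1 1 1 * hd0 - x0.1.1 1 1 * x.1.1 1 1 * hk
        · have e : x.1.1 0 0 * x.1.1 1 1 = 1 + x0.1.1 0 1 * x.1.1 1 0 := by linarith
          rw [e]
          have e2 : |x0.1.1 0 1 * x.1.1 1 0| ≤ (2 * C - 1) * y := by
            rw [abs_mul, abs_of_pos hb0]
            exact mul_le_mul (by omega) q3 (abs_nonneg _) (by omega)
          have e3 : |1 + x0.1.1 0 1 * x.1.1 1 0| ≤ 1 + |x0.1.1 0 1 * x.1.1 1 0| := by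
            refine (abs_add_le _ _).trans ?_
            simp
          have hy1 : (1 : ℤ) ≤ y := by omega
          have hC0 : (1 : ℤ) ≤ C := by omega
          nlinarith
      · intro x hx x' hx' heq
        obtain ⟨m1, m2, m3, m4, m5, m6⟩ := hkey x hx
        obtain ⟨m1', m2', m3', m4', m5', m6'⟩ := hkey x' hx'
        simp only [Prod.mk.injEq] at heq
        obtain ⟨ea, ed⟩ := heq
        have hd1 := rr_le_AA_det x.1
        have hd1' := rr_le_AA_det x'.1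
        rw [m1] at hd1 m3 m4 m5 m6
        rw [m1'] at hd1' m3' m4' m5' m6'
        have ec : x.1.1 1 0 = x'.1.1 1 0 := by
          have : x0.1.1 0 1 * x.1.1 1 0 = x0.1.1 0 1 * x'.1.1 1 0 := by
            rw [ea, ed] at hd1
            linarith
          exact mul_left_cancel₀ hb0.ne' this
        have eδ : x.1 = x'.1 := by
          apply Subtype.ext
          ext i j
          fin_cases i <;> fin_cases j
          · exact ea
          · exact m1.trans m1'.symm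
          · exact ec
          · exact ed
        have f1 : x.2.1.1 = x'.2.1.1 := by
          apply mul_left_cancel₀ hb0.ne'
          rw [ea] at m3
          linarith
        have f2 : x.2.1.2 = x'.2.1.2 := by
          apply mul_left_cancel₀ hb0.ne'
          rw [ed] at m4
          linarith
        have f3 : x.2.2.1 = x'.2.2.1 := by
          apply mul_left_cancel₀ hb0.ne'
          rw [ea] at m5
          linarith
        have f4 : x.2.2.2 = x'.2.2.2 := by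
          apply mul_left_cancel₀ hb0.ne'
          rw [ed] at m6
          linarith
        have f : x.2 = x'.2 := Prod.ext (Prod.ext f1 f2) (Prod.ext f3 f4)
        exact Sigma.ext eδ (heq_of_eq f)
    exact_mod_cast hle
  rw [hcardP]
  have hT0 : 0 ≤ 100 * T * ((y : ℝ) / C) := by positivity
  have hmain := Finset.card_le_mul_card_image_of_maps_to hmaps ⌊100 * T * ((y : ℝ) / C)⌋₊
    (fun v hv => Nat.le_floor (hfib v hv))
  calc (P.card : ℝ) ≤ ((⌊100 * T * ((y : ℝ) / C)⌋₊ * (AA D h W C N).card : ℕ) : ℝ) := by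
        exact_mod_cast hmain
    _ = (⌊100 * T * ((y : ℝ) / C)⌋₊ : ℝ) * (AA D h W C N).card := by push_cast; ring
    _ ≤ _ := mul_le_mul_of_nonneg_right (Nat.floor_le hT0) (by positivity)

/-- [FM10] PROOF. By `rr_neg`, `δ ↦ -δ` on `ball y` it suffices to bound the part with `b > 0` by half of the right
side. Put `P = {(δ, (t₁, t₁'), (t₂, t₂'))}`, `δ = [[a, b], [c, d]] ∈ ball y`, `C ≤ b < 2C`, `gcd (b, D) = 1`, both
`(t_i, t_i')` counted by `rr Wn n1 n2 δ`; `|P| = ∑ rr²`. For such a pair put `τ = b t - a h`, `τ' = b t' + d h`.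
`(b, a % b, τ, τ') ∈ GG`: `|τ| ≤ 2C · 9N + y H ≤ (H + 20) C N = W` (`y ≤ N C`), same for `τ'`; `gcd (a, b) = 1`; `b ∣ τ + a h`;
`a τ' - h = b (a t' + c h)` (`a d - b c = 1`); `τ τ' + h² = b (b t t' - a h t' + d h t - c h²)`, divisible by `D`.
`P → AA`, `((b, a % b, τ₁, τ₁'), (b, a % b, τ₂, τ₂'))`: `2 |τ₁ - τ₂| = 2 b |t₁ - t₂| ≤ b N` (`Win.diam`).
Fibres: `(a, d)` determines the element of the fibre (`b` given, `c = (a d - 1) / b`, `t_i = (τ_i + a h) / b`,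
`t_i' = (τ_i' - d h) / b`); `a ≡ a % b =: a₀` given mod `b`, `d` is determined mod `b` (`a₀ d ≡ 1`), `|a|, |d| ≤ y`,
`|a d| = |1 + b c| ≤ 1 + 2 C y ≤ 4 C y`: at most `100 T y / C` elements by `count_ad` (FM9). -/
theorem rr_le_AA (hM : MC ra N H Z V T n1 n2 C D h W G) (Wn : Finset ℤ) (hW : Win N Wn) (y : ℕ)
    (hCy : C ≤ y) (hy : y ≤ N * C) (hy2 : y ≤ N ^ 2 * Z ^ 5) :
    ∑ δ ∈ (ball y).filter (fun δ : SL => (C : ℤ) ≤ |δ.1 0 1| ∧ |δ.1 0 1| < 2 * C ∧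
        Int.gcd (δ.1 0 1) ((n1 : ℤ) * n2) = 1), (rr ra Wn n1 n2 δ : ℝ) ^ 2 ≤
      200 * T * ((y : ℝ) / C) * (AA D h W C N).card := by
  have hN := hM.N1
  have hlo := hM.lo
  have hpos := rr_le_AA_pos hM Wn hW y hCy hy hy2
  have hsplit : (ball y).filter (fun δ : SL => (C : ℤ) ≤ |δ.1 0 1| ∧ |δ.1 0 1| < 2 * C ∧
        Int.gcd (δ.1 0 1) ((n1 : ℤ) * n2) = 1) =
      ((ball y).filter (fun δ : SL => (C : ℤ) ≤ δ.1 0 1 ∧ δ.1 0 1 < 2 * C ∧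
        Int.gcd (δ.1 0 1) ((n1 : ℤ) * n2) = 1)).disjUnion
      ((ball y).filter (fun δ : SL => (C : ℤ) ≤ -δ.1 0 1 ∧ -δ.1 0 1 < 2 * C ∧
        Int.gcd (δ.1 0 1) ((n1 : ℤ) * n2) = 1)) (by
        rw [Finset.disjoint_left]
        intro δ h1 h2
        rw [Finset.mem_filter] at h1 h2
        have := h1.2.1
        have := h2.2.1
        omega) := by
    ext δ
    rw [Finset.mem_disjUnion, Finset.mem_filter, Finset.mem_filter, Finset.mem_filter]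
    rcases le_total 0 (δ.1 0 1) with h0 | h0
    · rw [abs_of_nonneg h0]
      constructor
      · intro h1
        exact Or.inl h1
      · rintro (h1 | h1)
        · exact h1
        · have := h1.2.1
          omega
    · rw [abs_of_nonpos h0]
      constructor
      · intro h1
        exact Or.inr h1
      · rintro (h1 | h1)
        · have := h1.2.1
          omega
        · exact h1
  have hnm : ∀ δ : SL, nm (-δ) = nm δ := by
    intro δ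
    unfold nm
    simp
  have hneg : ∑ δ ∈ (ball y).filter (fun δ : SL => (C : ℤ) ≤ -δ.1 0 1 ∧ -δ.1 0 1 < 2 * C ∧
        Int.gcd (δ.1 0 1) ((n1 : ℤ) * n2) = 1), (rr ra Wn n1 n2 δ : ℝ) ^ 2 =
      ∑ δ ∈ (ball y).filter (fun δ : SL => (C : ℤ) ≤ δ.1 0 1 ∧ δ.1 0 1 < 2 * C ∧
        Int.gcd (δ.1 0 1) ((n1 : ℤ) * n2) = 1), (rr ra Wn n1 n2 δ : ℝ) ^ 2 := by
    refine Finset.sum_nbij' (fun δ => -δ) (fun δ => -δ) ?_ ?_ ?_ ?_ ?_
    · intro δ hδ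
      rw [Finset.mem_filter, mem_ball] at hδ ⊢
      refine ⟨by rw [hnm]; exact hδ.1, ?_, ?_, ?_⟩
      · simpa using hδ.2.1
      · simpa using hδ.2.2.1
      · have : (-δ : SL).1 0 1 = - δ.1 0 1 := by simp
        rw [this, Int.neg_gcd]
        exact hδ.2.2.2
    · intro δ hδ
      rw [Finset.mem_filter, mem_ball] at hδ ⊢
      refine ⟨by rw [hnm]; exact hδ.1, ?_, ?_, ?_⟩
      · simpa using hδ.2.1
      · simpa using hδ.2.2.1
      · have : (-δ : SL).1 0 1 = - δ.1 0 1 := by simp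
        rw [this, Int.neg_gcd]
        exact hδ.2.2.2
    · intro δ _
      exact neg_neg δ
    · intro δ _
      exact neg_neg δ
    · intro δ _
      rw [rr_neg]
  rw [hsplit, Finset.sum_disjUnion, hneg]
  linarith

end Pool.Agent.TIA.FM
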