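import Pool.Agent.TIA.FM0
import Pool.Agent.TIA.FM6

/-!
# [TII-FM7] TT2: equal coordinates
-/

set_option autoImplicit false

namespace Pool.Agent.TIA.FM

open Finset Pool.Agent.TII

variable {ra : ℤ}

variable {N H Z V : ℕ} {T : ℝ} {n1 n2 C : ℕ} {D h W : ℤ} {G : ℕ}

/-- nonzero multiples of `c` -/
private theorem FM7_mult (A c : ℕ) (hc : 1 ≤ c) :
    ((nz A).filter fun e => (c : ℤ) ∣ e).card ≤ 2 * (A / c) := by
  rw [← card_nz (A / c)]
  refine Finset.card_le_card_of_injOn (fun e => e / c) ?_ ?_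
  · intro e he
    have he' : e ∈ (nz A).filter fun e => (c : ℤ) ∣ e := he
    rw [mem_filter, mem_nz] at he'
    obtain ⟨⟨h1, h2⟩, k, rfl⟩ := he'
    show (c : ℤ) * k / c ∈ nz (A / c)
    rw [Int.mul_ediv_cancel_left _ (by omega), mem_nz]
    refine ⟨right_ne_zero_of_mul h1, ?_⟩
    rw [Int.natAbs_mul, Int.natAbs_natCast] at h2
    rw [Nat.le_div_iff_mul_le (by omega), mul_comm]
    exact h2
  · intro e he e' he' hee
    have he1 : e ∈ (nz A).filter fun e => (c : ℤ) ∣ e := he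
    have he2 : e' ∈ (nz A).filter fun e => (c : ℤ) ∣ e := he'
    rw [mem_filter] at he1 he2
    have hq : e / c = e' / c := hee
    rw [← Int.ediv_mul_cancel he1.2, ← Int.ediv_mul_cancel he2.2, hq]

/-- solutions `f ≠ x` of `b ∣ M (f - x)` -/
private theorem FM7_near (b M x : ℤ) (G : ℕ) (hb : 0 < b) (hx : x.natAbs ≤ G) :
    ((nz G).filter fun f => f ≠ x ∧ b ∣ M * (f - x)).card * b.natAbs ≤ 4 * G * Int.gcd b M := by
  have hw0 : 0 < Int.gcd b M := Int.gcd_pos_of_ne_zero_left _ (by omega)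
  obtain ⟨c, hc⟩ : (Int.gcd b M : ℤ) ∣ b := Int.gcd_dvd_left ..
  obtain ⟨m, hm⟩ : (Int.gcd b M : ℤ) ∣ M := Int.gcd_dvd_right ..
  set w := Int.gcd b M with hw
  have hw0' : (0 : ℤ) < w := by exact_mod_cast hw0
  have hc0 : 0 < c := by
    by_contra hcon
    have : (w : ℤ) * c ≤ 0 := mul_nonpos_of_nonneg_of_nonpos hw0'.le (by omega)
    omega
  have hcm : Int.gcd c m = 1 := by
    have e1 : w = w * Int.gcd c m := by
      calc w = Int.gcd b M := hw
        _ = Int.gcd (w * c) (w * m) := by rw [← hc, ← hm]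
        _ = w * Int.gcd c m := by rw [Int.gcd_mul_left, Int.natAbs_natCast]
    have e2 : w * Int.gcd c m = w * 1 := by rw [← e1, mul_one]
    exact Nat.eq_of_mul_eq_mul_left hw0 e2
  have h1 : ((nz G).filter fun f => f ≠ x ∧ b ∣ M * (f - x)).card ≤ 2 * (2 * G / c.natAbs) := by
    refine le_trans ?_ (FM7_mult (2 * G) c.natAbs (by omega))
    refine Finset.card_le_card_of_injOn (fun f => f - x) ?_ ?_
    · intro f hf
      have hf' : f ∈ (nz G).filter fun f => f ≠ x ∧ b ∣ M * (f - x) := hf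
      rw [mem_filter, mem_nz] at hf'
      obtain ⟨⟨h1, h2⟩, h3, h4⟩ := hf'
      show f - x ∈ (nz (2 * G)).filter fun e => (c.natAbs : ℤ) ∣ e
      rw [mem_filter, mem_nz]
      refine ⟨⟨by omega, by omega⟩, ?_⟩
      rw [Int.natAbs_dvd]
      have h5 : (w : ℤ) * c ∣ (w : ℤ) * (m * (f - x)) := by
        rw [← hc, ← mul_assoc, ← hm]; exact h4
      have h6 : c ∣ m * (f - x) := Int.dvd_of_mul_dvd_mul_left hw0'.ne' h5
      exact Int.dvd_of_dvd_mul_right_of_gcd_one h6 hcm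
    · intro f _ f' _ hff
      have : f - x = f' - x := hff
      omega
  have hbn : b.natAbs = w * c.natAbs := by
    conv_lhs => rw [hc]
    rw [Int.natAbs_mul, Int.natAbs_natCast]
  calc ((nz G).filter fun f => f ≠ x ∧ b ∣ M * (f - x)).card * b.natAbs
      ≤ (2 * (2 * G / c.natAbs)) * b.natAbs := Nat.mul_le_mul_right _ h1
    _ = 2 * ((2 * G / c.natAbs) * c.natAbs) * w := by rw [hbn]; ring
    _ ≤ 2 * (2 * G) * w := Nat.mul_le_mul_right _ (Nat.mul_le_mul_left _ (Nat.div_mul_le_self _ _))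
    _ = 4 * G * w := by ring

/-- the sum of the gcd's -/
private theorem FM7_gcd (hM : MC ra N H Z V T n1 n2 C D h W G) :
    ∑ k ∈ nz G ×ˢ nz G, (Int.gcd k.1 k.2 : ℝ) ≤ 4 * T * (G : ℝ) ^ 2 := by
  have hT := hM.T2
  have h1 : ∀ g ∈ nz G, ∑ g' ∈ nz G, Int.gcd g g' ≤ 2 * G * g.natAbs.divisors.card := by
    intro g hg
    rw [mem_nz] at hg
    have h2 : ∀ g' ∈ nz G, Int.gcd g g' ≤
        ∑ d ∈ g.natAbs.divisors, if (d : ℤ) ∣ g' then d else 0 := by
      intro g' _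
      have hd : Int.gcd g g' ∈ g.natAbs.divisors := by
        rw [Nat.mem_divisors]
        exact ⟨Nat.gcd_dvd_left _ _, (Int.natAbs_pos.2 hg.1).ne'⟩
      have hd2 : ((Int.gcd g g' : ℕ) : ℤ) ∣ g' := Int.gcd_dvd_right ..
      have := Finset.single_le_sum (f := fun d : ℕ => if (d : ℤ) ∣ g' then d else 0)
        (fun i _ => Nat.zero_le _) hd
      simp only [hd2, if_true] at this
      exact this
    calc ∑ g' ∈ nz G, Int.gcd g g'
        ≤ ∑ g' ∈ nz G, ∑ d ∈ g.natAbs.divisors, (if (d : ℤ) ∣ g' then d else 0) :=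
          Finset.sum_le_sum h2
      _ = ∑ d ∈ g.natAbs.divisors, ∑ g' ∈ nz G, (if (d : ℤ) ∣ g' then d else 0) :=
          Finset.sum_comm
      _ ≤ ∑ _d ∈ g.natAbs.divisors, 2 * G := by
          apply Finset.sum_le_sum
          intro d hd
          have hd1 : 1 ≤ d := Nat.pos_of_mem_divisors hd
          rw [← Finset.sum_filter, Finset.sum_const, smul_eq_mul]
          calc ((nz G).filter fun e => (d : ℤ) ∣ e).card * d ≤ 2 * (G / d) * d :=
                Nat.mul_le_mul_right _ (FM7_mult G d hd1)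
            _ = 2 * (G / d * d) := by ring
            _ ≤ 2 * G := Nat.mul_le_mul_left _ (Nat.div_mul_le_self _ _)
      _ = 2 * G * g.natAbs.divisors.card := by
          rw [Finset.sum_const, smul_eq_mul, mul_comm]
  rw [Finset.sum_product]
  have h3 : ∀ g ∈ nz G, ∑ g' ∈ nz G, (Int.gcd g g' : ℝ) ≤ 2 * G * T := by
    intro g hg
    have h4 : ((∑ g' ∈ nz G, Int.gcd g g' : ℕ) : ℝ) ≤ ((2 * G * g.natAbs.divisors.card : ℕ) : ℝ) := by
      exact_mod_cast h1 g hg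
    push_cast at h4
    refine h4.trans ?_
    rw [mem_nz] at hg
    have h5 : g.natAbs ≤ N ^ 100 := hg.2.trans (hM.G_le_N2.trans
      (Nat.pow_le_pow_right (by have := hM.N1; omega) (by norm_num)))
    exact mul_le_mul_of_nonneg_left (hM.tau _ (Int.natAbs_pos.2 hg.1) h5) (by positivity)
  refine (Finset.sum_le_sum h3).trans ?_
  rw [Finset.sum_const, card_nz, nsmul_eq_mul]
  push_cast
  exact le_of_eq (by ring)

private theorem FM7_gcd_le (b y z h : ℤ) (H : ℕ) (hy : y ≠ 0) (hh : h ≠ 0)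
    (hH : h.natAbs ≤ H) (h2 : (Int.gcd b y : ℤ) ∣ z * h) :
    Int.gcd b (y * h) ≤ H ^ 2 * Int.gcd y z := by
  have e1 : Int.gcd b (y * h) ∣ Int.gcd b y * Int.gcd b h := by
    have := gcd_mul_dvd_mul_gcd b.natAbs y.natAbs h.natAbs
    unfold Int.gcd
    rw [Int.natAbs_mul]
    exact this
  have hg1 : 0 < Int.gcd b y := Int.gcd_pos_of_ne_zero_right _ hy
  have hg2 : 0 < Int.gcd b h := Int.gcd_pos_of_ne_zero_right _ hh
  have e2 : Int.gcd b h ≤ H :=
    (Nat.le_of_dvd (Int.natAbs_pos.2 hh) (Nat.gcd_dvd_right _ _)).trans hH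
  have e3 : Int.gcd b y ∣ Int.gcd y z * Int.gcd y h := by
    have e4 : Int.gcd b y ∣ Int.gcd y (z * h) := by
      refine Nat.dvd_gcd (Nat.gcd_dvd_right _ _) ?_
      exact Int.natCast_dvd.1 h2
    refine e4.trans ?_
    have := gcd_mul_dvd_mul_gcd y.natAbs z.natAbs h.natAbs
    unfold Int.gcd
    rw [Int.natAbs_mul]
    exact this
  have hg3 : 0 < Int.gcd y z := Int.gcd_pos_of_ne_zero_left _ hy
  have hg4 : 0 < Int.gcd y h := Int.gcd_pos_of_ne_zero_left _ hy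
  have e5 : Int.gcd y h ≤ H :=
    (Nat.le_of_dvd (Int.natAbs_pos.2 hh) (Nat.gcd_dvd_right _ _)).trans hH
  have e6 : Int.gcd b y ≤ Int.gcd y z * Int.gcd y h := Nat.le_of_dvd (Nat.mul_pos hg3 hg4) e3
  calc Int.gcd b (y * h) ≤ Int.gcd b y * Int.gcd b h := Nat.le_of_dvd (Nat.mul_pos hg1 hg2) e1
    _ ≤ (Int.gcd y z * H) * H :=
        Nat.mul_le_mul (e6.trans (Nat.mul_le_mul_left _ e5)) e2
    _ = H ^ 2 * Int.gcd y z := by ring

private theorem FM7_sum (hM : MC ra N H Z V T n1 n2 C D h W G) (t : Finset (ℤ × ℤ))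
    (ht : (t.card : ℝ) ≤ 2 * T * C) (htb : ∀ u ∈ t, (C : ℤ) ≤ u.1) (s : Finset ℤ)
    (r : ℤ → ℤ × ℤ → Prop) (x y z : ℤ) (hx : x.natAbs ≤ G) (hy : y ≠ 0)
    (h1 : ∀ u ∈ t, ∀ f ∈ s, r f u → f ∈ nz G ∧ f ≠ x ∧ u.1 ∣ y * h * (f - x))
    (h2 : ∀ u ∈ t, (Int.gcd u.1 y : ℤ) ∣ z * h) [∀ f, DecidablePred (r f)] :
    ∑ f ∈ s, ((t.filter (r f)).card : ℝ) ≤ 8 * T * G * (H : ℝ) ^ 2 * Int.gcd y z := by
  have hT := hM.T2
  have hC0 : 20000 ≤ C := hM.N1.trans hM.lo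
  have hCR : (0 : ℝ) < C := by
    have : 0 < C := by omega
    exact_mod_cast this
  have hsw : ∑ f ∈ s, (t.filter (r f)).card = ∑ u ∈ t, (s.filter fun f => r f u).card :=
    Finset.sum_card_bipartiteAbove_eq_sum_card_bipartiteBelow r
  have hone : ∀ u ∈ t, ((s.filter fun f => r f u).card : ℝ) ≤
      4 * G * (H : ℝ) ^ 2 * Int.gcd y z / C := by
    intro u hu
    have hb := htb u hu
    have hb0 : 0 < u.1 := by omega
    have k1 : (s.filter fun f => r f u).card ≤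
        ((nz G).filter fun f => f ≠ x ∧ u.1 ∣ y * h * (f - x)).card := by
      apply Finset.card_le_card
      intro f hf
      rw [mem_filter] at hf ⊢
      exact h1 u hu f hf.1 hf.2
    have k2 := FM7_near u.1 (y * h) x G hb0 hx
    have k3 := FM7_gcd_le u.1 y z h H hy hM.h0 hM.hnat (h2 u hu)
    have k4 : C ≤ u.1.natAbs := by omega
    have k5 : (s.filter fun f => r f u).card * C ≤ 4 * G * (H ^ 2 * Int.gcd y z) :=
      calc (s.filter fun f => r f u).card * C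
          ≤ ((nz G).filter fun f => f ≠ x ∧ u.1 ∣ y * h * (f - x)).card * u.1.natAbs :=
            Nat.mul_le_mul k1 k4
        _ ≤ 4 * G * Int.gcd u.1 (y * h) := k2
        _ ≤ 4 * G * (H ^ 2 * Int.gcd y z) := Nat.mul_le_mul_left _ k3
    rw [le_div_iff₀ hCR]
    have k6 : (((s.filter fun f => r f u).card * C : ℕ) : ℝ) ≤
        ((4 * G * (H ^ 2 * Int.gcd y z) : ℕ) : ℝ) := by exact_mod_cast k5
    push_cast at k6
    linarith
  have hsw' : ∑ f ∈ s, ((t.filter (r f)).card : ℝ) = ∑ u ∈ t, ((s.filter fun f => r f u).card : ℝ) := by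
    exact_mod_cast hsw
  rw [hsw']
  refine (Finset.sum_le_sum hone).trans ?_
  rw [Finset.sum_const, nsmul_eq_mul]
  have hnn : (0 : ℝ) ≤ 4 * G * (H : ℝ) ^ 2 * Int.gcd y z / C := by positivity
  refine (mul_le_mul_of_nonneg_right ht hnn).trans (le_of_eq ?_)
  field_simp
  ring

/-- [FM7a] PROOF. Let `E(g, g') = g h - g' a² h + D g g' a`. Here `f = g` and `f' ≠ g'`. `b ∣ f' E(g,g') - g' E(g,f')`
`= (f' - g') g h`. So `b ∣ g h (f' - g') ≠ 0`. With `w = gcd (b, g h)`, `b / w` divides `f' - g'`, a nonzero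
integer of absolute value `≤ 2G`: at most `4 G w / b ≤ 4 G w / C` values of `f'`. `w ≤ |h| gcd (b, g)`, and
`gcd (b, g)` divides `E(g,g')`, so `g' a² h`, and (`gcd (a, b) = 1`) it divides `g' h`, so
`gcd (b, g) ≤ gcd (g, g' h) ≤ H gcd (g, g')`. So given `(b, a, g, g')` (for given `(g, g')` at most `2 T C`
values of `(b, a)`, `fixed_g`) there are at most `4 G H² gcd (g, g') / C` values of `f'`. Total
`≤ ∑_{g, g'} 8 T G H² gcd (g, g') ≤ 32 T² H² G³`, because `∑_{g, g' ∈ nz G} gcd (g, g') ≤ 4 T G²` (for each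
`g`: `gcd (g, g') ≤ ∑_{d ∣ g, d ∣ g'} d`, and `∑_{g'} ∑_{d ∣ g, d ∣ g'} d ≤ ∑_{d ∣ g} 2G ≤ 2 G T`). -/
theorem equal1 (hM : MC ra N H Z V T n1 n2 C D h W G) :
    ∑ p ∈ ((nz G ×ˢ nz G) ×ˢ (nz G ×ˢ nz G)).filter
        (fun p : (ℤ × ℤ) × (ℤ × ℤ) => p.1.1 = p.2.1 ∧ p.1.2 ≠ p.2.2), (cnt D h C p.1 p.2 : ℝ) ≤
      32 * T ^ 2 * (H : ℝ) ^ 2 * (G : ℝ) ^ 3 := by
  have hT := hM.T2
  have hsum : ∑ p ∈ ((nz G ×ˢ nz G) ×ˢ (nz G ×ˢ nz G)).filter
        (fun p : (ℤ × ℤ) × (ℤ × ℤ) => p.1.1 = p.2.1 ∧ p.1.2 ≠ p.2.2), (cnt D h C p.1 p.2 : ℝ) =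
      ∑ q ∈ ((nz G ×ˢ nz G) ×ˢ nz G).filter (fun q : (ℤ × ℤ) × ℤ => q.2 ≠ q.1.2),
        (cnt D h C q.1 (q.1.1, q.2) : ℝ) := by
    refine Finset.sum_nbij' (fun p => (p.1, p.2.2)) (fun q => (q.1, (q.1.1, q.2))) ?_ ?_ ?_ ?_ ?_
    · intro p hp
      simp only [mem_filter, mem_product] at hp ⊢
      exact ⟨⟨hp.1.1, hp.1.2.2⟩, fun e => hp.2.2 e.symm⟩
    · intro q hq
      simp only [mem_filter, mem_product] at hq ⊢
      exact ⟨⟨hq.1.1, hq.1.1.1, hq.1.2⟩, trivial, fun e => hq.2 e.symm⟩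
    · intro p hp
      simp only [mem_filter, mem_product] at hp
      ext <;> simp [hp.2.1]
    · intro q _
      rfl
    · intro p hp
      simp only [mem_filter, mem_product] at hp
      rw [hp.2.1]
  rw [hsum, Finset.sum_filter, Finset.sum_product]
  have hk : ∀ k ∈ nz G ×ˢ nz G,
      ∑ f ∈ nz G, (if f ≠ k.2 then (cnt D h C k (k.1, f) : ℝ) else 0) ≤
        8 * T * G * (H : ℝ) ^ 2 * Int.gcd k.1 k.2 := by
    intro k hk
    rw [mem_product] at hk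
    have hk1 := (mem_nz.1 hk.1)
    have hk2 := (mem_nz.1 hk.2)
    rw [← Finset.sum_filter]
    have hcnt : ∀ f : ℤ, cnt D h C k (k.1, f) =
        (((BA D C).filter fun u => u.1 ∣ k.1 * h - k.2 * u.2 ^ 2 * h + D * k.1 * k.2 * u.2).filter
          (fun u => u.1 ∣ k.1 * h - f * u.2 ^ 2 * h + D * k.1 * f * u.2)).card := by
      intro f
      unfold cnt
      rw [Finset.filter_filter]
    simp only [hcnt]
    refine FM7_sum hM _ (fixed_g hM k hk.1 hk.2) ?_ _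
      (fun f u => u.1 ∣ k.1 * h - f * u.2 ^ 2 * h + D * k.1 * f * u.2) k.2 k.1 k.2 hk2.2 hk1.1 ?_ ?_
    · intro u hu
      rw [mem_filter, mem_BA] at hu
      exact hu.1.1.1
    · intro u hu f hf hr
      rw [mem_filter] at hu hf
      refine ⟨hf.1, hf.2, ?_⟩
      have e1 : k.1 * h * (f - k.2) =
          f * (k.1 * h - k.2 * u.2 ^ 2 * h + D * k.1 * k.2 * u.2) -
            k.2 * (k.1 * h - f * u.2 ^ 2 * h + D * k.1 * f * u.2) := by ring
      rw [e1]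
      exact dvd_sub (hu.2.mul_left _) (hr.mul_left _)
    · intro u hu
      rw [mem_filter, mem_BA] at hu
      obtain ⟨⟨_, _, _, hgcd, _⟩, hE⟩ := hu
      have d1 : (Int.gcd u.1 k.1 : ℤ) ∣ u.1 := Int.gcd_dvd_left ..
      have d2 : (Int.gcd u.1 k.1 : ℤ) ∣ k.1 := Int.gcd_dvd_right ..
      have d3 : (Int.gcd u.1 k.1 : ℤ) ∣ k.2 * h * u.2 ^ 2 := by
        have e1 : k.2 * h * u.2 ^ 2 = k.1 * (h + D * k.2 * u.2) -
            (k.1 * h - k.2 * u.2 ^ 2 * h + D * k.1 * k.2 * u.2) := by ring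
        rw [e1]
        exact dvd_sub (d2.mul_right _) (d1.trans hE)
      have hcop : IsCoprime (Int.gcd u.1 k.1 : ℤ) (u.2 ^ 2) := by
        have c1 : IsCoprime u.2 u.1 := Int.isCoprime_iff_gcd_eq_one.2 hgcd
        exact (c1.symm.of_isCoprime_of_dvd_left d1).pow_right
      exact hcop.dvd_of_dvd_mul_right d3
  refine (Finset.sum_le_sum hk).trans ?_
  rw [← Finset.mul_sum]
  have h3 := FM7_gcd hM
  have h4 : (0 : ℝ) ≤ 8 * T * G * (H : ℝ) ^ 2 := by positivity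
  refine (mul_le_mul_of_nonneg_left h3 h4).trans (le_of_eq (by ring))

/-- [FM7b] PROOF. The same with the roles exchanged: `f' = g'`, `f ≠ g`: `b ∣ f E(g,g') - g E(f,g') = - g' a² h (f - g)`, so
`b ∣ g' h (f - g) ≠ 0` (`gcd (a, b) = 1`); `gcd (b, g')` divides `g h`. -/
theorem equal2 (hM : MC ra N H Z V T n1 n2 C D h W G) :
    ∑ p ∈ ((nz G ×ˢ nz G) ×ˢ (nz G ×ˢ nz G)).filter
        (fun p : (ℤ × ℤ) × (ℤ × ℤ) => p.1.2 = p.2.2 ∧ p.1.1 ≠ p.2.1), (cnt D h C p.1 p.2 : ℝ) ≤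
      32 * T ^ 2 * (H : ℝ) ^ 2 * (G : ℝ) ^ 3 := by
  have hT := hM.T2
  have hsum : ∑ p ∈ ((nz G ×ˢ nz G) ×ˢ (nz G ×ˢ nz G)).filter
        (fun p : (ℤ × ℤ) × (ℤ × ℤ) => p.1.2 = p.2.2 ∧ p.1.1 ≠ p.2.1), (cnt D h C p.1 p.2 : ℝ) =
      ∑ q ∈ ((nz G ×ˢ nz G) ×ˢ nz G).filter (fun q : (ℤ × ℤ) × ℤ => q.2 ≠ q.1.1),
        (cnt D h C q.1 (q.2, q.1.2) : ℝ) := by
    refine Finset.sum_nbij' (fun p => (p.1, p.2.1)) (fun q => (q.1, (q.2, q.1.2))) ?_ ?_ ?_ ?_ ?_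
    · intro p hp
      simp only [mem_filter, mem_product] at hp ⊢
      exact ⟨⟨hp.1.1, hp.1.2.1⟩, fun e => hp.2.2 e.symm⟩
    · intro q hq
      simp only [mem_filter, mem_product] at hq ⊢
      exact ⟨⟨hq.1.1, hq.1.2, hq.1.1.2⟩, trivial, fun e => hq.2 e.symm⟩
    · intro p hp
      simp only [mem_filter, mem_product] at hp
      ext <;> simp [hp.2.1]
    · intro q _
      rfl
    · intro p hp
      simp only [mem_filter, mem_product] at hp
      rw [hp.2.1]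
  rw [hsum, Finset.sum_filter, Finset.sum_product]
  have hk : ∀ k ∈ nz G ×ˢ nz G,
      ∑ f ∈ nz G, (if f ≠ k.1 then (cnt D h C k (f, k.2) : ℝ) else 0) ≤
        8 * T * G * (H : ℝ) ^ 2 * Int.gcd k.1 k.2 := by
    intro k hk
    rw [mem_product] at hk
    have hk1 := (mem_nz.1 hk.1)
    have hk2 := (mem_nz.1 hk.2)
    rw [← Finset.sum_filter]
    have hcnt : ∀ f : ℤ, cnt D h C k (f, k.2) =
        (((BA D C).filter fun u => u.1 ∣ k.1 * h - k.2 * u.2 ^ 2 * h + D * k.1 * k.2 * u.2).filter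
          (fun u => u.1 ∣ f * h - k.2 * u.2 ^ 2 * h + D * f * k.2 * u.2)).card := by
      intro f
      unfold cnt
      rw [Finset.filter_filter]
    simp only [hcnt]
    rw [Int.gcd_comm k.1 k.2]
    refine FM7_sum hM _ (fixed_g hM k hk.1 hk.2) ?_ _
      (fun f u => u.1 ∣ f * h - k.2 * u.2 ^ 2 * h + D * f * k.2 * u.2) k.1 k.2 k.1 hk1.2 hk2.1 ?_ ?_
    · intro u hu
      rw [mem_filter, mem_BA] at hu
      exact hu.1.1.1
    · intro u hu f hf hr
      rw [mem_filter] at hf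
      rw [mem_filter, mem_BA] at hu
      obtain ⟨⟨_, _, _, hgcd, _⟩, hE⟩ := hu
      refine ⟨hf.1, hf.2, ?_⟩
      have e1 : k.2 * h * (f - k.1) * u.2 ^ 2 =
          k.1 * (f * h - k.2 * u.2 ^ 2 * h + D * f * k.2 * u.2) -
            f * (k.1 * h - k.2 * u.2 ^ 2 * h + D * k.1 * k.2 * u.2) := by ring
      have d1 : u.1 ∣ k.2 * h * (f - k.1) * u.2 ^ 2 := by
        rw [e1]
        exact dvd_sub (hr.mul_left _) (hE.mul_left _)
      have hcop : IsCoprime u.1 (u.2 ^ 2) := by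
        have c1 : IsCoprime u.2 u.1 := Int.isCoprime_iff_gcd_eq_one.2 hgcd
        exact c1.symm.pow_right
      exact hcop.dvd_of_dvd_mul_right d1
    · intro u hu
      rw [mem_filter, mem_BA] at hu
      obtain ⟨⟨_, _, _, hgcd, _⟩, hE⟩ := hu
      have d1 : (Int.gcd u.1 k.2 : ℤ) ∣ u.1 := Int.gcd_dvd_left ..
      have d2 : (Int.gcd u.1 k.2 : ℤ) ∣ k.2 := Int.gcd_dvd_right ..
      have e1 : k.1 * h = (k.1 * h - k.2 * u.2 ^ 2 * h + D * k.1 * k.2 * u.2) -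
          k.2 * (D * k.1 * u.2 - u.2 ^ 2 * h) := by ring
      rw [e1]
      exact dvd_sub (d1.trans hE) (d2.mul_right _)
  refine (Finset.sum_le_sum hk).trans ?_
  rw [← Finset.mul_sum]
  have h3 := FM7_gcd hM
  have h4 : (0 : ℝ) ≤ 8 * T * G * (H : ℝ) ^ 2 := by positivity
  refine (mul_le_mul_of_nonneg_left h3 h4).trans (le_of_eq (by ring))

end Pool.Agent.TIA.FM
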