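import Pool.Agent.TII.GC4
import Pool.Agent.TIA.FM6
import Pool.Agent.TIA.FM7
import Pool.Agent.TIA.FM8

/-!
# [TII-FM11] the sum of the squares of `mp`
-/

set_option autoImplicit false

namespace Pool.Agent.TIA.FM

open Finset Pool.Agent.TII

variable {ra : ℤ}

variable {N H Z V : ℕ} {T : ℝ} {n1 n2 C : ℕ} {D h W : ℤ} {G : ℕ}

/-- the quadruples `(g, f)` -/
noncomputable def QQ (G : ℕ) : Finset ((ℤ × ℤ) × (ℤ × ℤ)) := (nz G ×ˢ nz G) ×ˢ (nz G ×ˢ nz G)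

theorem mp_sq_eq (D h : ℤ) (C G : ℕ) :
    ∑ u ∈ BA D C, (mp D h G u.1 u.2 : ℝ) ^ 2 = ∑ p ∈ QQ G, (cnt D h C p.1 p.2 : ℝ) := by
  have h1 : ∀ u : ℤ × ℤ, (mp D h G u.1 u.2 : ℝ) ^ 2 = ∑ p ∈ QQ G,
      (if (u.1 ∣ p.1.1 * h - p.1.2 * u.2 ^ 2 * h + D * p.1.1 * p.1.2 * u.2) ∧
        (u.1 ∣ p.2.1 * h - p.2.2 * u.2 ^ 2 * h + D * p.2.1 * p.2.2 * u.2) then (1 : ℝ) else 0) := by
    intro u
    unfold mp QQ
    rw [sq, ← Nat.cast_mul, ← Finset.card_product, ← Finset.filter_product]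
    rw [Finset.sum_ite, Finset.sum_const, Finset.sum_const_zero, add_zero, nsmul_eq_mul, mul_one]
  rw [Finset.sum_congr rfl (fun u _ => h1 u), Finset.sum_comm]
  apply Finset.sum_congr rfl
  intro p _
  unfold cnt
  rw [Finset.sum_ite, Finset.sum_const, Finset.sum_const_zero, add_zero, nsmul_eq_mul, mul_one]

theorem MC.G1 (hM : MC ra N H Z V T n1 n2 C D h W G) : 1 ≤ G := by
  have h1 := hM.N1
  have h2 := hM.lo
  rw [hM.G_eq, Nat.le_div_iff_mul_le (by omega), one_mul]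
  nlinarith

theorem MC.GV (hM : MC ra N H Z V T n1 n2 C D h W G) : (8 * G) ^ 6 ≤ V := by
  have h1 := hM.N1
  have h2 := hM.G_le_N2
  refine le_trans ?_ hM.par.hV
  have h3 : 8 * G ≤ N ^ 3 := by
    calc 8 * G ≤ N * N ^ 2 := Nat.mul_le_mul (by omega) h2
      _ = N ^ 3 := by ring
  calc (8 * G) ^ 6 ≤ (N ^ 3) ^ 6 := Nat.pow_le_pow_left h3 6
    _ = N ^ 18 := by ring
    _ ≤ N ^ 100 := Nat.pow_le_pow_right (by omega) (by norm_num)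

theorem W1_eq (g f : ℤ × ℤ) : W1 g f = TII.W1 (g.1, g.2, f.1, f.2) := by
  unfold W1 TII.W1
  simp only [Int.gcd, Int.natAbs_natCast]
  rw [Nat.gcd_assoc]
  congr 2
  · rw [show g.1 * f.1 * (g.2 - f.2) = f.1 * g.1 * (g.2 - f.2) by ring]
  · rw [show g.2 * f.2 * (g.1 - f.1) = -(f.2 * g.2 * (f.1 - g.1)) by ring, Int.natAbs_neg]

theorem sum_W1 (hM : MC ra N H Z V T n1 n2 C D h W G) :
    ∑ p ∈ (QQ G).filter (fun p => p.1.2 * p.2.1 ≠ p.1.1 * p.2.2 ∧ p.1.1 ≠ p.2.1 ∧ p.1.2 ≠ p.2.2),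
      (W1 p.1 p.2 : ℝ) ≤ 180 * T ^ 4 * (G : ℝ) ^ 4 := by
  refine le_trans ?_ (gcd_sum_explicit hM.par.loss hM.G1 hM.GV)
  set F : (ℤ × ℤ) × (ℤ × ℤ) → ℤ × ℤ × ℤ × ℤ := fun p => (p.1.1, p.1.2, p.2.1, p.2.2) with hF
  have hinj : Function.Injective F := by
    intro p q hpq
    simp only [hF, Prod.mk.injEq] at hpq
    obtain ⟨a, b, c, d⟩ := hpq
    ext <;> assumption
  calc ∑ p ∈ (QQ G).filter (fun p => p.1.2 * p.2.1 ≠ p.1.1 * p.2.2 ∧ p.1.1 ≠ p.2.1 ∧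
        p.1.2 ≠ p.2.2), (W1 p.1 p.2 : ℝ)
      = ∑ p ∈ (QQ G).filter (fun p => p.1.2 * p.2.1 ≠ p.1.1 * p.2.2 ∧ p.1.1 ≠ p.2.1 ∧
        p.1.2 ≠ p.2.2), (TII.W1 (F p) : ℝ) := by
        apply Finset.sum_congr rfl
        intro p _
        rw [W1_eq]
    _ = ∑ q ∈ ((QQ G).filter (fun p => p.1.2 * p.2.1 ≠ p.1.1 * p.2.2 ∧ p.1.1 ≠ p.2.1 ∧
        p.1.2 ≠ p.2.2)).image F, (TII.W1 q : ℝ) := by
        rw [Finset.sum_image (fun a _ b _ hab => hinj hab)]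
    _ ≤ _ := by
        apply Finset.sum_le_sum_of_subset_of_nonneg
        · intro q hq
          rw [Finset.mem_image] at hq
          obtain ⟨p, hp, rfl⟩ := hq
          simp only [QQ, Finset.mem_filter, Finset.mem_product, mem_nz] at hp
          obtain ⟨⟨⟨⟨a1, b1⟩, ⟨a2, b2⟩⟩, ⟨⟨a3, b3⟩, ⟨a4, b4⟩⟩⟩, h1, h2, h3⟩ := hp
          rw [Finset.mem_filter]
          refine ⟨?_, a1, a2, a3, a4, h2, h3, sub_ne_zero.mpr h1⟩
          unfold TII.box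
          simp only [hF, Finset.mem_product, Finset.mem_Icc]
          refine ⟨by omega, by omega, by omega, by omega⟩
        · intro _ _ _; positivity

/-- the bound for the second moment of `mp` -/
theorem TT2 (hM : MC ra N H Z V T n1 n2 C D h W G) :
    ∑ u ∈ BA D C, (mp D h G u.1 u.2 : ℝ) ^ 2 ≤
      16 * T ^ 2 * C * (G : ℝ) ^ 2 + 64 * T ^ 2 * (H : ℝ) ^ 2 * (G : ℝ) ^ 3 +
        180 * T ^ 5 * H * (G : ℝ) ^ 4 := by
  rw [mp_sq_eq]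
  have hT := hM.T2
  have hpar := parallel hM
  have he1 := equal1 hM
  have he2 := equal2 hM
  have hgen : ∑ p ∈ (QQ G).filter (fun p => p.1.2 * p.2.1 ≠ p.1.1 * p.2.2 ∧ p.1.1 ≠ p.2.1 ∧
      p.1.2 ≠ p.2.2), (cnt D h C p.1 p.2 : ℝ) ≤ 180 * T ^ 5 * H * (G : ℝ) ^ 4 := by
    have h1 : ∀ p ∈ (QQ G).filter (fun p => p.1.2 * p.2.1 ≠ p.1.1 * p.2.2 ∧ p.1.1 ≠ p.2.1 ∧
        p.1.2 ≠ p.2.2), (cnt D h C p.1 p.2 : ℝ) ≤ T * H * W1 p.1 p.2 := by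
      intro p hp
      simp only [QQ, Finset.mem_filter, Finset.mem_product] at hp
      obtain ⟨⟨⟨a1, a2⟩, ⟨a3, a4⟩⟩, h1, h2, h3⟩ := hp
      exact generic hM p.1 p.2 a1 a2 a3 a4 h1 h2 h3
    refine (Finset.sum_le_sum h1).trans ?_
    rw [← Finset.mul_sum]
    calc T * H * _ ≤ T * H * (180 * T ^ 4 * (G : ℝ) ^ 4) := by
          apply mul_le_mul_of_nonneg_left (sum_W1 hM) (by positivity)
      _ = _ := by ring
  have hsplit : ∀ p ∈ QQ G, (cnt D h C p.1 p.2 : ℝ) ≤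
      (if p.1.2 * p.2.1 = p.1.1 * p.2.2 then (cnt D h C p.1 p.2 : ℝ) else 0) +
      (if p.1.1 = p.2.1 ∧ p.1.2 ≠ p.2.2 then (cnt D h C p.1 p.2 : ℝ) else 0) +
      (if p.1.2 = p.2.2 ∧ p.1.1 ≠ p.2.1 then (cnt D h C p.1 p.2 : ℝ) else 0) +
      (if p.1.2 * p.2.1 ≠ p.1.1 * p.2.2 ∧ p.1.1 ≠ p.2.1 ∧ p.1.2 ≠ p.2.2 then
        (cnt D h C p.1 p.2 : ℝ) else 0) := by
    intro p _
    have hc : (0 : ℝ) ≤ cnt D h C p.1 p.2 := by positivity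
    by_cases k1 : p.1.2 * p.2.1 = p.1.1 * p.2.2
    · rw [if_pos k1]
      have : ∀ (P : Prop) [Decidable P], 0 ≤ (if P then (cnt D h C p.1 p.2 : ℝ) else 0) := by
        intro P _; split_ifs <;> linarith
      linarith [this (p.1.1 = p.2.1 ∧ p.1.2 ≠ p.2.2), this (p.1.2 = p.2.2 ∧ p.1.1 ≠ p.2.1),
        this (p.1.2 * p.2.1 ≠ p.1.1 * p.2.2 ∧ p.1.1 ≠ p.2.1 ∧ p.1.2 ≠ p.2.2)]
    · by_cases k2 : p.1.1 = p.2.1
      · have k3 : p.1.2 ≠ p.2.2 := by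
          intro k3; apply k1; rw [k2, k3]; ring
        rw [if_neg k1, if_pos ⟨k2, k3⟩, if_neg (by tauto), if_neg (by tauto)]
        linarith
      · by_cases k3 : p.1.2 = p.2.2
        · rw [if_neg k1, if_neg (by tauto), if_pos ⟨k3, k2⟩, if_neg (by tauto)]
          linarith
        · rw [if_neg k1, if_neg (by tauto), if_neg (by tauto), if_pos ⟨k1, k2, k3⟩]
          linarith
  calc ∑ p ∈ QQ G, (cnt D h C p.1 p.2 : ℝ) ≤ _ := Finset.sum_le_sum hsplit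
    _ ≤ _ := by
        rw [Finset.sum_add_distrib, Finset.sum_add_distrib, Finset.sum_add_distrib,
          ← Finset.sum_filter, ← Finset.sum_filter, ← Finset.sum_filter, ← Finset.sum_filter]
        unfold QQ at hgen ⊢
        linarith

/-- the same in terms of `C` and `N` -/
theorem TT2' (hM : MC ra N H Z V T n1 n2 C D h W G) :
    ∑ u ∈ BA D C, (mp D h G u.1 u.2 : ℝ) ^ 2 ≤
      6 * 10 ^ 8 * T ^ 5 * (H : ℝ) ^ 5 * ((C : ℝ) ^ 3 * ((N : ℝ) ^ 2 + C) / (N : ℝ) ^ 4) := by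
  refine (TT2 hM).trans ?_
  have hT := hM.T2
  have hH : (1 : ℝ) ≤ H := by exact_mod_cast hM.H1
  have hN : (20000 : ℝ) ≤ N := by exact_mod_cast hM.N1
  have hC : (N : ℝ) ≤ C := by exact_mod_cast hM.lo
  have hG := hM.G_le
  have hGC : (G : ℝ) ≤ C := by exact_mod_cast hM.G_le_C
  have hG0 : (0 : ℝ) ≤ G := by positivity
  set x : ℝ := 42 * H * C / N with hx
  have hx0 : 0 ≤ x := by positivity
  have g2 : (G : ℝ) ^ 2 ≤ x ^ 2 := pow_le_pow_left₀ hG0 hG 2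
  have g4 : (G : ℝ) ^ 4 ≤ x ^ 4 := pow_le_pow_left₀ hG0 hG 4
  have g3 : (G : ℝ) ^ 3 ≤ C * x ^ 2 := by
    calc (G : ℝ) ^ 3 = G * G ^ 2 := by ring
      _ ≤ C * x ^ 2 := mul_le_mul hGC g2 (by positivity) (by positivity)
  have hT25 : T ^ 2 ≤ T ^ 5 := pow_le_pow_right₀ (by linarith) (by norm_num)
  have hT2p : (0 : ℝ) ≤ T ^ 2 := by positivity
  have hH2 : (H : ℝ) ^ 2 ≥ 1 := one_le_pow₀ hH
  -- each term
  have t1 : 16 * T ^ 2 * C * (G : ℝ) ^ 2 ≤ 16 * T ^ 5 * (H : ℝ) ^ 2 * (C * x ^ 2) := by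
    calc 16 * T ^ 2 * C * (G : ℝ) ^ 2 ≤ 16 * T ^ 2 * C * x ^ 2 :=
          mul_le_mul_of_nonneg_left g2 (by positivity)
      _ = 16 * T ^ 2 * 1 * (C * x ^ 2) := by ring
      _ ≤ 16 * T ^ 5 * (H : ℝ) ^ 2 * (C * x ^ 2) := by
          apply mul_le_mul_of_nonneg_right _ (by positivity)
          apply mul_le_mul (by linarith) hH2 (by norm_num) (by positivity)
  have t2 : 64 * T ^ 2 * (H : ℝ) ^ 2 * (G : ℝ) ^ 3 ≤ 64 * T ^ 5 * (H : ℝ) ^ 2 * (C * x ^ 2) := by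
    apply mul_le_mul _ g3 (by positivity) (by positivity)
    apply mul_le_mul_of_nonneg_right _ (by positivity)
    linarith
  have t3 : 180 * T ^ 5 * H * (G : ℝ) ^ 4 ≤ 180 * T ^ 5 * H * x ^ 4 :=
    mul_le_mul_of_nonneg_left g4 (by positivity)
  have hNpos : (0 : ℝ) < N := by linarith
  have e1 : C * x ^ 2 = 1764 * (H : ℝ) ^ 2 * ((C : ℝ) ^ 3 / (N : ℝ) ^ 2) := by
    rw [hx]; field_simp; ring
  have e2 : x ^ 4 = 3111696 * (H : ℝ) ^ 4 * ((C : ℝ) ^ 4 / (N : ℝ) ^ 4) := by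
    rw [hx]; field_simp; ring
  have e3 : (C : ℝ) ^ 3 * ((N : ℝ) ^ 2 + C) / (N : ℝ) ^ 4 =
      (C : ℝ) ^ 3 / (N : ℝ) ^ 2 + (C : ℝ) ^ 4 / (N : ℝ) ^ 4 := by
    field_simp
  rw [e3]
  rw [e1] at t1 t2
  rw [e2] at t3
  set u1 : ℝ := (C : ℝ) ^ 3 / (N : ℝ) ^ 2 with hu1
  set u2 : ℝ := (C : ℝ) ^ 4 / (N : ℝ) ^ 4 with hu2
  have hu1p : 0 ≤ u1 := by positivity
  have hu2p : 0 ≤ u2 := by positivity
  have s1 : 16 * T ^ 5 * (H : ℝ) ^ 2 * (1764 * (H : ℝ) ^ 2 * u1) ≤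
      16 * 1764 * T ^ 5 * (H : ℝ) ^ 5 * u1 := by
    have : (H : ℝ) ^ 4 ≤ (H : ℝ) ^ 5 := pow_le_pow_right₀ hH (by norm_num)
    calc _ = 16 * 1764 * T ^ 5 * (H : ℝ) ^ 4 * u1 := by ring
      _ ≤ _ := by
        apply mul_le_mul_of_nonneg_right _ hu1p
        exact mul_le_mul_of_nonneg_left this (by positivity)
  have s2 : 64 * T ^ 5 * (H : ℝ) ^ 2 * (1764 * (H : ℝ) ^ 2 * u1) ≤
      64 * 1764 * T ^ 5 * (H : ℝ) ^ 5 * u1 := by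
    have : (H : ℝ) ^ 4 ≤ (H : ℝ) ^ 5 := pow_le_pow_right₀ hH (by norm_num)
    calc _ = 64 * 1764 * T ^ 5 * (H : ℝ) ^ 4 * u1 := by ring
      _ ≤ _ := by
        apply mul_le_mul_of_nonneg_right _ hu1p
        exact mul_le_mul_of_nonneg_left this (by positivity)
  have s3 : 180 * T ^ 5 * H * (3111696 * (H : ℝ) ^ 4 * u2) =
      180 * 3111696 * T ^ 5 * (H : ℝ) ^ 5 * u2 := by ring
  have hTH : 0 ≤ T ^ 5 * (H : ℝ) ^ 5 := by positivity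
  have f1 : 0 ≤ T ^ 5 * (H : ℝ) ^ 5 * u1 := by positivity
  have f2 : 0 ≤ T ^ 5 * (H : ℝ) ^ 5 * u2 := by positivity
  nlinarith

end Pool.Agent.TIA.FM
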