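import Pool.Agent.TIA.FM0

/-!
# [TII-FM2] A is bounded by the sum of mm
-/

set_option autoImplicit false

namespace Pool.Agent.TIA.FM

open Finset Pool.Agent.TII

variable {ra : ℤ}

variable {N H Z V : ℕ} {T : ℝ} {n1 n2 C : ℕ} {D h W : ℤ} {G : ℕ}

private theorem FM2_mem_AA {p : (ℤ × ℤ × ℤ × ℤ) × (ℤ × ℤ × ℤ × ℤ)} : p ∈ AA D h W C N ↔
    (p.1 ∈ GG D h W C ∧ p.2 ∈ GG D h W C) ∧ p.1.1 = p.2.1 ∧ p.1.2.1 = p.2.2.1 ∧
      2 * |p.1.2.2.1 - p.2.2.2.1| ≤ p.1.1 * N ∧ 2 * |p.1.2.2.2 - p.2.2.2.2| ≤ p.1.1 * N := by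
  unfold AA
  rw [mem_filter, mem_product]

/-- the shifts of a pair in `AA` -/
private theorem FM2_shift (hM : MC ra N H Z V T n1 n2 C D h W G)
    {p : (ℤ × ℤ × ℤ × ℤ) × (ℤ × ℤ × ℤ × ℤ)} (hp : p ∈ AA D h W C N) :
    ∃ e e' : ℤ, 0 < p.2.1 ∧ p.1.2.2.1 - p.2.2.2.1 = p.2.1 * e ∧
      p.1.2.2.2 - p.2.2.2.2 = p.2.1 * e' ∧ 2 * |e| ≤ N ∧ 2 * |e'| ≤ N ∧
      D ∣ e' * (p.2.2.2.1 % D) ^ 2 - h ^ 2 * e + p.2.1 * e * e' * (p.2.2.2.1 % D) ∧
      ((e = 0 ∧ e' = 0) ∨ (e ≠ 0 ∧ e' ≠ 0)) := by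
  rw [FM2_mem_AA] at hp
  obtain ⟨⟨hg1, hg2⟩, hb, ha, hd1, hd2⟩ := hp
  have hcop := GG_cop hM.hcop hg2
  have hm1 := mem_GG.mp hg1
  have hm2 := mem_GG.mp hg2
  obtain ⟨⟨⟨b1, a1, t1, t1'⟩, ⟨b, a, t, t'⟩⟩, rfl⟩ : ∃ q, q = p := ⟨p, rfl⟩
  simp only at hm1 hm2 hb ha hd1 hd2 hcop ⊢
  subst hb ha
  obtain ⟨-, -, -, -, -, -, -, h1, h2, h3⟩ := hm1
  obtain ⟨⟨hbC, -⟩, -, -, -, -, hab, hbD, h4, h5, h6⟩ := hm2
  have hN := hM.N1
  have hlo := hM.lo
  have hb0 : 0 < b1 := by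
    have : (0 : ℤ) < C := by exact_mod_cast (by omega : 0 < C)
    linarith
  obtain ⟨e, he⟩ : b1 ∣ t1 - t := by
    have := dvd_sub h1 h4
    rwa [show t1 + a1 * h - (t + a1 * h) = t1 - t by ring] at this
  obtain ⟨e', he'⟩ : b1 ∣ t1' - t' := by
    have h7 := dvd_sub h2 h5
    rw [show a1 * t1' - h - (a1 * t' - h) = a1 * (t1' - t') by ring] at h7
    exact (Int.isCoprime_iff_gcd_eq_one.mpr hab).symm.dvd_of_dvd_mul_left h7
  have hle : ∀ x y : ℤ, x = b1 * y → 2 * |x| ≤ b1 * N → 2 * |y| ≤ N := by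
    intro x y hxy hx
    rw [hxy, abs_mul, abs_of_pos hb0] at hx
    have : b1 * (2 * |y|) ≤ b1 * N := by linarith
    exact le_of_mul_le_mul_left this hb0
  have hel := hle _ _ he hd1
  have hel' := hle _ _ he' hd2
  have hD1 : D ∣ e * t' + e' * t + b1 * e * e' := by
    have h7 := dvd_sub h3 h6
    have e1 : t1 = t + b1 * e := by linarith
    have e2 : t1' = t' + b1 * e' := by linarith
    rw [e1, e2, show (t + b1 * e) * (t' + b1 * e') + h ^ 2 - (t * t' + h ^ 2) =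
      b1 * (e * t' + e' * t + b1 * e * e') by ring] at h7
    exact (Int.isCoprime_iff_gcd_eq_one.mpr hbD).symm.dvd_of_dvd_mul_left h7
  have hD2 : D ∣ e' * t ^ 2 - h ^ 2 * e + b1 * e * e' * t := by
    have h7 := dvd_sub (Dvd.dvd.mul_left hD1 t) (Dvd.dvd.mul_left h6 e)
    rwa [show t * (e * t' + e' * t + b1 * e * e') - e * (t * t' + h ^ 2) =
      e' * t ^ 2 - h ^ 2 * e + b1 * e * e' * t by ring] at h7
  have hD3 : D ∣ e' * (t % D) ^ 2 - h ^ 2 * e + b1 * e * e' * (t % D) := by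
    obtain ⟨k, hk⟩ : D ∣ t - t % D := Int.dvd_self_sub_emod
    obtain ⟨l, hl⟩ := hD2
    refine ⟨l - e' * k * (t + t % D) - b1 * e * e' * k, ?_⟩
    have hk' : t - t % D = D * k := hk
    generalize t % D = s at hk' ⊢
    linear_combination hl - (e' * (t + s) + b1 * e * e') * hk'
  have hDN : (N : ℤ) < D := by
    have h7 := hM.D_lo
    have h8 : (1 : ℤ) ≤ N := by exact_mod_cast (by omega : 1 ≤ N)
    nlinarith
  have hzero : ∀ x : ℤ, 2 * |x| ≤ N → D ∣ x → x = 0 := by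
    intro x hx hd
    apply Int.eq_zero_of_abs_lt_dvd hd
    have := abs_nonneg x
    linarith
  refine ⟨e, e', hb0, he, he', hel, hel', hD3, ?_⟩
  by_cases h0 : e = 0
  · left
    refine ⟨h0, ?_⟩
    apply hzero e' hel'
    rw [h0] at hD1
    have h7 : D ∣ e' * t := by
      rwa [show 0 * t' + e' * t + b1 * 0 * e' = e' * t by ring] at hD1
    exact hcop.symm.dvd_of_dvd_mul_right h7
  · right
    refine ⟨h0, ?_⟩
    intro h0'
    apply h0
    apply hzero e hel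
    rw [h0'] at hD2
    have h7 : D ∣ h ^ 2 * e := by
      have := (dvd_neg).mpr hD2
      rwa [show -(0 * t ^ 2 - h ^ 2 * e + b1 * e * 0 * t) = h ^ 2 * e by ring] at this
    exact (hM.hcop.pow_left (m := 2)).symm.dvd_of_dvd_mul_left h7

/-- [FM2] PROOF. Map `(u1, u2) ∈ AA` to `(u2, e, e')`, `τ₁ = τ₂ + b e`, `τ₁' = τ₂' + b e'`
(`b ∣ τ₁ - τ₂` since both are `≡ - a h`; `b ∣ a (τ₁' - τ₂')` and `gcd (a, b) = 1`). This is injective
(`b, a` are common, `b > 0`). `2 |e|, 2 |e'| ≤ N`. From `D ∣ τ₁ τ₁' + h²`, `D ∣ τ₂ τ₂' + h²`,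
`gcd (b, D) = 1`: `D ∣ e τ₂' + e' τ₂ + b e e'`; multiply by `τ₂` and use `τ₂ τ₂' ≡ - h²`:
`D ∣ e' τ₂² - h² e + b e e' τ₂`, which depends only on `τ₂ mod D`, so
`(e, e')` is counted by `mm D h N b (τ₂ % D)` if `e ≠ 0` and `e' ≠ 0`. If `e = 0` then `D ∣ e' τ₂`, and
`gcd (τ₂, D) = 1` (a prime `n_i ∣ τ₂` would divide `h²`, see `MC.ncop`), so `D ∣ e'`, `e' = 0`
(`MC.cop`: a nonzero `e'` with `|e'| ≤ N` is coprime to `D > 1`). If `e' = 0` then `D ∣ h² e`, so `e = 0`.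
So the pairs with `e = 0` or `e' = 0` have `u1 = u2`: at most `|GG|`. -/
theorem AA_le (hM : MC ra N H Z V T n1 n2 C D h W G) :
    ((AA D h W C N).card : ℝ) ≤ (GG D h W C).card +
      ∑ u ∈ GG D h W C, (mm D h N u.1 (u.2.2.1 % D) : ℝ) := by
  have hmaps : ∀ p ∈ AA D h W C N, p.2 ∈ GG D h W C := fun p hp => (FM2_mem_AA.mp hp).1.2
  have h1 : (AA D h W C N).card =
      ∑ u ∈ GG D h W C, ((AA D h W C N).filter fun p => p.2 = u).card :=
    Finset.card_eq_sum_card_fiberwise (f := Prod.snd) (t := GG D h W C) hmaps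
  have h2 : ∀ u ∈ GG D h W C, ((AA D h W C N).filter fun p => p.2 = u).card ≤
      1 + mm D h N u.1 (u.2.2.1 % D) := by
    intro u _
    have h3 : ((AA D h W C N).filter fun p => p.2 = u).card ≤
        (insert ((0 : ℤ), (0 : ℤ)) ((EE N ×ˢ EE N).filter fun e : ℤ × ℤ =>
          D ∣ e.2 * (u.2.2.1 % D) ^ 2 - h ^ 2 * e.1 + u.1 * e.1 * e.2 * (u.2.2.1 % D))).card := by
      apply Finset.card_le_card_of_injOn
        (fun p => ((p.1.2.2.1 - u.2.2.1) / u.1, (p.1.2.2.2 - u.2.2.2) / u.1))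
      · intro p hp
        simp only [Finset.coe_filter, Set.mem_ofPred_eq] at hp
        obtain ⟨hp1, rfl⟩ := hp
        obtain ⟨e, e', hb0, he, he', hel, hel', hD3, hcase⟩ := FM2_shift hM hp1
        rw [Finset.mem_coe]
        show ((p.1.2.2.1 - p.2.2.2.1) / p.2.1, (p.1.2.2.2 - p.2.2.2.2) / p.2.1) ∈ _
        rw [he, he', Int.mul_ediv_cancel_left _ hb0.ne', Int.mul_ediv_cancel_left _ hb0.ne']
        rcases hcase with ⟨rfl, rfl⟩ | ⟨h0, h0'⟩
        · exact Finset.mem_insert_self _ _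
        · apply Finset.mem_insert_of_mem
          rw [mem_filter, mem_product, mem_EE, mem_EE]
          exact ⟨⟨⟨h0, hel⟩, h0', hel'⟩, hD3⟩
      · intro p hp q hq heq
        simp only [Finset.coe_filter, Set.mem_ofPred_eq] at hp hq
        obtain ⟨hp1, hp2⟩ := hp
        obtain ⟨hq1, hq2⟩ := hq
        obtain ⟨e, e', hb0, he, he', -, -, -, -⟩ := FM2_shift hM hp1
        obtain ⟨f, f', hb0', hf, hf', -, -, -, -⟩ := FM2_shift hM hq1
        have hpA := FM2_mem_AA.mp hp1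
        have hqA := FM2_mem_AA.mp hq1
        rw [hp2] at he he' hb0 hpA
        rw [hq2] at hf hf' hqA
        simp only [Prod.mk.injEq] at heq
        rw [he, he', hf, hf', Int.mul_ediv_cancel_left _ hb0.ne',
          Int.mul_ediv_cancel_left _ hb0.ne', Int.mul_ediv_cancel_left _ hb0.ne',
          Int.mul_ediv_cancel_left _ hb0.ne'] at heq
        obtain ⟨rfl, rfl⟩ := heq
        refine Prod.ext ?_ (hp2.trans hq2.symm)
        refine Prod.ext (hpA.2.1.trans hqA.2.1.symm) (Prod.ext (hpA.2.2.1.trans hqA.2.2.1.symm)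
          (Prod.ext ?_ ?_))
        · linarith
        · linarith
    refine h3.trans ((Finset.card_insert_le _ _).trans ?_)
    unfold mm
    omega
  have h4 : (AA D h W C N).card ≤ (GG D h W C).card +
      ∑ u ∈ GG D h W C, mm D h N u.1 (u.2.2.1 % D) := by
    rw [h1]
    refine (Finset.sum_le_sum h2).trans ?_
    rw [Finset.sum_add_distrib]
    simp
  exact_mod_cast h4

end Pool.Agent.TIA.FM
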