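import Pool.Agent.TIA.FM0

/-!
# [TII-FM3] the sum of the squares of mm
-/

set_option autoImplicit false

namespace Pool.Agent.TIA.FM

open Finset Pool.Agent.TII

variable {ra : ℤ}

variable {N H Z V : ℕ} {T : ℝ} {n1 n2 C : ℕ} {D h W : ℤ} {G : ℕ}

/-- the congruence -/
private def fm3E (D h : ℤ) (b ξ : ℤ) (e : ℤ × ℤ) : Prop :=
  D ∣ e.2 * ξ ^ 2 - h ^ 2 * e.1 + b * e.1 * e.2 * ξ

/-- a residue class in an interval of length `C` -/
private theorem fm3_class (D : ℤ) (hD : 0 < D) (C : ℕ) (S : Finset ℤ)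
    (hS : ∀ b ∈ S, (C : ℤ) ≤ b ∧ b < 2 * C) (h : ∀ b ∈ S, ∀ b' ∈ S, D ∣ b - b') :
    S.card ≤ C / D.toNat + 1 := by
  have hDn : (D.toNat : ℤ) = D := Int.toNat_of_nonneg hD.le
  have hcard : (Ico (0 : ℤ) (((C / D.toNat + 1 : ℕ) : ℤ))).card = C / D.toNat + 1 := by
    rw [Int.card_Ico, sub_zero, Int.toNat_natCast]
  rw [← hcard]
  apply Finset.card_le_card_of_injOn (fun b => (b - C) / D)
  · intro b hb
    obtain ⟨h1, h2⟩ := hS b hb
    simp only [Finset.coe_Ico, Set.mem_Ico]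
    constructor
    · exact Int.ediv_nonneg (by linarith) hD.le
    · push_cast
      rw [hDn]
      have : (b - C) / D ≤ (C : ℤ) / D := Int.ediv_le_ediv hD (by linarith)
      linarith
  · intro b hb b' hb' heq
    obtain ⟨k, hk⟩ := h b hb b' hb'
    simp only at heq
    have e : b - C = (b' - C) + D * k := by linarith
    rw [e, Int.add_mul_ediv_left _ _ hD.ne'] at heq
    have hk0 : k = 0 := by linarith
    rw [hk0] at hk
    linarith

private theorem fm3_unit (hM : MC ra N H Z V T n1 n2 C D h W G) {e : ℤ × ℤ}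
    (he : e ∈ EE N ×ˢ EE N) : IsCoprime (e.1 * e.2) D := by
  obtain ⟨h1, h2⟩ := Finset.mem_product.1 he
  rw [mem_EE] at h1 h2
  exact (hM.cop _ h1.1 (by have := abs_nonneg e.1; linarith [h1.2])).mul_left
    (hM.cop _ h2.1 (by have := abs_nonneg e.2; linarith [h2.2]))

/-- for one `ξ` at most `C / D + 1` values of `b` -/
private theorem fm3_b (hM : MC ra N H Z V T n1 n2 C D h W G) {e : ℤ × ℤ}
    (he : e ∈ EE N ×ˢ EE N) (ξ : ℤ) (S : Finset (ℤ × ℤ)) (hS : S ⊆ BX D C)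
    (hS2 : ∀ u ∈ S, u.2 = ξ ∧ fm3E D h u.1 u.2 e) : S.card ≤ C / D.toNat + 1 := by
  classical
  have hD := hM.D_pos
  have h1 : (S.image Prod.fst).card = S.card := by
    apply Finset.card_image_of_injOn
    intro u hu v hv huv
    exact Prod.ext huv ((hS2 u hu).1.trans (hS2 v hv).1.symm)
  rw [← h1]
  apply fm3_class D hD
  · intro b hb
    obtain ⟨u, hu, rfl⟩ := Finset.mem_image.1 hb
    exact (mem_BX.1 (hS hu)).1
  · intro b hb b' hb'
    obtain ⟨u, hu, rfl⟩ := Finset.mem_image.1 hb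
    obtain ⟨v, hv, rfl⟩ := Finset.mem_image.1 hb'
    obtain ⟨h2, h3⟩ := hS2 u hu
    obtain ⟨h4, h5⟩ := hS2 v hv
    rw [h2] at h3
    rw [h4] at h5
    unfold fm3E at h3 h5
    have h6 := dvd_sub h3 h5
    have e1 : e.2 * ξ ^ 2 - h ^ 2 * e.1 + u.1 * e.1 * e.2 * ξ -
        (e.2 * ξ ^ 2 - h ^ 2 * e.1 + v.1 * e.1 * e.2 * ξ) = (e.1 * e.2 * ξ) * (u.1 - v.1) := by ring
    rw [e1] at h6
    have h7 : IsCoprime ξ D := by
      have := (mem_BX.1 (hS hu)).2.2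
      rw [h2] at this
      exact Int.isCoprime_iff_gcd_eq_one.2 this
    exact (((fm3_unit hM he).mul_left h7).symm).dvd_of_dvd_mul_left h6

private theorem fm3_diag (hM : MC ra N H Z V T n1 n2 C D h W G) {e : ℤ × ℤ}
    (he : e ∈ EE N ×ˢ EE N) [DecidablePred fun u : ℤ × ℤ => fm3E D h u.1 u.2 e] :
    ((BX D C).filter fun u => fm3E D h u.1 u.2 e).card ≤ (C / D.toNat + 1) * D.toNat := by
  classical
  have hD := hM.D_pos
  set S := (BX D C).filter fun u => fm3E D h u.1 u.2 e with hS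
  have h1 := Finset.card_le_mul_card_image (f := Prod.snd) S (C / D.toNat + 1) (by
    intro ξ _
    refine fm3_b hM he ξ _ ?_ ?_
    · exact (Finset.filter_subset _ _).trans (Finset.filter_subset _ _)
    · intro u hu
      obtain ⟨h2, h3⟩ := Finset.mem_filter.1 hu
      exact ⟨h3, (Finset.mem_filter.1 h2).2⟩)
  refine h1.trans (Nat.mul_le_mul_left _ ?_)
  have h2 : S.image Prod.snd ⊆ Ico (0 : ℤ) D := by
    intro ξ hξ
    obtain ⟨u, hu, rfl⟩ := Finset.mem_image.1 hξ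
    have := (mem_BX.1 (Finset.mem_filter.1 hu).1).2.1
    exact Finset.mem_Ico.2 this
  refine (Finset.card_le_card h2).trans ?_
  rw [Int.card_Ico, sub_zero]

/-- at most four square roots -/
private theorem fm3_four (hM : MC ra N H Z V T n1 n2 C D h W G) (X : Finset ℤ)
    (hX : ∀ ξ ∈ X, 0 ≤ ξ ∧ ξ < D) (hX2 : ∀ ξ ∈ X, ∀ ξ' ∈ X, D ∣ ξ ^ 2 - ξ' ^ 2) :
    X.card ≤ 4 := by
  classical
  rcases X.eq_empty_or_nonempty with rfl | ⟨ξ₀, h0⟩
  · simp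
  have hp1 : Prime (n1 : ℤ) := Int.prime_iff_natAbs_prime.mpr (by simpa using hM.pair.p1)
  have hp2 : Prime (n2 : ℤ) := Int.prime_iff_natAbs_prime.mpr (by simpa using hM.pair.p2)
  have h4 : (Finset.univ : Finset (Bool × Bool)).card = 4 := by decide
  rw [← h4]
  have hor : ∀ ξ ∈ X, ∀ p : ℤ, Prime p → p ∣ D → p ∣ ξ - ξ₀ ∨ p ∣ ξ + ξ₀ := by
    intro ξ hξ p hp hpD
    have h1 := hpD.trans (hX2 ξ hξ ξ₀ h0)
    have e : ξ ^ 2 - ξ₀ ^ 2 = (ξ - ξ₀) * (ξ + ξ₀) := by ring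
    rw [e] at h1
    exact hp.dvd_or_dvd h1
  have hd1 : (n1 : ℤ) ∣ D := by rw [hM.D_eq]; exact Dvd.intro _ rfl
  have hd2 : (n2 : ℤ) ∣ D := by rw [hM.D_eq]; exact Dvd.intro_left _ rfl
  have hkey : ∀ ξ ∈ X, ∀ ξ' ∈ X, ∀ p : ℤ, Prime p → p ∣ D →
      (decide (p ∣ ξ - ξ₀) = decide (p ∣ ξ' - ξ₀)) → p ∣ ξ - ξ' := by
    intro ξ hξ ξ' hξ' p hp hpD hdec
    by_cases h1 : p ∣ ξ - ξ₀
    · have h2 : p ∣ ξ' - ξ₀ := by
        rw [decide_eq_true h1] at hdec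
        exact of_decide_eq_true hdec.symm
      have e : ξ - ξ' = (ξ - ξ₀) - (ξ' - ξ₀) := by ring
      rw [e]
      exact dvd_sub h1 h2
    · have h2 : ¬ p ∣ ξ' - ξ₀ := by
        rw [decide_eq_false h1] at hdec
        exact of_decide_eq_false hdec.symm
      have h3 := (hor ξ hξ p hp hpD).resolve_left h1
      have h4 := (hor ξ' hξ' p hp hpD).resolve_left h2
      have e : ξ - ξ' = (ξ + ξ₀) - (ξ' + ξ₀) := by ring
      rw [e]
      exact dvd_sub h3 h4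
  apply Finset.card_le_card_of_injOn
    (fun ξ => (decide ((n1 : ℤ) ∣ ξ - ξ₀), decide ((n2 : ℤ) ∣ ξ - ξ₀)))
  · intro ξ _
    exact Finset.mem_coe.2 (Finset.mem_univ _)
  · intro ξ hξ ξ' hξ' heq
    have hξ1 : ξ ∈ X := hξ
    have hξ1' : ξ' ∈ X := hξ'
    rw [Prod.mk.injEq] at heq
    have h1 := hkey ξ hξ1 ξ' hξ1' _ hp1 hd1 heq.1
    have h2 := hkey ξ hξ1 ξ' hξ1' _ hp2 hd2 heq.2
    have hc : IsCoprime (n1 : ℤ) (n2 : ℤ) := by
      rw [Nat.isCoprime_iff_coprime]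
      exact (Nat.coprime_primes hM.pair.p1 hM.pair.p2).2 hM.pair.ne
    have h3 : D ∣ ξ - ξ' := by
      rw [hM.D_eq]
      exact hc.mul_dvd h1 h2
    obtain ⟨a1, a2⟩ := hX ξ hξ1
    obtain ⟨a3, a4⟩ := hX ξ' hξ1'
    have h5 : ξ - ξ' = 0 := by
      by_contra hne
      have h6 := Int.le_of_dvd (abs_pos.mpr hne) ((dvd_abs _ _).mpr h3)
      have h7 : |ξ - ξ'| < D := by
        rw [abs_lt]
        constructor <;> linarith
      linarith
    linarith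

private theorem fm3_off (hM : MC ra N H Z V T n1 n2 C D h W G) {e f : ℤ × ℤ}
    (he : e ∈ EE N ×ˢ EE N) (hf : f ∈ EE N ×ˢ EE N) (hef : e ≠ f)
    [DecidablePred fun u : ℤ × ℤ => fm3E D h u.1 u.2 e ∧ fm3E D h u.1 u.2 f] :
    ((BX D C).filter fun u => fm3E D h u.1 u.2 e ∧ fm3E D h u.1 u.2 f).card ≤
      (C / D.toNat + 1) * 4 := by
  classical
  have hD := hM.D_pos
  set S := (BX D C).filter fun u => fm3E D h u.1 u.2 e ∧ fm3E D h u.1 u.2 f with hS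
  have h1 := Finset.card_le_mul_card_image (f := Prod.snd) S (C / D.toNat + 1) (by
    intro ξ _
    refine fm3_b hM he ξ _ ?_ ?_
    · exact (Finset.filter_subset _ _).trans (Finset.filter_subset _ _)
    · intro u hu
      obtain ⟨h2, h3⟩ := Finset.mem_filter.1 hu
      exact ⟨h3, (Finset.mem_filter.1 h2).2.1⟩)
  refine h1.trans (Nat.mul_le_mul_left _ ?_)
  have hue := fm3_unit hM he
  have huf := fm3_unit hM hf
  obtain ⟨m1, m2⟩ := Finset.mem_product.1 he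
  obtain ⟨m3, m4⟩ := Finset.mem_product.1 hf
  rw [mem_EE] at m1 m2 m3 m4
  -- the combined congruence
  have hcomb : ∀ u ∈ S, D ∣ u.2 ^ 2 * (e.2 * f.2 * (f.1 - e.1)) -
      h ^ 2 * (e.1 * f.1 * (f.2 - e.2)) := by
    intro u hu
    obtain ⟨-, h2, h3⟩ := Finset.mem_filter.1 hu
    unfold fm3E at h2 h3
    have e1 : u.2 ^ 2 * (e.2 * f.2 * (f.1 - e.1)) - h ^ 2 * (e.1 * f.1 * (f.2 - e.2)) =
        f.1 * f.2 * (e.2 * u.2 ^ 2 - h ^ 2 * e.1 + u.1 * e.1 * e.2 * u.2) -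
        e.1 * e.2 * (f.2 * u.2 ^ 2 - h ^ 2 * f.1 + u.1 * f.1 * f.2 * u.2) := by ring
    rw [e1]
    exact dvd_sub (Dvd.dvd.mul_left h2 _) (Dvd.dvd.mul_left h3 _)
  rcases S.eq_empty_or_nonempty with hSe | ⟨u₀, hu₀⟩
  · rw [hSe]; simp
  have hsmall : ∀ k : ℤ, |k| ≤ N → D ∣ k → k = 0 := by
    intro k hk hd
    by_contra hk0
    have h5 := Int.le_of_dvd (abs_pos.mpr hk0) ((dvd_abs _ _).mpr hd)
    have h6 := hM.D_lo
    have h7 : (1 : ℤ) ≤ N := by have := hM.N1; exact_mod_cast (by omega : 1 ≤ N)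
    nlinarith
  have hdiff : ∀ x y : ℤ, 2 * |x| ≤ N → 2 * |y| ≤ N → |x - y| ≤ N := by
    intro x y hx hy
    have := abs_sub x y
    linarith
  have he1 : f.1 ≠ e.1 := by
    intro h2
    have h3 := hcomb u₀ hu₀
    rw [h2, sub_self, mul_zero, mul_zero, zero_sub, dvd_neg] at h3
    have h4 : D ∣ (h ^ 2 * (e.1 * e.1)) * (f.2 - e.2) := by
      have e1 : (h ^ 2 * (e.1 * e.1)) * (f.2 - e.2) = h ^ 2 * (e.1 * e.1 * (f.2 - e.2)) := by ring
      rw [e1]; exact h3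
    have hce : IsCoprime e.1 D := hM.cop _ m1.1 (by have := abs_nonneg e.1; linarith [m1.2])
    have hc : IsCoprime (h ^ 2 * (e.1 * e.1)) D :=
      (hM.hcop.pow_left).mul_left (hce.mul_left hce)
    have h5 := hc.symm.dvd_of_dvd_mul_left h4
    have h6 := hsmall _ (hdiff _ _ m4.2 m2.2) h5
    exact hef (Prod.ext h2.symm (by linarith))
  have hA : IsCoprime (e.2 * f.2 * (f.1 - e.1)) D := by
    have c1 : IsCoprime e.2 D := hM.cop _ m2.1 (by have := abs_nonneg e.2; linarith [m2.2])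
    have c2 : IsCoprime f.2 D := hM.cop _ m4.1 (by have := abs_nonneg f.2; linarith [m4.2])
    have c3 : IsCoprime (f.1 - e.1) D :=
      hM.cop _ (sub_ne_zero.2 he1) (hdiff _ _ m3.2 m1.2)
    exact (c1.mul_left c2).mul_left c3
  refine fm3_four hM _ ?_ ?_
  · intro ξ hξ
    obtain ⟨u, hu, rfl⟩ := Finset.mem_image.1 hξ
    exact (mem_BX.1 (Finset.mem_filter.1 hu).1).2.1
  · intro ξ hξ ξ' hξ'
    obtain ⟨u, hu, rfl⟩ := Finset.mem_image.1 hξ
    obtain ⟨v, hv, rfl⟩ := Finset.mem_image.1 hξ'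
    have h2 := dvd_sub (hcomb u hu) (hcomb v hv)
    have e1 : u.2 ^ 2 * (e.2 * f.2 * (f.1 - e.1)) - h ^ 2 * (e.1 * f.1 * (f.2 - e.2)) -
        (v.2 ^ 2 * (e.2 * f.2 * (f.1 - e.1)) - h ^ 2 * (e.1 * f.1 * (f.2 - e.2))) =
        (e.2 * f.2 * (f.1 - e.1)) * (u.2 ^ 2 - v.2 ^ 2) := by ring
    rw [e1] at h2
    exact hA.symm.dvd_of_dvd_mul_left h2

private theorem fm3_sq {α β : Type} [DecidableEq β] (S : Finset α) (P : Finset β) (R : α → β → Prop)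
    [∀ u e, Decidable (R u e)] :
    ∑ u ∈ S, (P.filter fun e => R u e).card ^ 2 =
      ∑ e ∈ P, ∑ f ∈ P, (S.filter fun u => R u e ∧ R u f).card := by
  have h1 : ∀ u, (P.filter fun e => R u e).card ^ 2 =
      ∑ e ∈ P, ∑ f ∈ P, (if R u e ∧ R u f then 1 else 0) := by
    intro u
    rw [sq, Finset.card_filter, Finset.sum_mul_sum]
    refine Finset.sum_congr rfl fun e _ => Finset.sum_congr rfl fun f _ => ?_
    by_cases h2 : R u e <;> by_cases h3 : R u f <;> simp [h2, h3]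
  rw [Finset.sum_congr rfl fun u _ => h1 u, Finset.sum_comm]
  refine Finset.sum_congr rfl fun e _ => ?_
  rw [Finset.sum_comm]
  refine Finset.sum_congr rfl fun f _ => ?_
  rw [Finset.card_filter]

/-- [FM3] PROOF. The left side is the number of `(b, ξ, (e, e'), (f, f'))`, `C ≤ b < 2C`, `0 ≤ ξ < D`,
`gcd (ξ, D) = 1`, `e, e', f, f' ∈ EE N` (`|EE N| ≤ N`), with
(E) `D ∣ e' ξ² - h² e + b e e' ξ` and (F) `D ∣ f' ξ² - h² f + b f f' ξ`.
Given `ξ` and `(e, e')`, (E) determines `b` modulo `D` (`e e' ξ` is a unit mod `D`, `MC.cop`): at most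
`C / D + 1` values of `b`.
Diagonal `(e, e') = (f, f')`: at most `N² · D · (C/D + 1) = N² (C + D)`.
Off-diagonal: `f f' (E) - e e' (F)`: `D ∣ ξ² e' f' (f - e) - h² e f (f' - e')`. If `e = f` then
`D ∣ f' - e'` (times units), and `|f' - e'| ≤ N` so `f' = e'` (`MC.cop`); similarly `e' = f'` implies
`e = f`. So `e ≠ f` and `e' ≠ f'`, `e' f' (f - e)` is a unit mod `D`, and `ξ²` is determined mod `D`. If
`ξ, ξ₀` are two solutions then `n1 ∣ (ξ - ξ₀)(ξ + ξ₀)` and `n2 ∣ ...`, so `ξ ≡ ± ξ₀` mod `n1` and mod `n2`: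
at most 4 solutions `ξ` in `[0, D)` (`n1 ≠ n2` primes, `D = n1 n2`). So at most `N⁴ · 4 · (C/D + 1)`.
Sum `≤ N² (C + 4 N²) + 4 N⁴ + 4 N² C ≤ 50 N² (N² + C)` (`N² < D ≤ 4 N²`). -/
theorem mm_sq (hM : MC ra N H Z V T n1 n2 C D h W G) :
    ∑ u ∈ BX D C, (mm D h N u.1 u.2 : ℝ) ^ 2 ≤ 50 * (N : ℝ) ^ 2 * ((N : ℝ) ^ 2 + C) := by
  classical
  have hD := hM.D_pos
  have hDn : (D.toNat : ℤ) = D := Int.toNat_of_nonneg hD.le
  have hDR : ((D.toNat : ℕ) : ℝ) = (D : ℝ) := by exact_mod_cast congrArg (Int.cast : ℤ → ℝ) hDn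
  set c : ℕ := C / D.toNat + 1 with hc
  set P : Finset (ℤ × ℤ) := EE N ×ˢ EE N with hP
  have hPc : P.card ≤ N ^ 2 := by
    rw [hP, Finset.card_product, sq]
    exact Nat.mul_le_mul (card_EE_le N) (card_EE_le N)
  have h1 : ∑ u ∈ BX D C, (mm D h N u.1 u.2) ^ 2 =
      ∑ e ∈ P, ∑ f ∈ P, ((BX D C).filter fun u : ℤ × ℤ =>
        fm3E D h u.1 u.2 e ∧ fm3E D h u.1 u.2 f).card := by
    rw [← fm3_sq (BX D C) P (fun (u : ℤ × ℤ) (e : ℤ × ℤ) => fm3E D h u.1 u.2 e)]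
    refine Finset.sum_congr rfl fun u _ => ?_
    unfold mm
    congr 2
    exact Finset.filter_congr fun e _ => Iff.rfl
  have h2 : ∑ u ∈ BX D C, (mm D h N u.1 u.2) ^ 2 ≤ P.card * (c * D.toNat) +
      P.card * (P.card * (c * 4)) := by
    rw [h1]
    calc ∑ e ∈ P, ∑ f ∈ P, ((BX D C).filter fun u : ℤ × ℤ =>
          fm3E D h u.1 u.2 e ∧ fm3E D h u.1 u.2 f).card
        ≤ ∑ e ∈ P, (c * D.toNat + P.card * (c * 4)) := by
          refine Finset.sum_le_sum fun e he => ?_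
          rw [← Finset.add_sum_erase P _ he]
          refine add_le_add ?_ ?_
          · refine le_trans (Finset.card_le_card ?_) (fm3_diag hM he)
            intro u hu
            obtain ⟨h3, h4, -⟩ := Finset.mem_filter.1 hu
            exact Finset.mem_filter.2 ⟨h3, h4⟩
          · calc ∑ f ∈ P.erase e, ((BX D C).filter fun u : ℤ × ℤ =>
                  fm3E D h u.1 u.2 e ∧ fm3E D h u.1 u.2 f).card
                ≤ ∑ _f ∈ P.erase e, c * 4 := by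
                  refine Finset.sum_le_sum fun f hf => ?_
                  obtain ⟨h3, h4⟩ := Finset.mem_erase.1 hf
                  exact fm3_off hM he h4 (Ne.symm h3)
              _ = (P.erase e).card * (c * 4) := by rw [Finset.sum_const, smul_eq_mul]
              _ ≤ P.card * (c * 4) :=
                  Nat.mul_le_mul_right _ (Finset.card_le_card (Finset.erase_subset _ _))
      _ = P.card * (c * D.toNat) + P.card * (P.card * (c * 4)) := by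
          rw [Finset.sum_const, smul_eq_mul, mul_add]
  have h3 : ∑ u ∈ BX D C, (mm D h N u.1 u.2) ^ 2 ≤ N ^ 2 * (c * D.toNat) +
      N ^ 2 * (N ^ 2 * (c * 4)) := by
    refine h2.trans (add_le_add (Nat.mul_le_mul_right _ hPc) ?_)
    exact Nat.mul_le_mul hPc (Nat.mul_le_mul_right _ hPc)
  have h4 : (∑ u ∈ BX D C, (mm D h N u.1 u.2 : ℝ) ^ 2) ≤ (N : ℝ) ^ 2 * ((c : ℝ) * D) +
      (N : ℝ) ^ 2 * ((N : ℝ) ^ 2 * ((c : ℝ) * 4)) := by
    have h5 : ((∑ u ∈ BX D C, (mm D h N u.1 u.2) ^ 2 : ℕ) : ℝ) ≤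
        ((N ^ 2 * (c * D.toNat) + N ^ 2 * (N ^ 2 * (c * 4)) : ℕ) : ℝ) := by exact_mod_cast h3
    push_cast at h5
    rw [hDR] at h5
    exact h5
  have hNpos : (0 : ℝ) < (N : ℝ) ^ 2 := by
    have : 0 < N := by have := hM.N1; omega
    positivity
  have hDlo : (N : ℝ) ^ 2 ≤ D := by exact_mod_cast hM.D_lo.le
  have hDhi : (D : ℝ) ≤ 4 * (N : ℝ) ^ 2 := by exact_mod_cast hM.D_hi
  have hDpos : (0 : ℝ) < D := by exact_mod_cast hD
  have hc1 : (c : ℝ) ≤ C / D + 1 := by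
    rw [hc]
    push_cast
    have := Nat.cast_div_le (α := ℝ) (m := C) (n := D.toNat)
    rw [hDR] at this
    linarith
  have hc2 : (c : ℝ) * D ≤ C + 4 * (N : ℝ) ^ 2 := by
    calc (c : ℝ) * D ≤ (C / D + 1) * D := mul_le_mul_of_nonneg_right hc1 hDpos.le
      _ = C + D := by field_simp
      _ ≤ C + 4 * (N : ℝ) ^ 2 := by linarith
  have hc3 : (N : ℝ) ^ 2 * (c : ℝ) ≤ C + (N : ℝ) ^ 2 := by
    have h5 : (C : ℝ) / D ≤ C / (N : ℝ) ^ 2 :=
      div_le_div_of_nonneg_left (by positivity) hNpos hDlo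
    calc (N : ℝ) ^ 2 * (c : ℝ) ≤ (N : ℝ) ^ 2 * (C / (N : ℝ) ^ 2 + 1) :=
          mul_le_mul_of_nonneg_left (hc1.trans (by linarith)) hNpos.le
      _ = C + (N : ℝ) ^ 2 := by rw [mul_add, mul_one, mul_div_cancel₀ _ hNpos.ne']
  have hC0 : (0 : ℝ) ≤ C := by positivity
  calc (∑ u ∈ BX D C, (mm D h N u.1 u.2 : ℝ) ^ 2) ≤ (N : ℝ) ^ 2 * ((c : ℝ) * D) +
        (N : ℝ) ^ 2 * ((N : ℝ) ^ 2 * ((c : ℝ) * 4)) := h4
    _ = (N : ℝ) ^ 2 * ((c : ℝ) * D) + 4 * ((N : ℝ) ^ 2 * ((N : ℝ) ^ 2 * (c : ℝ))) := by ring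
    _ ≤ (N : ℝ) ^ 2 * (C + 4 * (N : ℝ) ^ 2) + 4 * ((N : ℝ) ^ 2 * (C + (N : ℝ) ^ 2)) := by
        have h5 := mul_le_mul_of_nonneg_left hc2 hNpos.le
        have h6 := mul_le_mul_of_nonneg_left hc3 hNpos.le
        linarith
    _ ≤ 50 * (N : ℝ) ^ 2 * ((N : ℝ) ^ 2 + C) := by
        have h7 : 0 ≤ (N : ℝ) ^ 2 * C := mul_nonneg hNpos.le hC0
        nlinarith [mul_pos hNpos hNpos]

end Pool.Agent.TIA.FM
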