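import Pool.Agent.TIA.FM0

/-!
# [TII-FM5] splitting into cells
-/

set_option autoImplicit false

namespace Pool.Agent.TIA.FM

open Finset Pool.Agent.TII

variable {ra : ℤ}

variable {N H Z V : ℕ} {T : ℝ} {n1 n2 C : ℕ} {D h W : ℤ} {G : ℕ}

private theorem FM5_cell (x m K : ℤ) (hm : 0 < m) (h1 : -(K * m) ≤ x) (h2 : x ≤ K * m) :
    -K ≤ x / m ∧ x / m ≤ K := by
  constructor
  · rw [Int.le_ediv_iff_mul_le hm]
    linarith
  · have h3 : x / m < K + 1 := by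
      rw [Int.ediv_lt_iff_lt_mul hm]
      linarith
    omega

private theorem FM5_near (x y m : ℤ) (hm : 0 < m) (h : x / m = y / m) : |x - y| < m := by
  have h1 := Int.emod_add_mul_ediv x m
  have h2 := Int.emod_add_mul_ediv y m
  have h3 := Int.emod_nonneg x hm.ne'
  have h4 := Int.emod_lt_of_pos x hm
  have h5 := Int.emod_nonneg y hm.ne'
  have h6 := Int.emod_lt_of_pos y hm
  rw [h] at h1
  rw [abs_lt]
  constructor <;> linarith

/-- [FM5] PROOF. `cells` (FM0) with `key u = (b, a)`, `cell u = (⌊2 τ / (b N)⌋, ⌊2 τ' / (b N)⌋)`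
(`Int` division `(2 * u.2.2.1) / (u.1 * N)`), `I = Icc (-K) K ×ˢ Icc (-K) K` with `K = 2 (H + 20) + 1`:
`|2 τ| ≤ 2 W = 2 (H+20) C N ≤ 2 (H+20) b N`. Equal cells give `|2 τ₁ - 2 τ₂| < b N`.
`(2 K + 1)² = (4 H + 83)² ≤ (87 H)² ≤ 10000 H²`. -/
theorem cells_AA (hM : MC ra N H Z V T n1 n2 C D h W G) :
    (((GG D h W C ×ˢ GG D h W C).filter fun p =>
      (p.1.1, p.1.2.1) = (p.2.1, p.2.2.1)).card : ℝ) ≤ 10000 * (H : ℝ) ^ 2 * (AA D h W C N).card := by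
  classical
  have hN := hM.N1
  have hH1 := hM.H1
  have hN0 : (0 : ℤ) < N := by exact_mod_cast (by omega : 0 < N)
  have hC0 : 0 < C := by have := hM.lo; omega
  have hW := hM.W_eq
  set K : ℤ := 2 * ((H : ℤ) + 20) with hK
  have hK0 : 0 ≤ K := by positivity
  have hmb : ∀ u ∈ GG D h W C, 0 < u.1 * (N : ℤ) ∧ 2 * W ≤ K * (u.1 * N) := by
    intro u hu
    rw [mem_GG] at hu
    have hb := hu.1.1
    have hC' : (0 : ℤ) < C := by exact_mod_cast hC0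
    have hb0 : 0 < u.1 := by linarith
    refine ⟨mul_pos hb0 hN0, ?_⟩
    rw [hW, hK]
    have h1 : (C : ℤ) * N ≤ u.1 * N := mul_le_mul_of_nonneg_right hb hN0.le
    have h2 : (0 : ℤ) ≤ (H : ℤ) + 20 := by positivity
    nlinarith
  have hI : ∀ u ∈ GG D h W C, (fun u : ℤ × ℤ × ℤ × ℤ =>
      ((2 * u.2.2.1) / (u.1 * N), (2 * u.2.2.2) / (u.1 * N))) u ∈
      Icc (-K) K ×ˢ Icc (-K) K := by
    intro u hu
    obtain ⟨hm, hKW⟩ := hmb u hu
    rw [mem_GG] at hu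
    obtain ⟨_, _, ⟨h1, h2⟩, ⟨h3, h4⟩, _⟩ := hu
    rw [Finset.mem_product, Finset.mem_Icc, Finset.mem_Icc]
    exact ⟨FM5_cell _ _ _ hm (by linarith) (by linarith),
      FM5_cell _ _ _ hm (by linarith) (by linarith)⟩
  have hcells := cells (GG D h W C) (fun u : ℤ × ℤ × ℤ × ℤ => (u.1, u.2.1))
    (fun u : ℤ × ℤ × ℤ × ℤ => ((2 * u.2.2.1) / (u.1 * N), (2 * u.2.2.2) / (u.1 * N)))
    (Icc (-K) K ×ˢ Icc (-K) K) hI
  refine hcells.trans ?_
  have hsub : ((GG D h W C ×ˢ GG D h W C).filter fun p : (ℤ × ℤ × ℤ × ℤ) × (ℤ × ℤ × ℤ × ℤ) =>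
      (fun u : ℤ × ℤ × ℤ × ℤ => (u.1, u.2.1)) p.1 = (fun u : ℤ × ℤ × ℤ × ℤ => (u.1, u.2.1)) p.2 ∧
      (fun u : ℤ × ℤ × ℤ × ℤ => ((2 * u.2.2.1) / (u.1 * N), (2 * u.2.2.2) / (u.1 * N))) p.1 =
      (fun u : ℤ × ℤ × ℤ × ℤ => ((2 * u.2.2.1) / (u.1 * N), (2 * u.2.2.2) / (u.1 * N))) p.2) ⊆
      AA D h W C N := by
    intro p hp
    rw [Finset.mem_filter] at hp
    obtain ⟨hpm, hkey, hcell⟩ := hp
    have hk1 : p.1.1 = p.2.1 := (Prod.ext_iff.mp hkey).1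
    have hk2 : p.1.2.1 = p.2.2.1 := (Prod.ext_iff.mp hkey).2
    have hc1 : (2 * p.1.2.2.1) / (p.1.1 * N) = (2 * p.2.2.2.1) / (p.2.1 * N) :=
      (Prod.ext_iff.mp hcell).1
    have hc2 : (2 * p.1.2.2.2) / (p.1.1 * N) = (2 * p.2.2.2.2) / (p.2.1 * N) :=
      (Prod.ext_iff.mp hcell).2
    rw [← hk1] at hc1 hc2
    have hm := (hmb p.1 (Finset.mem_product.mp hpm).1).1
    have h1 := FM5_near _ _ _ hm hc1
    have h2 := FM5_near _ _ _ hm hc2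
    rw [← mul_sub, abs_mul, abs_two] at h1 h2
    unfold AA
    rw [Finset.mem_filter]
    exact ⟨hpm, hk1, hk2, h1.le, h2.le⟩
  have hcard := Finset.card_le_card hsub
  have hIc : ((Icc (-K) K ×ˢ Icc (-K) K).card : ℝ) ≤ 10000 * (H : ℝ) ^ 2 := by
    rw [Finset.card_product, Int.card_Icc]
    have h1 : (K + 1 - -K).toNat = 4 * H + 81 := by omega
    rw [h1]
    push_cast
    have h2 : (1 : ℝ) ≤ H := by exact_mod_cast hH1
    nlinarith
  refine mul_le_mul hIc ?_ (by positivity) (by positivity)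
  exact_mod_cast hcard

end Pool.Agent.TIA.FM
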