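import Pool.Agent.TIA.FM1
import Pool.Agent.TIA.FM2
import Pool.Agent.TIA.FM3
import Pool.Agent.TIA.FM4
import Pool.Agent.TIA.FM5
import Pool.Agent.TIA.FM11

/-!
# [TII-FM12] the two inequalities between `A` and `B`, and their conclusion
-/

set_option autoImplicit false

namespace Pool.Agent.TIA.FM

open Finset Pool.Agent.TII

variable {ra : ℤ}

variable {N H Z V : ℕ} {T : ℝ} {n1 n2 C : ℕ} {D h W : ℤ} {G : ℕ}

theorem sq_le_two {x g m : ℝ} (hx : 0 ≤ x) (h : x ≤ g + m) : x ^ 2 ≤ 2 * g ^ 2 + 2 * m ^ 2 := by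
  have h1 : x ^ 2 ≤ (g + m) ^ 2 := pow_le_pow_left₀ hx h 2
  nlinarith [sq_nonneg (g - m)]

theorem A_sq (hM : MC ra N H Z V T n1 n2 C D h W G) :
    ((AA D h W C N).card : ℝ) ^ 2 ≤ 5 * 10 ^ 7 * T ^ 2 * (H : ℝ) ^ 6 * (C : ℝ) ^ 4 +
      100 * ((BB D h W C).card : ℝ) * ((N : ℝ) ^ 2 * ((N : ℝ) ^ 2 + C)) := by
  have h1 := AA_le hM
  have hK : ∀ u ∈ GG D h W C, ((u.1, u.2.2.1 % D) : ℤ × ℤ) ∈ BX D C := by
    intro u hu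
    have hc := GG_cop hM.hcop hu
    rw [mem_GG] at hu
    rw [mem_BX]
    have hD := hM.D_pos
    refine ⟨hu.1, ⟨Int.emod_nonneg _ hD.ne', Int.emod_lt_of_pos _ hD⟩, ?_⟩
    rw [← Int.isCoprime_iff_gcd_eq_one, Int.emod_def, sub_eq_add_neg, ← mul_neg]
    exact (IsCoprime.add_mul_left_left_iff).mpr hc
  have h2 := CS_fib (GG D h W C) (fun u => ((u.1, u.2.2.1 % D) : ℤ × ℤ)) (BX D C) hK
    (fun k => (mm D h N k.1 k.2 : ℝ))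
  have e : ((GG D h W C ×ˢ GG D h W C).filter fun p =>
      ((p.1.1, p.1.2.2.1 % D) : ℤ × ℤ) = (p.2.1, p.2.2.2.1 % D)) = BB D h W C := by
    unfold BB
    apply Finset.filter_congr
    intro p _
    rw [Prod.mk.injEq]
  simp only at h2
  rw [e] at h2
  have h3 := mm_sq hM
  have h4 := card_GG hM
  have h5 := sq_le_two (by positivity) h1
  have hg0 : (0 : ℝ) ≤ (GG D h W C).card := by positivity
  have h6 : ((GG D h W C).card : ℝ) ^ 2 ≤ (5000 * T * (H : ℝ) ^ 3 * (C : ℝ) ^ 2) ^ 2 :=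
    pow_le_pow_left₀ hg0 h4 2
  have h7 : (∑ u ∈ GG D h W C, (mm D h N u.1 (u.2.2.1 % D) : ℝ)) ^ 2 ≤
      ((BB D h W C).card : ℝ) * (50 * (N : ℝ) ^ 2 * ((N : ℝ) ^ 2 + C)) :=
    h2.trans (mul_le_mul_of_nonneg_left h3 (by positivity))
  calc ((AA D h W C N).card : ℝ) ^ 2 ≤ _ := h5
    _ ≤ 2 * (5000 * T * (H : ℝ) ^ 3 * (C : ℝ) ^ 2) ^ 2 +
        2 * (((BB D h W C).card : ℝ) * (50 * (N : ℝ) ^ 2 * ((N : ℝ) ^ 2 + C))) := by linarith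
    _ = _ := by ring

theorem B_sq (hM : MC ra N H Z V T n1 n2 C D h W G) :
    ((BB D h W C).card : ℝ) ^ 2 ≤ 5 * 10 ^ 7 * T ^ 2 * (H : ℝ) ^ 8 * (C : ℝ) ^ 4 +
      12 * 10 ^ 12 * T ^ 5 * (H : ℝ) ^ 9 * ((AA D h W C N).card : ℝ) *
        ((C : ℝ) ^ 3 * ((N : ℝ) ^ 2 + C) / (N : ℝ) ^ 4) := by
  have h1 := BB_le hM
  have hT := hM.T2
  have hK : ∀ u ∈ GG D h W C, ((u.1, u.2.1) : ℤ × ℤ) ∈ BA D C := by
    intro u hu
    rw [mem_GG] at hu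
    rw [mem_BA]
    exact ⟨hu.1, hu.2.1, hu.2.2.2.2.1, hu.2.2.2.2.2.1, hu.2.2.2.2.2.2.1⟩
  have h2 := CS_fib (GG D h W C) (fun u => ((u.1, u.2.1) : ℤ × ℤ)) (BA D C) hK
    (fun k => (mp D h G k.1 k.2 : ℝ))
  simp only at h2
  have h3 := TT2' hM
  have h4 := card_GG hM
  have h5 := cells_AA hM
  set Y : ℝ := (C : ℝ) ^ 3 * ((N : ℝ) ^ 2 + C) / (N : ℝ) ^ 4 with hY
  have hY0 : 0 ≤ Y := by positivity
  set M2 : ℝ := ∑ u ∈ GG D h W C, (mp D h G u.1 u.2.1 : ℝ) with hM2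
  have h6 := sq_le_two (by positivity) h1
  have hg0 : (0 : ℝ) ≤ (GG D h W C).card := by positivity
  have h7 : ((GG D h W C).card : ℝ) ^ 2 ≤ (5000 * T * (H : ℝ) ^ 3 * (C : ℝ) ^ 2) ^ 2 :=
    pow_le_pow_left₀ hg0 h4 2
  have h8 : M2 ^ 2 ≤ (10000 * (H : ℝ) ^ 2 * (AA D h W C N).card) *
      (6 * 10 ^ 8 * T ^ 5 * (H : ℝ) ^ 5 * Y) := by
    refine h2.trans ?_
    apply mul_le_mul h5 h3 _ (by positivity)
    exact Finset.sum_nonneg (fun _ _ => by positivity)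
  have hH2 : (0 : ℝ) ≤ (H : ℝ) ^ 2 := by positivity
  calc ((BB D h W C).card : ℝ) ^ 2 ≤ _ := h6
    _ = (2 * (H : ℝ) ^ 2) * ((GG D h W C).card : ℝ) ^ 2 + (2 * (H : ℝ) ^ 2) * M2 ^ 2 := by ring
    _ ≤ (2 * (H : ℝ) ^ 2) * (5000 * T * (H : ℝ) ^ 3 * (C : ℝ) ^ 2) ^ 2 +
        (2 * (H : ℝ) ^ 2) * ((10000 * (H : ℝ) ^ 2 * (AA D h W C N).card) *
      (6 * 10 ^ 8 * T ^ 5 * (H : ℝ) ^ 5 * Y)) := by
        apply add_le_add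
        · exact mul_le_mul_of_nonneg_left h7 (by positivity)
        · exact mul_le_mul_of_nonneg_left h8 (by positivity)
    _ = _ := by ring

theorem quartic {x s a p q : ℝ} (hs : 0 ≤ s) (ha : 0 < a) (hp : 0 ≤ p) (hq : 0 ≤ q)
    (h : x ^ 4 ≤ p * s ^ 4 + q * x * s ^ 3) (hpq : p + q * a < a ^ 4) : x ≤ a * s := by
  by_contra hc
  push Not at hc
  have h0 : 0 ≤ a * s := by positivity
  have hxp : 0 < x := lt_of_le_of_lt h0 hc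
  have h4 : (a * s) ^ 4 ≤ x ^ 4 := pow_le_pow_left₀ h0 hc.le 4
  have h3 : (a * s) ^ 3 ≤ x ^ 3 := pow_le_pow_left₀ h0 hc.le 3
  have h5 : a ^ 4 * x ^ 4 ≤ p * (a * s) ^ 4 + q * a * x * (a * s) ^ 3 := by
    calc a ^ 4 * x ^ 4 ≤ a ^ 4 * (p * s ^ 4 + q * x * s ^ 3) :=
          mul_le_mul_of_nonneg_left h (by positivity)
      _ = _ := by ring
  have h6 : p * (a * s) ^ 4 ≤ p * x ^ 4 := mul_le_mul_of_nonneg_left h4 hp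
  have h7 : q * a * x * (a * s) ^ 3 ≤ q * a * x * x ^ 3 :=
    mul_le_mul_of_nonneg_left h3 (by positivity)
  have h8 : (p + q * a) * x ^ 4 < a ^ 4 * x ^ 4 := mul_lt_mul_of_pos_right hpq (by positivity)
  have h9 : q * a * x * x ^ 3 = q * a * x ^ 4 := by ring
  linarith

theorem AA_bound (hM : MC ra N H Z V T n1 n2 C D h W G) :
    ((AA D h W C N).card : ℝ) ≤ 10 ^ 6 * T ^ 2 * (H : ℝ) ^ 3 * ((C : ℝ) * ((N : ℝ) ^ 2 + C)) := by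
  have hT := hM.T2
  have hH : (1 : ℝ) ≤ H := by exact_mod_cast hM.H1
  have hN : (20000 : ℝ) ≤ N := by exact_mod_cast hM.N1
  have hNp : (0 : ℝ) < N := by linarith
  have hC : (0 : ℝ) ≤ C := by positivity
  have h1 := A_sq hM
  have h2 := B_sq hM
  set A : ℝ := ((AA D h W C N).card : ℝ) with hA
  set B : ℝ := ((BB D h W C).card : ℝ) with hB
  set U : ℝ := (N : ℝ) ^ 2 + C with hU
  have hA0 : 0 ≤ A := by positivity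
  have hB0 : 0 ≤ B := by positivity
  have hU0 : 0 ≤ U := by positivity
  have hCU : (C : ℝ) ≤ U := by rw [hU]; nlinarith [sq_nonneg (N : ℝ)]
  have hNU : (N : ℝ) ^ 2 ≤ U := by rw [hU]; linarith
  apply quartic (p := 6 * 10 ^ 15 * T ^ 4 * (H : ℝ) ^ 12) (q := 24 * 10 ^ 16 * T ^ 5 * (H : ℝ) ^ 9)
    (by positivity) (by positivity) (by positivity) (by positivity)
  · set a1 : ℝ := 5 * 10 ^ 7 * T ^ 2 * (H : ℝ) ^ 6 * (C : ℝ) ^ 4 with ha1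
    have h3 : A ^ 4 ≤ 2 * a1 ^ 2 + 2 * (100 * B * ((N : ℝ) ^ 2 * U)) ^ 2 := by
      have := sq_le_two (x := A ^ 2) (by positivity) h1
      calc A ^ 4 = (A ^ 2) ^ 2 := by ring
        _ ≤ _ := this
    have h4 : (100 * B * ((N : ℝ) ^ 2 * U)) ^ 2 = 10 ^ 4 * ((N : ℝ) ^ 4 * U ^ 2) * B ^ 2 := by ring
    have h5 : 10 ^ 4 * ((N : ℝ) ^ 4 * U ^ 2) * B ^ 2 ≤ 10 ^ 4 * ((N : ℝ) ^ 4 * U ^ 2) *
        (5 * 10 ^ 7 * T ^ 2 * (H : ℝ) ^ 8 * (C : ℝ) ^ 4 +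
      12 * 10 ^ 12 * T ^ 5 * (H : ℝ) ^ 9 * A * ((C : ℝ) ^ 3 * U / (N : ℝ) ^ 4)) :=
      mul_le_mul_of_nonneg_left h2 (by positivity)
    have h6 : 10 ^ 4 * ((N : ℝ) ^ 4 * U ^ 2) *
        (5 * 10 ^ 7 * T ^ 2 * (H : ℝ) ^ 8 * (C : ℝ) ^ 4 +
      12 * 10 ^ 12 * T ^ 5 * (H : ℝ) ^ 9 * A * ((C : ℝ) ^ 3 * U / (N : ℝ) ^ 4)) =
      5 * 10 ^ 11 * T ^ 2 * (H : ℝ) ^ 8 * ((C : ℝ) ^ 4 * ((N : ℝ) ^ 4 * U ^ 2)) +
        12 * 10 ^ 16 * T ^ 5 * (H : ℝ) ^ 9 * A * ((C : ℝ) * U) ^ 3 := by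
      field_simp
    have h7 : (C : ℝ) ^ 4 * ((N : ℝ) ^ 4 * U ^ 2) ≤ ((C : ℝ) * U) ^ 4 := by
      have : (N : ℝ) ^ 4 ≤ U ^ 2 := by
        calc (N : ℝ) ^ 4 = ((N : ℝ) ^ 2) ^ 2 := by ring
          _ ≤ U ^ 2 := pow_le_pow_left₀ (by positivity) hNU 2
      calc (C : ℝ) ^ 4 * ((N : ℝ) ^ 4 * U ^ 2) ≤ (C : ℝ) ^ 4 * (U ^ 2 * U ^ 2) := by
            apply mul_le_mul_of_nonneg_left _ (by positivity)
            exact mul_le_mul_of_nonneg_right this (by positivity)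
        _ = _ := by ring
    have h8 : ((C : ℝ) ^ 4) ^ 2 ≤ ((C : ℝ) * U) ^ 4 := by
      calc ((C : ℝ) ^ 4) ^ 2 = (C * C) ^ 4 := by ring
        _ ≤ ((C : ℝ) * U) ^ 4 := by
            apply pow_le_pow_left₀ (by positivity)
            exact mul_le_mul_of_nonneg_left hCU hC
    have h9 : a1 ^ 2 ≤ 25 * 10 ^ 14 * T ^ 4 * (H : ℝ) ^ 12 * ((C : ℝ) * U) ^ 4 := by
      calc a1 ^ 2 = 25 * 10 ^ 14 * T ^ 4 * (H : ℝ) ^ 12 * ((C : ℝ) ^ 4) ^ 2 := by rw [ha1]; ring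
        _ ≤ _ := mul_le_mul_of_nonneg_left h8 (by positivity)
    have h10 : 5 * 10 ^ 11 * T ^ 2 * (H : ℝ) ^ 8 * ((C : ℝ) ^ 4 * ((N : ℝ) ^ 4 * U ^ 2)) ≤
        5 * 10 ^ 11 * T ^ 4 * (H : ℝ) ^ 12 * ((C : ℝ) * U) ^ 4 := by
      apply mul_le_mul _ h7 (by positivity) (by positivity)
      apply mul_le_mul
      · apply mul_le_mul_of_nonneg_left _ (by positivity)
        exact pow_le_pow_right₀ (by linarith) (by norm_num)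
      · exact pow_le_pow_right₀ hH (by norm_num)
      · positivity
      · positivity
    have h11 : 0 ≤ T ^ 4 * (H : ℝ) ^ 12 * ((C : ℝ) * U) ^ 4 := by positivity
    calc A ^ 4 ≤ 2 * a1 ^ 2 + 2 * (100 * B * ((N : ℝ) ^ 2 * U)) ^ 2 := h3
      _ ≤ 2 * (25 * 10 ^ 14 * T ^ 4 * (H : ℝ) ^ 12 * ((C : ℝ) * U) ^ 4) +
          2 * (5 * 10 ^ 11 * T ^ 4 * (H : ℝ) ^ 12 * ((C : ℝ) * U) ^ 4 +
            12 * 10 ^ 16 * T ^ 5 * (H : ℝ) ^ 9 * A * ((C : ℝ) * U) ^ 3) := by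
          rw [h4]
          linarith
      _ = (50 * 10 ^ 14 + 10 ^ 12) * (T ^ 4 * (H : ℝ) ^ 12 * ((C : ℝ) * U) ^ 4) +
          24 * 10 ^ 16 * T ^ 5 * (H : ℝ) ^ 9 * A * ((C : ℝ) * U) ^ 3 := by ring
      _ ≤ 6 * 10 ^ 15 * (T ^ 4 * (H : ℝ) ^ 12 * ((C : ℝ) * U) ^ 4) +
          24 * 10 ^ 16 * T ^ 5 * (H : ℝ) ^ 9 * A * ((C : ℝ) * U) ^ 3 := by
          apply add_le_add_left
          apply mul_le_mul_of_nonneg_right _ h11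
          norm_num
      _ = _ := by ring
  · have e1 : T ^ 4 * (H : ℝ) ^ 12 ≤ T ^ 8 * (H : ℝ) ^ 12 := by
      apply mul_le_mul_of_nonneg_right _ (by positivity)
      exact pow_le_pow_right₀ (by linarith) (by norm_num)
    have e2 : T ^ 7 * (H : ℝ) ^ 12 ≤ T ^ 8 * (H : ℝ) ^ 12 := by
      apply mul_le_mul_of_nonneg_right _ (by positivity)
      exact pow_le_pow_right₀ (by linarith) (by norm_num)
    have e3 : 0 < T ^ 8 * (H : ℝ) ^ 12 := by positivity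
    have e4 : 24 * 10 ^ 16 * T ^ 5 * (H : ℝ) ^ 9 * (10 ^ 6 * T ^ 2 * (H : ℝ) ^ 3) =
        24 * 10 ^ 22 * (T ^ 7 * (H : ℝ) ^ 12) := by ring
    have e5 : (10 ^ 6 * T ^ 2 * (H : ℝ) ^ 3) ^ 4 = 10 ^ 24 * (T ^ 8 * (H : ℝ) ^ 12) := by ring
    rw [e4, e5]
    nlinarith

end Pool.Agent.TIA.FM
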