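import Pool.Agent.TIA.F5
import Pool.Agent.TIA.FM10
import Pool.Agent.TIA.FM12

/-!
# [TII-FM] the main case of FD2
-/

set_option autoImplicit false

namespace Pool.Agent.TIA

open Finset Pool.Agent.TII

variable {ra : ℤ}

theorem main_case {N H Z V : ℕ} {T : ℝ} {n1 n2 : ℕ} {W : Finset ℤ} (par : Par N H Z V T)
    (hp : Pair ra N H n1 n2) (hW : Win N W) : MainCase ra N H Z T n1 n2 W := by
  intro y C hNC hyCN hCy hy
  have hM : FM.MC ra N H Z V T n1 n2 C ((n1 : ℤ) * n2) (ra * ((n1 : ℤ) - n2)) (((H : ℤ) + 20) * C * N)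
      (2 * (H + 20) * C / N) :=
    ⟨par, hp, hNC, hCy.trans hy, rfl, rfl, rfl, rfl⟩
  have h1 := FM.rr_le_AA hM W hW y hCy (by rw [mul_comm]; exact hyCN) hy
  have h2 := FM.AA_bound hM
  have hT := par.loss.two
  have hH : (1 : ℝ) ≤ H := by exact_mod_cast par.hH
  have hN1 := hM.N1
  have hCpos : (0 : ℝ) < C := by
    have : 0 < C := by omega
    exact_mod_cast this
  have hCyR : (C : ℝ) ≤ y := by exact_mod_cast hCy
  have hset : (ball y).filter (fun δ : SL => C ≤ (δ.1 0 1).natAbs ∧ (δ.1 0 1).natAbs < 2 * C ∧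
      ¬ (n1 : ℤ) ∣ δ.1 0 1 ∧ ¬ (n2 : ℤ) ∣ δ.1 0 1) ⊆
      (ball y).filter (fun δ : SL => (C : ℤ) ≤ |δ.1 0 1| ∧ |δ.1 0 1| < 2 * C ∧
        Int.gcd (δ.1 0 1) ((n1 : ℤ) * n2) = 1) := by
    intro δ hδ
    rw [Finset.mem_filter] at hδ ⊢
    obtain ⟨h0, h3, h4, h5, h6⟩ := hδ
    refine ⟨h0, ?_, ?_, ?_⟩
    · rw [← Int.natCast_natAbs]; exact_mod_cast h3
    · rw [← Int.natCast_natAbs]; exact_mod_cast h4
    · rw [← Int.isCoprime_iff_gcd_eq_one]
      exact hM.cop_of _ h5 h6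
  calc ∑ δ ∈ (ball y).filter (fun δ : SL => C ≤ (δ.1 0 1).natAbs ∧ (δ.1 0 1).natAbs < 2 * C ∧
      ¬ (n1 : ℤ) ∣ δ.1 0 1 ∧ ¬ (n2 : ℤ) ∣ δ.1 0 1), (rr ra W n1 n2 δ : ℝ) ^ 2
      ≤ _ := Finset.sum_le_sum_of_subset_of_nonneg hset (fun _ _ _ => by positivity)
    _ ≤ 200 * T * ((y : ℝ) / C) * (10 ^ 6 * T ^ 2 * (H : ℝ) ^ 3 * ((C : ℝ) * ((N : ℝ) ^ 2 + C))) := by
        refine h1.trans ?_
        exact mul_le_mul_of_nonneg_left h2 (by positivity)
    _ = 2 * 10 ^ 8 * T ^ 3 * (H : ℝ) ^ 3 * (y * (N : ℝ) ^ 2 + y * C) := by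
        field_simp
        ring
    _ ≤ 10 ^ 20 * T ^ 20 * (H : ℝ) ^ 20 * (y * (N : ℝ) ^ 2 + (y : ℝ) ^ 2) := by
        apply mul_le_mul
        · apply mul_le_mul
          · apply mul_le_mul
            · norm_num
            · exact pow_le_pow_right₀ (by linarith) (by norm_num)
            · positivity
            · positivity
          · exact pow_le_pow_right₀ hH (by norm_num)
          · positivity
          · positivity
        · have : (y : ℝ) * C ≤ (y : ℝ) ^ 2 := by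
            rw [sq]; exact mul_le_mul_of_nonneg_left hCyR (by positivity)
          linarith
        · positivity
        · positivity

end Pool.Agent.TIA
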