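import Pool.Agent.TIA.FM0

/-!
# [TII-FM1] the number of quadruples
-/

set_option autoImplicit false

namespace Pool.Agent.TIA.FM

open Finset Pool.Agent.TII

variable {ra : ℤ}

variable {N H Z V : ℕ} {T : ℝ} {n1 n2 C : ℕ} {D h W : ℤ} {G : ℕ}

/-- the integers which divide `m` -/
private noncomputable def FM1_dv (m : ℤ) : Finset ℤ :=
  (m.natAbs.divisors.image fun d : ℕ => (d : ℤ)) ∪ (m.natAbs.divisors.image fun d : ℕ => -(d : ℤ))

private theorem FM1_mem_dv {m t : ℤ} (hm : m ≠ 0) (ht : t ∣ m) : t ∈ FM1_dv m := by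
  have h1 : t.natAbs ∈ m.natAbs.divisors :=
    Nat.mem_divisors.2 ⟨Int.natAbs_dvd_natAbs.2 ht, Int.natAbs_ne_zero.2 hm⟩
  unfold FM1_dv
  rw [Finset.mem_union, Finset.mem_image, Finset.mem_image]
  rcases Int.natAbs_eq t with h | h
  · exact Or.inl ⟨_, h1, h.symm⟩
  · exact Or.inr ⟨_, h1, h.symm⟩

private theorem FM1_card_dv (m : ℤ) : (FM1_dv m).card ≤ 2 * m.natAbs.divisors.card := by
  unfold FM1_dv
  refine (Finset.card_union_le _ _).trans ?_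
  have h1 := Finset.card_image_le (s := m.natAbs.divisors) (f := fun d : ℕ => (d : ℤ))
  have h2 := Finset.card_image_le (s := m.natAbs.divisors) (f := fun d : ℕ => -(d : ℤ))
  omega

/-- the size of the quotient -/
private theorem FM1_k (hM : MC ra N H Z V T n1 n2 C D h W G) {u : ℤ × ℤ × ℤ × ℤ}
    (hu : u ∈ GG D h W C) : ∃ k : ℤ, u.2.2.1 * u.2.2.2 + h ^ 2 = u.1 * D * k ∧
      |k| ≤ ((H : ℤ) + 20) ^ 2 * C + 1 := by
  have hb := GG_b hu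
  have hu' := mem_GG.1 hu
  obtain ⟨⟨hb1, hb2⟩, -, ⟨ht1, ht2⟩, ⟨ht1', ht2'⟩, -, -, hgcd, -, -, hD⟩ := hu'
  have hc : IsCoprime u.1 D := Int.isCoprime_iff_gcd_eq_one.2 hgcd
  obtain ⟨k, hk⟩ := hc.mul_dvd hb hD
  refine ⟨k, hk, ?_⟩
  have hCN : (N : ℤ) ≤ C := by exact_mod_cast hM.lo
  have hN1 : (20000 : ℤ) ≤ N := by exact_mod_cast hM.N1
  have hHN : (20000 : ℤ) * H ≤ N := by exact_mod_cast hM.HN
  have hH0 : (0 : ℤ) ≤ H := Int.natCast_nonneg H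
  have hDlo := hM.D_lo
  have hW := hM.W_eq
  have hhH := hM.hH
  have hC0 : (0 : ℤ) < C := by linarith
  have hN2 : (0 : ℤ) < (N : ℤ) ^ 2 := by positivity
  -- the absolute value of the left-hand side
  have h1 : |u.2.2.1 * u.2.2.2| ≤ W * W := by
    rw [abs_mul]
    exact mul_le_mul (abs_le.2 ⟨ht1, ht2⟩) (abs_le.2 ⟨ht1', ht2'⟩) (abs_nonneg _)
      ((abs_nonneg _).trans (abs_le.2 ⟨ht1, ht2⟩))
  have h2 : |h ^ 2| ≤ (H : ℤ) ^ 2 := by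
    rw [abs_pow]
    exact pow_le_pow_left₀ (abs_nonneg _) hhH 2
  have h3 : |u.1 * D * k| ≤ W * W + (H : ℤ) ^ 2 := by
    rw [← hk]
    exact (abs_add_le _ _).trans (add_le_add h1 h2)
  have h4 : (C : ℤ) * (N : ℤ) ^ 2 * |k| ≤ |u.1 * D * k| := by
    rw [abs_mul]
    refine mul_le_mul_of_nonneg_right ?_ (abs_nonneg _)
    have h5 : (C : ℤ) * (N : ℤ) ^ 2 ≤ u.1 * D := mul_le_mul hb1 hDlo.le hN2.le (by linarith)
    exact h5.trans (le_abs_self _)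
  have h6 : (C : ℤ) * (N : ℤ) ^ 2 * |k| ≤
      (C : ℤ) * (N : ℤ) ^ 2 * ((((H : ℤ) + 20) ^ 2 * C)) + (H : ℤ) ^ 2 := by
    refine (h4.trans h3).trans (le_of_eq ?_)
    rw [hW]
    ring
  by_contra hcon
  push Not at hcon
  have h7 : ((H : ℤ) + 20) ^ 2 * C + 2 ≤ |k| := by omega
  have h8 : (C : ℤ) * (N : ℤ) ^ 2 * (((H : ℤ) + 20) ^ 2 * C + 2) ≤ (C : ℤ) * (N : ℤ) ^ 2 * |k| :=
    mul_le_mul_of_nonneg_left h7 (by positivity)
  have h9 : (H : ℤ) ^ 2 ≤ (N : ℤ) ^ 2 := pow_le_pow_left₀ hH0 (by linarith) 2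
  have h10 : (N : ℤ) ^ 2 ≤ (C : ℤ) * (N : ℤ) ^ 2 := by nlinarith
  nlinarith

private theorem FM1_fiber (hM : MC ra N H Z V T n1 n2 C D h W G) (b k : ℤ)
    (hb : (C : ℤ) ≤ b) :
    (((GG D h W C).filter fun u => u.1 = b ∧ u.2.2.1 * u.2.2.2 + h ^ 2 = b * D * k).card : ℝ) ≤
      2 * T * H := by
  classical
  have hT := hM.T2
  have hH0 : (0 : ℝ) ≤ H := Nat.cast_nonneg H
  have hCN : (N : ℤ) ≤ C := by exact_mod_cast hM.lo
  have hN1 : (20000 : ℤ) ≤ N := by exact_mod_cast hM.N1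
  have hb0 : 0 < b := by linarith
  rcases Finset.eq_empty_or_nonempty ((GG D h W C).filter fun u => u.1 = b ∧
    u.2.2.1 * u.2.2.2 + h ^ 2 = b * D * k) with he | ⟨u₀, hu₀⟩
  · rw [he, Finset.card_empty]
    push_cast
    positivity
  -- the product `m` of `τ` and `τ'`
  obtain ⟨m, hm⟩ : ∃ m : ℤ, m = b * D * k - h ^ 2 := ⟨_, rfl⟩
  have hm0 : m ≠ 0 := by
    intro h0
    have hd : D ∣ h ^ 2 := ⟨b * k, by linarith⟩
    have hu : IsUnit D := (hM.hcop.pow_left (m := 2)).symm.isUnit_of_dvd' dvd_rfl hd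
    have h1 := Int.isUnit_iff.1 hu
    have h2 := hM.D_lo
    have h3 : (1 : ℤ) ≤ (N : ℤ) ^ 2 := one_le_pow₀ (by linarith)
    rcases h1 with h1 | h1 <;> linarith
  have hmle : m.natAbs ≤ N ^ 100 := by
    obtain ⟨hu1, -, hu2⟩ := Finset.mem_filter.1 hu₀
    obtain ⟨-, -, ⟨ht1, ht2⟩, ⟨ht1', ht2'⟩, -⟩ := mem_GG.1 hu1
    have e1 : m = u₀.2.2.1 * u₀.2.2.2 := by linarith
    have e2 : |m| ≤ W * W := by
      rw [e1, abs_mul]
      exact mul_le_mul (abs_le.2 ⟨ht1, ht2⟩) (abs_le.2 ⟨ht1', ht2'⟩) (abs_nonneg _)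
        ((abs_nonneg _).trans (abs_le.2 ⟨ht1, ht2⟩))
    have hHN : H + 20 ≤ N := by
      have h1 := hM.HN
      have h2 := hM.H1
      omega
    have hW' : W = (((H + 20) * C * N : ℕ) : ℤ) := by
      rw [hM.W_eq]
      push_cast
      ring
    have e3 : m.natAbs ≤ ((H + 20) * C * N) * ((H + 20) * C * N) := by
      have : (m.natAbs : ℤ) ≤ (((H + 20) * C * N * ((H + 20) * C * N) : ℕ) : ℤ) := by
        rw [Int.natCast_natAbs]
        refine e2.trans (le_of_eq ?_)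
        rw [hW']
        push_cast
        ring
      exact_mod_cast this
    have e4 : (H + 20) * C * N ≤ N * N ^ 3 * N :=
      Nat.mul_le_mul_right _ (Nat.mul_le_mul hHN hM.C_le)
    calc m.natAbs ≤ ((H + 20) * C * N) * ((H + 20) * C * N) := e3
      _ ≤ (N * N ^ 3 * N) * (N * N ^ 3 * N) := Nat.mul_le_mul e4 e4
      _ = N ^ 10 := by ring
      _ ≤ N ^ 100 := Nat.pow_le_pow_right (by have := hM.N1; omega) (by norm_num)
  have htau : (m.natAbs.divisors.card : ℝ) ≤ T :=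
    hM.tau _ (Nat.one_le_iff_ne_zero.2 (Int.natAbs_ne_zero.2 hm0)) hmle
  have hdv : ((FM1_dv m).card : ℝ) ≤ 2 * T := by
    have h1 : ((FM1_dv m).card : ℝ) ≤ 2 * (m.natAbs.divisors.card : ℝ) := by
      exact_mod_cast FM1_card_dv m
    linarith
  -- sum over the values of `τ`
  have hmap : ∀ u ∈ (GG D h W C).filter (fun u => u.1 = b ∧
      u.2.2.1 * u.2.2.2 + h ^ 2 = b * D * k), u.2.2.1 ∈ FM1_dv m := by
    intro u hu
    obtain ⟨-, -, hu2⟩ := Finset.mem_filter.1 hu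
    exact FM1_mem_dv hm0 ⟨u.2.2.2, by linarith⟩
  have hcard : ((GG D h W C).filter (fun u => u.1 = b ∧
      u.2.2.1 * u.2.2.2 + h ^ 2 = b * D * k)).card ≤ (FM1_dv m).card * h.natAbs := by
    rw [Finset.card_eq_sum_card_fiberwise (f := fun u : ℤ × ℤ × ℤ × ℤ => u.2.2.1) (t := FM1_dv m)
      (fun u hu => Finset.mem_coe.2 (hmap u (Finset.mem_coe.1 hu)))]
    refine (Finset.sum_le_card_nsmul (FM1_dv m) _ h.natAbs (fun t _ => ?_)).trans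
      (le_of_eq (smul_eq_mul _ _))
    refine le_trans ?_ (count_a b t h hb0 hM.h0)
    refine Finset.card_le_card_of_injOn (fun u => u.2.1) ?_ ?_
    · intro u hu
      obtain ⟨hu1, hu2⟩ := Finset.mem_filter.1 hu
      obtain ⟨hu3, hu4, hu5⟩ := Finset.mem_filter.1 hu1
      obtain ⟨-, ⟨ha1, -⟩, -, -, ha2, -, -, hd, -, -⟩ := mem_GG.1 hu3
      refine Finset.mem_coe.2 (Finset.mem_filter.2 ⟨Finset.mem_Ico.2 ⟨ha1, ?_⟩, ?_⟩)
      · rw [← hu4]; exact ha2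
      · rw [← hu4, ← hu2]; exact hd
    · intro u hu v hv huv
      obtain ⟨hu1, hu2⟩ := Finset.mem_filter.1 (Finset.mem_coe.1 hu)
      obtain ⟨-, hu4, hu5⟩ := Finset.mem_filter.1 hu1
      obtain ⟨hv1, hv2⟩ := Finset.mem_filter.1 (Finset.mem_coe.1 hv)
      obtain ⟨-, hv4, hv5⟩ := Finset.mem_filter.1 hv1
      have e1 : u.2.1 = v.2.1 := huv
      have e2 : u.2.2.1 = v.2.2.1 := hu2.trans hv2.symm
      have e3 : u.2.2.1 * u.2.2.2 = m := by linarith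
      have e4 : v.2.2.1 * v.2.2.2 = m := by linarith
      have e5 : v.2.2.1 ≠ 0 := by
        intro h0
        rw [h0, zero_mul] at e4
        exact hm0 e4.symm
      have e6 : u.2.2.2 = v.2.2.2 := by
        rw [e2] at e3
        exact mul_left_cancel₀ e5 (e3.trans e4.symm)
      exact Prod.ext (hu4.trans hv4.symm) (Prod.ext e1 (Prod.ext e2 e6))
  have hcardR : (((GG D h W C).filter (fun u => u.1 = b ∧
      u.2.2.1 * u.2.2.2 + h ^ 2 = b * D * k)).card : ℝ) ≤ ((FM1_dv m).card : ℝ) * (h.natAbs : ℝ) := by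
    exact_mod_cast hcard
  have hhR : (h.natAbs : ℝ) ≤ H := by exact_mod_cast hM.hnat
  calc _ ≤ ((FM1_dv m).card : ℝ) * (h.natAbs : ℝ) := hcardR
    _ ≤ (2 * T) * H := mul_le_mul hdv hhR (Nat.cast_nonneg _) (by positivity)
    _ = 2 * T * H := rfl

/-- [FM1] `|GG| ≤ 5000 T H³ C²`.
PROOF. For `u = (b, a, τ, τ') ∈ GG`: `b ∣ τ τ' + h²` (because `a τ τ' ≡ h τ ≡ -a h²` and `a` is a unit
mod `b`), `D ∣ τ τ' + h²`, `gcd (b, D) = 1`, so `τ τ' + h² = b D k`, and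
`|k| ≤ (W² + h²) / (C D) ≤ (H+20)² C + 1` (`W = (H+20) C N`, `D > N²`, `b ≥ C`). Map
`u ↦ (b, k, τ, τ', a)`: at most `C` values of `b`, at most `2 (H+20)² C + 3` values of `k`; given `(b,k)`:
`τ τ' = b D k - h² =: m ≠ 0` (if `m = 0` then `D ∣ h²`, contradiction to `MC.hcop`, `D > 1`),
`0 < |m| ≤ N^100`, so `τ ∣ m`, at most `2 T` values of `τ` (`MC.tau`), and `τ'` is determined; given
`(b, τ)`: `b ∣ τ + a h`, `0 ≤ a < b`: at most `gcd (h, b) ≤ |h| ≤ H` values of `a`.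
Total `≤ C · (2 (H+20)² C + 3) · 2 T · H ≤ 5000 T H³ C²` (`H + 20 ≤ 21 H`). Use `GG_b`, `count_a` of FM0. -/
theorem card_GG (hM : MC ra N H Z V T n1 n2 C D h W G) :
    ((GG D h W C).card : ℝ) ≤ 5000 * T * (H : ℝ) ^ 3 * (C : ℝ) ^ 2 := by
  classical
  have hT := hM.T2
  have hN1 := hM.N1
  have hH1 : (1 : ℝ) ≤ H := by exact_mod_cast hM.H1
  have hC1 : (1 : ℝ) ≤ C := by
    have := hM.lo
    exact_mod_cast (by omega : 1 ≤ C)
  obtain ⟨K0, hK0⟩ : ∃ K0 : ℕ, K0 = (H + 20) ^ 2 * C + 1 := ⟨_, rfl⟩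
  -- the keys `(b, k)`
  have hex : ∀ u ∈ GG D h W C, ∃ k : ℤ, u.2.2.1 * u.2.2.2 + h ^ 2 = u.1 * D * k ∧ |k| ≤ (K0 : ℤ) := by
    intro u hu
    obtain ⟨k, h1, h2⟩ := FM1_k hM hu
    refine ⟨k, h1, ?_⟩
    rw [hK0]
    push_cast
    exact h2
  have hsub : GG D h W C ⊆ (Ico (C : ℤ) (2 * C) ×ˢ Icc (-(K0 : ℤ)) K0).biUnion fun q =>
      (GG D h W C).filter fun u => u.1 = q.1 ∧ u.2.2.1 * u.2.2.2 + h ^ 2 = q.1 * D * q.2 := by
    intro u hu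
    obtain ⟨k, h1, h2⟩ := hex u hu
    obtain ⟨⟨hb1, hb2⟩, -⟩ := mem_GG.1 hu
    rw [Finset.mem_biUnion]
    refine ⟨(u.1, k), Finset.mem_product.2 ⟨Finset.mem_Ico.2 ⟨hb1, hb2⟩,
      Finset.mem_Icc.2 (abs_le.1 h2)⟩, Finset.mem_filter.2 ⟨hu, rfl, h1⟩⟩
  have hle : ((GG D h W C).card : ℝ) ≤
      ∑ q ∈ Ico (C : ℤ) (2 * C) ×ˢ Icc (-(K0 : ℤ)) K0, 2 * T * H := by
    have h1 : (GG D h W C).card ≤ ∑ q ∈ Ico (C : ℤ) (2 * C) ×ˢ Icc (-(K0 : ℤ)) K0,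
        ((GG D h W C).filter fun u => u.1 = q.1 ∧
          u.2.2.1 * u.2.2.2 + h ^ 2 = q.1 * D * q.2).card :=
      (Finset.card_le_card hsub).trans Finset.card_biUnion_le
    have h2 : ((GG D h W C).card : ℝ) ≤ ∑ q ∈ Ico (C : ℤ) (2 * C) ×ˢ Icc (-(K0 : ℤ)) K0,
        (((GG D h W C).filter fun u => u.1 = q.1 ∧
          u.2.2.1 * u.2.2.2 + h ^ 2 = q.1 * D * q.2).card : ℝ) := by exact_mod_cast h1
    refine h2.trans (Finset.sum_le_sum fun q hq => ?_)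
    have hq1 := (Finset.mem_product.1 hq).1
    exact FM1_fiber hM q.1 q.2 (Finset.mem_Ico.1 hq1).1
  rw [Finset.sum_const, Finset.card_product, nsmul_eq_mul] at hle
  have hcB : (Ico (C : ℤ) (2 * C)).card = C := by
    rw [Int.card_Ico]
    omega
  have hcK : (Icc (-(K0 : ℤ)) K0).card = 2 * K0 + 1 := by
    rw [Int.card_Icc]
    omega
  rw [hcB, hcK] at hle
  refine hle.trans ?_
  push_cast
  have hK0R : (K0 : ℝ) = ((H : ℝ) + 20) ^ 2 * C + 1 := by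
    rw [hK0]
    push_cast
    ring
  rw [hK0R]
  have e1 : ((H : ℝ) + 20) ^ 2 ≤ 441 * (H : ℝ) ^ 2 := by nlinarith
  have e2 : 2 * (((H : ℝ) + 20) ^ 2 * C + 1) + 1 ≤ 885 * (H : ℝ) ^ 2 * C := by
    have e3 : ((H : ℝ) + 20) ^ 2 * C ≤ 441 * (H : ℝ) ^ 2 * C :=
      mul_le_mul_of_nonneg_right e1 (by linarith)
    have e4 : (1 : ℝ) ≤ (H : ℝ) ^ 2 := one_le_pow₀ hH1
    have e5 : (1 : ℝ) ≤ (H : ℝ) ^ 2 * C := by nlinarith
    linarith
  have e6 : (C : ℝ) * (2 * (((H : ℝ) + 20) ^ 2 * C + 1) + 1) ≤ C * (885 * (H : ℝ) ^ 2 * C) :=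
    mul_le_mul_of_nonneg_left e2 (by linarith)
  have e7 : (C : ℝ) * (2 * (((H : ℝ) + 20) ^ 2 * C + 1) + 1) * (2 * T * H) ≤
      C * (885 * (H : ℝ) ^ 2 * C) * (2 * T * H) :=
    mul_le_mul_of_nonneg_right e6 (by positivity)
  refine e7.trans ?_
  have e8 : C * (885 * (H : ℝ) ^ 2 * C) * (2 * T * H) = 1770 * (T * (H : ℝ) ^ 3 * (C : ℝ) ^ 2) := by
    ring
  have e9 : 5000 * T * (H : ℝ) ^ 3 * (C : ℝ) ^ 2 = 5000 * (T * (H : ℝ) ^ 3 * (C : ℝ) ^ 2) := by ring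
  have e10 : 0 ≤ T * (H : ℝ) ^ 3 * (C : ℝ) ^ 2 := by positivity
  rw [e8, e9]
  linarith

end Pool.Agent.TIA.FM
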