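import Pool.Agent.TIA.Defs
import Pool.Agent.TII.P0
import Pool.Agent.TII.A7

/-!
# [TII-P3a] the function `Fo` on `P1 n1 × P1 n2`; stabilisers
-/

set_option autoImplicit false

namespace Pool.Agent.TIA

open Finset Pool.Agent.TII

variable {ra : ℤ}

/-- the base point `(e₁ mod n1, e₂ mod n2)` -/
def z0 (n1 n2 : ℕ) : P1 n1 × P1 n2 := (pt n1 1 0, pt n2 0 1)

/-- the number of `t ∈ W` with `z = ((h : -t) mod n1, (h : -t) mod n2)`, `h = n1 - n2` -/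
def Fo (ra : ℤ) (W : Finset ℤ) (n1 n2 : ℕ) (z : P1 n1 × P1 n2) : ℝ :=
  ((W.filter fun t : ℤ => z.1 = pt n1 ((ra * ((n1 : ℤ) - n2) : ℤ) : ZMod n1) ((-t : ℤ) : ZMod n1) ∧
    z.2 = pt n2 ((ra * ((n1 : ℤ) - n2) : ℤ) : ZMod n2) ((-t : ℤ) : ZMod n2)).card : ℝ)

/-- `smul_pt`, `pt_eq_iff`, `ZMod.intCast_zmod_eq_zero_iff_dvd` -/
theorem stab_e1 {l : ℕ} [Fact l.Prime] (g : SL) : g • pt l 1 0 = pt l 1 0 ↔ (l : ℤ) ∣ g.1 1 0 := by
  rw [smul_pt g 1 0 (Or.inl one_ne_zero),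
    pt_eq_iff _ _ _ _ (vec_ne_zero g 1 0 (Or.inl one_ne_zero)) (Or.inl one_ne_zero),
    ← ZMod.intCast_zmod_eq_zero_iff_dvd]
  simp only [mul_one, mul_zero, add_zero]
  exact eq_comm

theorem stab_e2 {l : ℕ} [Fact l.Prime] (g : SL) : g • pt l 0 1 = pt l 0 1 ↔ (l : ℤ) ∣ g.1 0 1 := by
  rw [smul_pt g 0 1 (Or.inr one_ne_zero),
    pt_eq_iff _ _ _ _ (vec_ne_zero g 0 1 (Or.inr one_ne_zero)) (Or.inr one_ne_zero),
    ← ZMod.intCast_zmod_eq_zero_iff_dvd]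
  simp only [mul_one, mul_zero, zero_add]

/-- `h = n1 - n2` is a unit modulo `n1` and modulo `n2` -/
theorem Pair.unit {N H n1 n2 : ℕ} (h : Pair ra N H n1 n2) :
    ((ra * ((n1 : ℤ) - n2) : ℤ) : ZMod n1) ≠ 0 ∧ ((ra * ((n1 : ℤ) - n2) : ℤ) : ZMod n2) ≠ 0 := by
  have h1 : ra * ((n1 : ℤ) - n2) ≠ 0 := by
    refine mul_ne_zero h.ra0 ?_
    intro h0
    apply h.ne
    have : (n1 : ℤ) = n2 := by linarith
    exact_mod_cast this
  have hpos : 0 < |ra * ((n1 : ℤ) - n2)| := abs_pos.mpr h1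
  have h2 := h.dist
  have h3 := h.HN
  have h4 := h.l1
  have h5 := h.l2
  constructor
  · intro h0
    rw [ZMod.intCast_zmod_eq_zero_iff_dvd] at h0
    have h6 := Int.le_of_dvd hpos ((dvd_abs _ _).mpr h0)
    omega
  · intro h0
    rw [ZMod.intCast_zmod_eq_zero_iff_dvd] at h0
    have h6 := Int.le_of_dvd hpos ((dvd_abs _ _).mpr h0)
    omega

/-- [P3] `smul_pt`: `g • z0 = ((q1 : x), (q2 : y))`; `pt_eq_iff` with `Pair.unit` -/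
theorem FF_eq {N H n1 n2 : ℕ} (h : Pair ra N H n1 n2) [Fact n1.Prime] [Fact n2.Prime] (W : Finset ℤ) (g : SL) :
    FF ra W n1 n2 g = Fo ra W n1 n2 (g • z0 n1 n2) := by
  unfold FF Fo
  congr 2
  apply Finset.filter_congr
  intro t _
  have e1 : (g • z0 n1 n2).1 = g • pt n1 1 0 := rfl
  have e2 : (g • z0 n1 n2).2 = g • pt n2 0 1 := rfl
  rw [e1, e2]
  rw [smul_pt g 1 0 (Or.inl one_ne_zero), smul_pt g 0 1 (Or.inr one_ne_zero),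
    pt_eq_iff _ _ _ _ (vec_ne_zero g 1 0 (Or.inl one_ne_zero)) (Or.inl h.unit.1),
    pt_eq_iff _ _ _ _ (vec_ne_zero g 0 1 (Or.inr one_ne_zero)) (Or.inl h.unit.2),
    ← ZMod.intCast_zmod_eq_zero_iff_dvd, ← ZMod.intCast_zmod_eq_zero_iff_dvd]
  push_cast
  constructor
  · rintro ⟨h1, h2⟩
    exact ⟨by linear_combination -h1, by linear_combination -h2⟩
  · rintro ⟨h1, h2⟩
    exact ⟨by linear_combination -h1, by linear_combination -h2⟩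

theorem Fo_nonneg (W : Finset ℤ) (n1 n2 : ℕ) (z : P1 n1 × P1 n2) : 0 ≤ Fo ra W n1 n2 z := by
  unfold Fo
  exact Nat.cast_nonneg _

/-- the point `z_t` -/
def P3a_zt (ra : ℤ) (n1 n2 : ℕ) (t : ℤ) : P1 n1 × P1 n2 :=
  (pt n1 ((ra * ((n1 : ℤ) - n2) : ℤ) : ZMod n1) ((-t : ℤ) : ZMod n1),
    pt n2 ((ra * ((n1 : ℤ) - n2) : ℤ) : ZMod n2) ((-t : ℤ) : ZMod n2))

theorem P3a_Fo (W : Finset ℤ) (n1 n2 : ℕ) (z : P1 n1 × P1 n2) :
    Fo ra W n1 n2 z = ∑ t ∈ W, if z = P3a_zt ra n1 n2 t then (1 : ℝ) else 0 := by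
  unfold Fo
  rw [Finset.card_filter]
  push_cast
  apply Finset.sum_congr rfl
  intro t _
  have : (z = P3a_zt ra n1 n2 t) ↔ (z.1 = pt n1 ((ra * ((n1 : ℤ) - n2) : ℤ) : ZMod n1) ((-t : ℤ) : ZMod n1) ∧
    z.2 = pt n2 ((ra * ((n1 : ℤ) - n2) : ℤ) : ZMod n2) ((-t : ℤ) : ZMod n2)) := Prod.ext_iff
  by_cases hz : z = P3a_zt ra n1 n2 t
  · rw [if_pos hz, if_pos]
    have := this.1 hz
    push_cast at this
    exact this
  · rw [if_neg hz, if_neg]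
    intro hh
    apply hz
    rw [this]
    push_cast
    exact hh

theorem P3a_iff {N H n1 n2 : ℕ} (h : Pair ra N H n1 n2) [Fact n1.Prime] [Fact n2.Prime] (δ : SL) (t t' : ℤ) :
    δ • P3a_zt ra n1 n2 t = P3a_zt ra n1 n2 t' ↔ ((n1 : ℤ) * n2) ∣
    δ.1 0 1 * t * t' - δ.1 0 0 * (ra * ((n1 : ℤ) - n2)) * t' + δ.1 1 1 * (ra * ((n1 : ℤ) - n2)) * t -
      δ.1 1 0 * (ra * ((n1 : ℤ) - n2)) ^ 2 := by
  have hcop : IsCoprime (n1 : ℤ) (n2 : ℤ) := by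
    rw [Nat.isCoprime_iff_coprime]
    exact (Nat.coprime_primes h.p1 h.p2).2 h.ne
  rw [Prod.ext_iff]
  have e1 : (δ • P3a_zt ra n1 n2 t).1 = δ • pt n1 ((ra * ((n1 : ℤ) - n2) : ℤ) : ZMod n1) ((-t : ℤ) : ZMod n1) := rfl
  have e2 : (δ • P3a_zt ra n1 n2 t).2 = δ • pt n2 ((ra * ((n1 : ℤ) - n2) : ℤ) : ZMod n2) ((-t : ℤ) : ZMod n2) := rfl
  rw [e1, e2]
  rw [smul_pt δ _ _ (Or.inl h.unit.1), smul_pt δ _ _ (Or.inl h.unit.2)]
  show _ = pt n1 ((ra * ((n1 : ℤ) - n2) : ℤ) : ZMod n1) ((-t' : ℤ) : ZMod n1) ∧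
    _ = pt n2 ((ra * ((n1 : ℤ) - n2) : ℤ) : ZMod n2) ((-t' : ℤ) : ZMod n2) ↔ _
  rw [pt_eq_iff _ _ _ _ (vec_ne_zero δ _ _ (Or.inl h.unit.1)) (Or.inl h.unit.1),
    pt_eq_iff _ _ _ _ (vec_ne_zero δ _ _ (Or.inl h.unit.2)) (Or.inl h.unit.2)]
  constructor
  · rintro ⟨h1, h2⟩
    apply hcop.mul_dvd
    · rw [← ZMod.intCast_zmod_eq_zero_iff_dvd]
      push_cast at h1 ⊢
      linear_combination h1
    · rw [← ZMod.intCast_zmod_eq_zero_iff_dvd]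
      push_cast at h2 ⊢
      linear_combination h2
  · intro hd
    have h1 := (dvd_mul_right (n1 : ℤ) (n2 : ℤ)).trans hd
    have h2 := (dvd_mul_left (n2 : ℤ) (n1 : ℤ)).trans hd
    rw [← ZMod.intCast_zmod_eq_zero_iff_dvd] at h1 h2
    push_cast at h1 h2 ⊢
    exact ⟨by linear_combination h1, by linear_combination h2⟩

/-- [P5] `∑_z Fo(δ z) Fo(z) = #{(t, t') : δ z_t = z_{t'}}`, `z_t = ((h : -t), (h : -t))`, `δ z_t = (a h - b t : c h - d t)`; `smul_pt`, `pt_eq_iff`, coprimality of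
`n1, n2` (`IsCoprime.mul_dvd`). -/
theorem sum_Fo_smul {N H n1 n2 : ℕ} (h : Pair ra N H n1 n2) [Fact n1.Prime] [Fact n2.Prime] (W : Finset ℤ) (δ : SL) :
    ∑ z, Fo ra W n1 n2 (δ • z) * Fo ra W n1 n2 z = rr ra W n1 n2 δ := by
  simp_rw [P3a_Fo]
  simp_rw [Finset.sum_mul_sum]
  rw [Finset.sum_comm]
  unfold rr
  rw [Finset.card_filter]
  push_cast
  rw [Finset.sum_product_right]
  apply Finset.sum_congr rfl
  intro t' _
  rw [Finset.sum_comm]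
  apply Finset.sum_congr rfl
  intro t _
  rw [Finset.sum_eq_single (P3a_zt ra n1 n2 t)]
  · rw [if_pos rfl, mul_one]
    exact if_congr (P3a_iff h δ t t') rfl rfl
  · intro z _ hz
    rw [if_neg hz, mul_zero]
  · intro hh
    exact absurd (Finset.mem_univ _) hh

end Pool.Agent.TIA
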