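import Pool.Agent.TIA.P3b
import Pool.Agent.TIA.FD
import Pool.Agent.TII.G4

/-!
# [TII-SM1a] weighted dyadic summation over a ball
-/

set_option autoImplicit false

namespace Pool.Agent.TIA

open Finset Pool.Agent.TII

variable {ra : ℤ}

/-- [SM1a] weighted dyadic summation. Proof. `dyadic` with `f = nm` (all `nm δ ≤ 2 R²`); the elements of `ball (2 R²)` with `nm < 2^(j+1)` form `ball y_j`,
`y_j = min (2^(j+1) - 1) (2 R²)`; `y_j ≤ 2^(j+1)` and `2^j ≤ 2 R²`, at most `T` values of `j`. -/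
theorem dyadic_ball {V : ℕ} {T : ℝ} (hL : Loss V T) (R : ℕ) (hR : 1 ≤ R) (hV : 2 * R ^ 2 ≤ V) (w : SL → ℝ)
    (hw : ∀ δ, 0 ≤ w δ) (a b : ℝ) (ha : 0 ≤ a) (hb : 0 ≤ b)
    (h : ∀ y : ℕ, 1 ≤ y → y ≤ 2 * R ^ 2 → ∑ δ ∈ ball y, w δ ≤ a * (y : ℝ) ^ 2 + b * y) :
    ∑ δ ∈ ball (2 * R ^ 2), w δ / nm δ ≤ T * (8 * a * (R : ℝ) ^ 2 + 2 * b) := by
  have hM1 : 1 ≤ 2 * R ^ 2 := by nlinarith [Nat.one_le_pow 2 R hR]
  have hR2 : (1 : ℝ) ≤ (R : ℝ) ^ 2 := by exact_mod_cast Nat.one_le_pow 2 R hR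
  refine (dyadic (ball (2 * R ^ 2)) nm (2 * R ^ 2) (fun i hi => ⟨one_le_nm i, mem_ball.1 hi⟩) w
    (fun i _ => hw i)).trans ?_
  have hterm : ∀ j ∈ range (Nat.log 2 (2 * R ^ 2) + 1),
      (1 / 2 ^ j) * ∑ δ ∈ (ball (2 * R ^ 2)).filter (fun δ => nm δ < 2 ^ (j + 1)), w δ ≤
        8 * a * (R : ℝ) ^ 2 + 2 * b := by
    intro j _
    have hpow : 1 ≤ 2 ^ j := Nat.one_le_two_pow
    have hpow' : 2 ^ (j + 1) = 2 * 2 ^ j := by ring
    obtain ⟨y, hy⟩ : ∃ y, y = min (2 ^ (j + 1) - 1) (2 * R ^ 2) := ⟨_, rfl⟩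
    have hfil : (ball (2 * R ^ 2)).filter (fun δ => nm δ < 2 ^ (j + 1)) = ball y := by
      ext δ
      rw [mem_filter, mem_ball, mem_ball, hy, le_min_iff]
      omega
    have hy1 : 1 ≤ y := by rw [hy, le_min_iff]; omega
    have hyM : y ≤ 2 * R ^ 2 := by rw [hy]; exact min_le_right _ _
    have hyj : y ≤ 2 * 2 ^ j := by
      have : y ≤ 2 ^ (j + 1) - 1 := by rw [hy]; exact min_le_left _ _
      omega
    have hb1 := h y hy1 hyM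
    have hyMr : (y : ℝ) ≤ 2 * (R : ℝ) ^ 2 := by exact_mod_cast hyM
    have hyjr : (y : ℝ) ≤ 2 * 2 ^ j := by exact_mod_cast hyj
    have hy0 : (0 : ℝ) ≤ y := Nat.cast_nonneg y
    have h2j : (0 : ℝ) < 2 ^ j := by positivity
    rw [hfil, one_div, inv_mul_le_iff₀ h2j]
    refine hb1.trans ?_
    have e1 : (y : ℝ) ^ 2 ≤ (2 * 2 ^ j) * (2 * (R : ℝ) ^ 2) := by
      rw [sq]
      exact mul_le_mul hyjr hyMr hy0 (by positivity)
    have e2 : a * (y : ℝ) ^ 2 ≤ a * ((2 * 2 ^ j) * (2 * (R : ℝ) ^ 2)) :=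
      mul_le_mul_of_nonneg_left e1 ha
    have e3 : b * (y : ℝ) ≤ b * (2 * 2 ^ j) := mul_le_mul_of_nonneg_left hyjr hb
    have e4 : 0 ≤ a * (R : ℝ) ^ 2 * 2 ^ j := by positivity
    nlinarith [e2, e3, e4]
  refine (sum_le_sum hterm).trans ?_
  rw [sum_const, card_range, nsmul_eq_mul]
  refine mul_le_mul_of_nonneg_right ?_ (by positivity)
  have hlog : Nat.log 2 (2 * R ^ 2) ≤ Nat.log 2 V := Nat.log_mono_right hV
  have hlog' : (Nat.log 2 (2 * R ^ 2) : ℝ) ≤ Nat.log 2 V := by exact_mod_cast hlog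
  have := hL.log
  push_cast
  linarith


end Pool.Agent.TIA
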