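import Pool.Agent.TIA.SM1a

/-!
# [TII-SM1b] norm of the ball average of `Fo`
-/

set_option autoImplicit false

namespace Pool.Agent.TIA

open Finset Pool.Agent.TII

variable {ra : ℤ}

private theorem SM1b_size {N H Z V : ℕ} {T : ℝ} (hP : Par N H Z V T) : N ^ 2 * Z ^ 5 ≤ V := by
  have hT := hP.loss.two
  have hH : (1 : ℝ) ≤ H := by exact_mod_cast hP.hH
  have hZ : (2 : ℝ) ≤ Z := by exact_mod_cast hP.hZ
  have h1 : (Z : ℝ) ≤ 10000 * T * H * Z := by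
    have : (1 : ℝ) ≤ 10000 * T * H := by nlinarith
    nlinarith
  have h2 : (Z : ℝ) ^ 100 ≤ N := (pow_le_pow_left₀ (by linarith) h1 100).trans hP.hN
  have h3 : Z ^ 100 ≤ N := by exact_mod_cast h2
  have hZ1 : 1 ≤ Z := by have := hP.hZ; omega
  have h4 : Z ^ 5 ≤ Z ^ 100 := Nat.pow_le_pow_right hZ1 (by norm_num)
  have h5 : Z ^ 5 ≤ N := h4.trans h3
  have hN1 : 1 ≤ N := le_trans (Nat.one_le_pow _ _ hZ1) h5
  calc N ^ 2 * Z ^ 5 ≤ N ^ 2 * N := Nat.mul_le_mul_left _ h5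
    _ = N ^ 3 := by ring
    _ ≤ N ^ 100 := Nat.pow_le_pow_right hN1 (by norm_num)
    _ ≤ V := hP.hV

/-- [SM1b] Proof. `av_norm`, `sum_Fo_smul`, `FD1`, `dyadic_ball` (`2 R² ≤ N² Z⁵ ≤ N^100 ≤ V`). -/
theorem norm_Fo : ∃ C : ℝ, ∃ k : ℕ, 0 < C ∧ ∀ (ra : ℤ) (N H Z V : ℕ) (T : ℝ) (W : Finset ℤ) (n₁ n₂ R : ℕ)
    [Fact n₁.Prime] [Fact n₂.Prime], Par N H Z V T → Win N W → Pair ra N H n₁ n₂ → 1 ≤ R → 2 * R ^ 2 ≤ N ^ 2 * Z ^ 5 →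
      n2 (av (ball R) (Fo ra W n₁ n₂)) ≤ C * T ^ k * (H * (R : ℝ) ^ 4 + (R : ℝ) ^ 2 * N) := by
  obtain ⟨C, k, hC, hFD⟩ := FD1
  refine ⟨960 * C, k + 1, by positivity, ?_⟩
  intro ra N H Z V T W n₁ n₂ R _ _ hP hW hPair hR hRV
  have hT0 : (0 : ℝ) ≤ T := le_trans (by norm_num) hP.loss.two
  have hCT : 0 ≤ C * T ^ k := by positivity
  have h1 := av_norm (Ω := P1 n₁ × P1 n₂) R (Fo ra W n₁ n₂) (Fo_nonneg W n₁ n₂)
  have h2 : ∑ δ ∈ ball (2 * R ^ 2), 120 * (R : ℝ) ^ 2 *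
      (∑ z, Fo ra W n₁ n₂ (δ • z) * Fo ra W n₁ n₂ z) / nm δ =
      120 * (R : ℝ) ^ 2 * ∑ δ ∈ ball (2 * R ^ 2), (rr ra W n₁ n₂ δ : ℝ) / nm δ := by
    rw [Finset.mul_sum]
    apply Finset.sum_congr rfl
    intro δ _
    rw [sum_Fo_smul hPair W δ]
    ring
  rw [h2] at h1
  have h3 := dyadic_ball hP.loss R hR (hRV.trans (SM1b_size hP)) (fun δ => (rr ra W n₁ n₂ δ : ℝ))
    (fun δ => by positivity) (C * T ^ k * H) (C * T ^ k * N) (by positivity) (by positivity) (by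
      intro y hy1 hy2
      refine (hFD ra N H Z V T W n₁ n₂ y hP hW hPair hy1 (hy2.trans hRV)).trans (le_of_eq ?_)
      ring)
  calc n2 (av (ball R) (Fo ra W n₁ n₂))
      ≤ 120 * (R : ℝ) ^ 2 * ∑ δ ∈ ball (2 * R ^ 2), (rr ra W n₁ n₂ δ : ℝ) / nm δ := h1
    _ ≤ 120 * (R : ℝ) ^ 2 * (T * (8 * (C * T ^ k * H) * (R : ℝ) ^ 2 + 2 * (C * T ^ k * N))) :=
        mul_le_mul_of_nonneg_left h3 (by positivity)
    _ = C * T ^ k * T * (960 * (H * (R : ℝ) ^ 4)) + C * T ^ k * T * (240 * ((R : ℝ) ^ 2 * N)) := by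
        ring
    _ ≤ C * T ^ k * T * (960 * (H * (R : ℝ) ^ 4)) + C * T ^ k * T * (960 * ((R : ℝ) ^ 2 * N)) := by
        have h4 : 0 ≤ (R : ℝ) ^ 2 * N := by positivity
        have h5 : 0 ≤ C * T ^ k * T := by positivity
        have h6 : 240 * ((R : ℝ) ^ 2 * N) ≤ 960 * ((R : ℝ) ^ 2 * N) := by linarith
        have := mul_le_mul_of_nonneg_left h6 h5
        linarith
    _ = 960 * C * T ^ (k + 1) * (H * (R : ℝ) ^ 4 + (R : ℝ) ^ 2 * N) := by ring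

end Pool.Agent.TIA
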