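import Pool.Agent.TIA.SM1b
import Pool.Agent.TIA.SM2

/-!
# [TII-SM4d] the diagonal in class (G)
-/

set_option autoImplicit false

namespace Pool.Agent.TIA

open Finset Pool.Agent.TII

variable {ra : ℤ}

/-- the numerical part of `G_diag` -/
theorem SM4d_calc (C0 t h : ℝ) (k : ℕ) (N R Zm Y : ℕ) (n4 n2n cR cB cY m : ℝ) (hC : 0 < C0) (ht : 1 ≤ t) (hh : 1 ≤ h)
    (hN : 1 ≤ N) (hR1 : 1 ≤ R) (hNR : N ≤ 2 * R) (hNY : N ^ 2 ≤ 4 * Y)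
    (hB0 : 0 ≤ cB) (hB : cB ≤ 120 * (Zm : ℝ) ^ 2) (hRR : cR ≤ 120 * (R : ℝ) ^ 2)
    (hY0' : 0 ≤ cY) (hYY : cY ≤ 120 * (Y : ℝ) ^ 2) (hm0 : 0 ≤ m) (hm : m ≤ 1 / N)
    (h1 : n4 ≤ cB ^ 2 * (C0 * t ^ k * (h * (R : ℝ) ^ 4 + (R : ℝ) ^ 2 * N)))
    (h2 : n2n ≤ 20000 * t ^ 2 * ((Y : ℝ) ^ 2 * (1 + (Y : ℝ) ^ 2 / (N : ℝ) ^ 2))) :
    Real.sqrt n4 * Real.sqrt n2n + cR * (cB * (cY * m ^ 2)) ≤
      (72000 * (3 * C0 + 1) + 1728000) * t ^ (k + 1) * Real.sqrt h * (((R : ℝ) * Zm * Y) ^ 2 / N) := by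
  have hNr : (1 : ℝ) ≤ N := by exact_mod_cast hN
  have hRr : (N : ℝ) ≤ 2 * R := by exact_mod_cast hNR
  have hYr : (N : ℝ) ^ 2 ≤ 4 * Y := by exact_mod_cast hNY
  have hR1r : (1 : ℝ) ≤ R := by exact_mod_cast hR1
  have hR0 : (0 : ℝ) ≤ R := Nat.cast_nonneg _
  have hY0 : (0 : ℝ) ≤ Y := Nat.cast_nonneg _
  have hZ0 : (0 : ℝ) ≤ Zm := Nat.cast_nonneg _
  have htk : 1 ≤ t ^ k := one_le_pow₀ ht
  have htk1 : 1 ≤ t ^ (k + 1) := one_le_pow₀ ht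
  have hs1 : 1 ≤ Real.sqrt h := Real.one_le_sqrt.2 hh
  have hss : Real.sqrt h ^ 2 = h := Real.sq_sqrt (by linarith)
  set u := t ^ k with hudef
  -- the first factor
  have hA : Real.sqrt n4 ≤ 120 * (Zm : ℝ) ^ 2 * (R : ℝ) ^ 2 * ((3 * C0 + 1) * u * Real.sqrt h) := by
    refine Real.sqrt_le_iff.2 ⟨by positivity, h1.trans ?_⟩
    have e1 : h * (R : ℝ) ^ 4 + (R : ℝ) ^ 2 * N ≤ 3 * h * (R : ℝ) ^ 4 := by
      have a1 : (R : ℝ) ^ 2 * N ≤ 2 * (R : ℝ) ^ 3 := by nlinarith [sq_nonneg (R : ℝ)]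
      have a2 : (R : ℝ) ^ 3 ≤ (R : ℝ) ^ 4 := pow_le_pow_right₀ hR1r (by norm_num)
      have a3 : (R : ℝ) ^ 4 ≤ h * (R : ℝ) ^ 4 := le_mul_of_one_le_left (by positivity) hh
      linarith
    have e2 : cB ^ 2 ≤ (120 * (Zm : ℝ) ^ 2) ^ 2 := pow_le_pow_left₀ hB0 hB 2
    have e3 : C0 * u * (h * (R : ℝ) ^ 4 + (R : ℝ) ^ 2 * N) ≤ (3 * C0 * u * h) * (R : ℝ) ^ 4 := by
      calc C0 * u * (h * (R : ℝ) ^ 4 + (R : ℝ) ^ 2 * N)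
          ≤ C0 * u * (3 * h * (R : ℝ) ^ 4) := mul_le_mul_of_nonneg_left e1 (by positivity)
        _ = _ := by ring
    have e4 : 3 * C0 * u * h ≤ ((3 * C0 + 1) * u * Real.sqrt h) ^ 2 := by
      rw [mul_pow, hss, mul_pow]
      have hu2 : u ≤ u ^ 2 := by nlinarith
      have hc2 : 3 * C0 ≤ (3 * C0 + 1) ^ 2 := by nlinarith
      apply mul_le_mul_of_nonneg_right _ (by linarith)
      calc 3 * C0 * u ≤ (3 * C0 + 1) ^ 2 * u := mul_le_mul_of_nonneg_right hc2 (by linarith)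
        _ ≤ (3 * C0 + 1) ^ 2 * u ^ 2 := mul_le_mul_of_nonneg_left hu2 (by positivity)
    calc cB ^ 2 * (C0 * u * (h * (R : ℝ) ^ 4 + (R : ℝ) ^ 2 * N))
        ≤ (120 * (Zm : ℝ) ^ 2) ^ 2 * ((3 * C0 * u * h) * (R : ℝ) ^ 4) :=
          mul_le_mul e2 e3 (by positivity) (by positivity)
      _ ≤ (120 * (Zm : ℝ) ^ 2) ^ 2 * ((((3 * C0 + 1) * u * Real.sqrt h) ^ 2) * (R : ℝ) ^ 4) := by
          apply mul_le_mul_of_nonneg_left _ (by positivity)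
          exact mul_le_mul_of_nonneg_right e4 (by positivity)
      _ = _ := by ring
  -- the second factor
  have hB' : Real.sqrt n2n ≤ 600 * t * (Y : ℝ) ^ 2 / N := by
    refine Real.sqrt_le_iff.2 ⟨by positivity, h2.trans ?_⟩
    have hN2 : 0 < (N : ℝ) ^ 2 := by positivity
    have e2 : 1 ≤ 16 * ((Y : ℝ) ^ 2 / (N : ℝ) ^ 2) := by
      rw [← mul_div_assoc, le_div_iff₀ hN2, one_mul]
      have : ((N : ℝ) ^ 2) ^ 2 ≤ (4 * Y) ^ 2 := pow_le_pow_left₀ (by positivity) hYr 2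
      have h34 : (N : ℝ) ^ 2 ≤ (N : ℝ) ^ 4 := pow_le_pow_right₀ hNr (by norm_num)
      nlinarith
    have e3 : (600 * t * (Y : ℝ) ^ 2 / N) ^ 2 = 360000 * t ^ 2 * ((Y : ℝ) ^ 2 * ((Y : ℝ) ^ 2 / (N : ℝ) ^ 2)) := by
      rw [div_pow]
      ring
    rw [e3]
    have e4 : (Y : ℝ) ^ 2 * (1 + (Y : ℝ) ^ 2 / (N : ℝ) ^ 2) ≤ 17 * ((Y : ℝ) ^ 2 * ((Y : ℝ) ^ 2 / (N : ℝ) ^ 2)) := by
      have : 1 + (Y : ℝ) ^ 2 / (N : ℝ) ^ 2 ≤ 17 * ((Y : ℝ) ^ 2 / (N : ℝ) ^ 2) := by linarith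
      calc (Y : ℝ) ^ 2 * (1 + (Y : ℝ) ^ 2 / (N : ℝ) ^ 2) ≤ (Y : ℝ) ^ 2 * (17 * ((Y : ℝ) ^ 2 / (N : ℝ) ^ 2)) :=
            mul_le_mul_of_nonneg_left this (by positivity)
        _ = _ := by ring
    have e5 : 0 ≤ t ^ 2 * ((Y : ℝ) ^ 2 * ((Y : ℝ) ^ 2 / (N : ℝ) ^ 2)) := by positivity
    calc 20000 * t ^ 2 * ((Y : ℝ) ^ 2 * (1 + (Y : ℝ) ^ 2 / (N : ℝ) ^ 2))
        ≤ 20000 * t ^ 2 * (17 * ((Y : ℝ) ^ 2 * ((Y : ℝ) ^ 2 / (N : ℝ) ^ 2))) :=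
          mul_le_mul_of_nonneg_left e4 (by positivity)
      _ ≤ _ := by nlinarith
  have hP0 : 0 ≤ ((R : ℝ) * Zm * Y) ^ 2 / N := by positivity
  have part1 : Real.sqrt n4 * Real.sqrt n2n ≤
      72000 * (3 * C0 + 1) * (t ^ (k + 1) * Real.sqrt h * (((R : ℝ) * Zm * Y) ^ 2 / N)) := by
    calc Real.sqrt n4 * Real.sqrt n2n
        ≤ (120 * (Zm : ℝ) ^ 2 * (R : ℝ) ^ 2 * ((3 * C0 + 1) * u * Real.sqrt h)) * (600 * t * (Y : ℝ) ^ 2 / N) :=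
          mul_le_mul hA hB' (Real.sqrt_nonneg _) (by positivity)
      _ = _ := by
          rw [hudef, pow_succ]; ring
  have part2 : cR * (cB * (cY * m ^ 2)) ≤ 1728000 * (t ^ (k + 1) * Real.sqrt h * (((R : ℝ) * Zm * Y) ^ 2 / N)) := by
    have m2 : m ^ 2 ≤ 1 / N := by
      have a1 : m ^ 2 ≤ (1 / (N : ℝ)) ^ 2 := pow_le_pow_left₀ hm0 hm 2
      have a2 : 1 / (N : ℝ) ≤ 1 := by
        rw [div_le_one (by linarith)]; exact hNr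
      have a3 : 0 ≤ 1 / (N : ℝ) := by positivity
      nlinarith
    calc cR * (cB * (cY * m ^ 2))
        ≤ (120 * (R : ℝ) ^ 2) * ((120 * (Zm : ℝ) ^ 2) * ((120 * (Y : ℝ) ^ 2) * (1 / N))) := by
          apply mul_le_mul hRR _ (by positivity) (by positivity)
          apply mul_le_mul hB _ (by positivity) (by positivity)
          exact mul_le_mul hYY m2 (by positivity) (by positivity)
      _ = 1728000 * (1 * 1 * (((R : ℝ) * Zm * Y) ^ 2 / N)) := by ring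
      _ ≤ _ := by
          apply mul_le_mul_of_nonneg_left _ (by norm_num)
          apply mul_le_mul_of_nonneg_right _ hP0
          exact mul_le_mul htk1 hs1 (by norm_num) (by linarith)
  calc Real.sqrt n4 * Real.sqrt n2n + cR * (cB * (cY * m ^ 2))
      ≤ 72000 * (3 * C0 + 1) * (t ^ (k + 1) * Real.sqrt h * (((R : ℝ) * Zm * Y) ^ 2 / N)) +
        1728000 * (t ^ (k + 1) * Real.sqrt h * (((R : ℝ) * Zm * Y) ^ 2 / N)) := add_le_add part1 part2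
    _ = _ := by ring

/-- `N ≥ 2` -/
theorem SM4d_two {N H Z V : ℕ} {T : ℝ} (hP : Par N H Z V T) : 2 ≤ N := by
  have hT2 : 2 ≤ T := hP.loss.two
  have h1 := hP.hN
  have hH : (1 : ℝ) ≤ H := by exact_mod_cast hP.hH
  have hZ : (2 : ℝ) ≤ Z := by exact_mod_cast hP.hZ
  have h2 : (2 : ℝ) ≤ 10000 * T * H * Z := by
    have a1 : (1 : ℝ) ≤ T * H := by nlinarith
    have a2 : (1 : ℝ) ≤ T * H * Z := by nlinarith
    nlinarith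
  generalize 10000 * T * H * Z = x at h1 h2
  have h3 : x ≤ x ^ 100 := le_self_pow₀ (by linarith) (by norm_num)
  have h4 : (2 : ℝ) ≤ N := h2.trans (h3.trans h1)
  exact_mod_cast h4

/-- [SM4b-2] the diagonal. Proof. `0 ≤ F ≤ 1` gives `(F - μ)² ≤ F + μ²` (`Fo_le_one`); `triple_sum` on `P1 n₁ × P1 n₂` with `f = Fo`, `av_le`, `card_ball`, `norm_Fo`
(`R² N ≤ 2 R³ ≤ 2 R⁴`, so `≤ 3 C T^k H R⁴`), `nu_pair`; `μ² ≤ 1/N²` and `card_ball` three times. -/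
theorem G_diag : ∃ C : ℝ, ∃ k : ℕ, 0 < C ∧ ∀ (ra : ℤ) (N H Z V : ℕ) (T : ℝ) (W : Finset ℤ) (n₁ n₂ R Zm Y : ℕ),
    Par N H Z V T → Win N W → Pair ra N H n₁ n₂ → 1 ≤ Zm →
    1 ≤ R → N ≤ 2 * R → 2 * R ^ 2 ≤ N ^ 2 * Z ^ 5 → N ^ 2 ≤ 4 * Y → 100 * Y ^ 4 ≤ V →
      ∑ g1 ∈ ball R, ∑ s ∈ ball Zm, ∑ g2 ∈ ball Y, (FF ra W n₁ n₂ (g1 * s * g2) - mu W n₁ n₂) ^ 2 ≤
        C * T ^ k * Real.sqrt H * (((R : ℝ) * Zm * Y) ^ 2 / N) := by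
  obtain ⟨C0, k, hC0, hc⟩ := norm_Fo
  refine ⟨72000 * (3 * C0 + 1) + 1728000, k + 1, by positivity, ?_⟩
  intro ra N H Z V T W n₁ n₂ R Zm Y hP hW h12 hZm hR hNR hRN hNY hYV
  have : Fact n₁.Prime := ⟨h12.p1⟩
  have : Fact n₂.Prime := ⟨h12.p2⟩
  have hT2 : 2 ≤ T := hP.loss.two
  have hN2 : 2 ≤ N := SM4d_two hP
  have hY1 : 1 ≤ Y := by
    by_contra hcon
    have : Y = 0 := by omega
    subst this
    have : 0 < N ^ 2 := by positivity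
    omega
  obtain ⟨hm0, hm1⟩ := mu_le h12 hW hN2
  have key := triple_sum (ball R) (ball Zm) Y (Fo ra W n₁ n₂) (z0 n₁ n₂)
  have hfun : ∀ g : SL, (FF ra W n₁ n₂ g - mu W n₁ n₂) ^ 2 ≤ Fo ra W n₁ n₂ (g • z0 n₁ n₂) + mu W n₁ n₂ ^ 2 := by
    intro g
    rw [FF_eq h12]
    have h0 := Fo_nonneg (ra := ra) W n₁ n₂ (g • z0 n₁ n₂)
    have h1 := Fo_le_one h12 hW (g • z0 n₁ n₂)
    nlinarith [mul_nonneg h0 hm0]
  have e : ∑ g1 ∈ ball R, ∑ s ∈ ball Zm, ∑ g2 ∈ ball Y, (FF ra W n₁ n₂ (g1 * s * g2) - mu W n₁ n₂) ^ 2 ≤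
      ∑ g1 ∈ ball R, ∑ s ∈ ball Zm, ∑ g2 ∈ ball Y, Fo ra W n₁ n₂ ((g1 * s * g2) • z0 n₁ n₂) +
        ((ball R).card : ℝ) * (((ball Zm).card : ℝ) * (((ball Y).card : ℝ) * mu W n₁ n₂ ^ 2)) := by
    calc ∑ g1 ∈ ball R, ∑ s ∈ ball Zm, ∑ g2 ∈ ball Y, (FF ra W n₁ n₂ (g1 * s * g2) - mu W n₁ n₂) ^ 2
        ≤ ∑ g1 ∈ ball R, ∑ s ∈ ball Zm, ∑ g2 ∈ ball Y, (Fo ra W n₁ n₂ ((g1 * s * g2) • z0 n₁ n₂) + mu W n₁ n₂ ^ 2) :=
          Finset.sum_le_sum fun g1 _ => Finset.sum_le_sum fun s _ => Finset.sum_le_sum fun g2 _ => hfun _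
      _ = _ := by
          simp only [Finset.sum_add_distrib, Finset.sum_const, nsmul_eq_mul]
  refine e.trans ?_
  refine (add_le_add_left ((le_abs_self _).trans key) _).trans ?_
  clear key e hfun
  exact SM4d_calc C0 T H k N R Zm Y _ _ ((ball R).card : ℝ) ((ball Zm).card : ℝ) ((ball Y).card : ℝ)
    (mu W n₁ n₂) hC0 (by linarith)
    (by exact_mod_cast hP.hH) (by omega) hR hNR hNY (Nat.cast_nonneg _) (card_ball Zm)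
    (card_ball R) (Nat.cast_nonneg _) (card_ball Y) hm0 hm1
    ((av_le (ball Zm) _).trans (mul_le_mul_of_nonneg_left (hc ra N H Z V T W n₁ n₂ R hP hW h12 hR hRN)
      (by positivity)))
    (nu_pair N H V Y T n₁ n₂ hP.loss hN2 h12 hY1 hYV)

end Pool.Agent.TIA
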