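import Pool.Agent.TIA.SM4g
import Pool.Agent.TIA.SM4b
import Pool.Agent.TIA.SM4d
import Pool.Agent.TIA.SM6a

/-!
# [TII-SM6b] the contribution of class (G)
-/

set_option autoImplicit false

namespace Pool.Agent.TIA

open Finset Pool.Agent.TII

variable {ra : ℤ}

/-- the numerical part of `G_triple` -/
theorem SM6b_calc (C1 C2 C3 t h s N cD cN P X : ℝ) (k1 k2 k3 : ℕ) (hC1 : 0 < C1) (hC2 : 0 < C2) (hC3 : 0 < C3)
    (ht : 1 ≤ t) (hh : 1 ≤ h) (hs : 0 ≤ s) (hN : 1 ≤ N) (hP : 0 ≤ P) (hPX : P ≤ (1024 * X) ^ 2)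
    (hcD : 0 ≤ cD) (hD : cD ≤ 3 * N * h) (hNN : cN ≤ 36 * N * h ^ 2) :
    cD ^ 2 * (C1 * t ^ k1 * h ^ k1 * s * (P / N ^ 2)) +
      cN * (C2 * t ^ k2 * h ^ k2 * (P / (N * Real.sqrt N))) +
      cD * (C3 * t ^ k3 * Real.sqrt h * (P / N)) ≤
      (1024 ^ 2 * (9 * C1 + 36 * C2 + 3 * C3)) * t ^ (k1 + k2 + k3 + 2) *
        (X ^ 2 * (h ^ (k1 + k2 + k3 + 2) * (s + 1 / Real.sqrt N) + h * Real.sqrt h)) := by
  have hN0 : 0 < N := by linarith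
  have hsN : 0 < Real.sqrt N := Real.sqrt_pos.2 hN0
  have hsh : 0 ≤ Real.sqrt h := Real.sqrt_nonneg _
  set k := k1 + k2 + k3 + 2 with hk
  have ht1 : t ^ k1 ≤ t ^ k := pow_le_pow_right₀ ht (by omega)
  have ht2 : t ^ k2 ≤ t ^ k := pow_le_pow_right₀ ht (by omega)
  have ht3 : t ^ k3 ≤ t ^ k := pow_le_pow_right₀ ht (by omega)
  have hh1 : h ^ 2 * h ^ k1 ≤ h ^ k := by
    rw [← pow_add]; exact pow_le_pow_right₀ hh (by omega)
  have hh2 : h ^ 2 * h ^ k2 ≤ h ^ k := by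
    rw [← pow_add]; exact pow_le_pow_right₀ hh (by omega)
  have hX2 : P ≤ 1024 ^ 2 * X ^ 2 := by rw [mul_pow] at hPX; exact hPX
  have tk : 0 < t ^ k := by positivity
  have hk0 : 0 < h ^ k := by positivity
  -- first term
  have a1 : cD ^ 2 * (C1 * t ^ k1 * h ^ k1 * s * (P / N ^ 2)) ≤ 9 * C1 * (t ^ k * (1024 ^ 2 * X ^ 2 * (h ^ k * s))) := by
    have b1 : cD ^ 2 ≤ (3 * N * h) ^ 2 := pow_le_pow_left₀ hcD hD 2
    calc cD ^ 2 * (C1 * t ^ k1 * h ^ k1 * s * (P / N ^ 2))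
        ≤ (3 * N * h) ^ 2 * (C1 * t ^ k1 * h ^ k1 * s * (P / N ^ 2)) :=
          mul_le_mul_of_nonneg_right b1 (by positivity)
      _ = 9 * C1 * (t ^ k1 * (P * ((h ^ 2 * h ^ k1) * s))) := by field_simp; ring
      _ ≤ 9 * C1 * (t ^ k * (1024 ^ 2 * X ^ 2 * (h ^ k * s))) := by
          apply mul_le_mul_of_nonneg_left _ (by positivity)
          apply mul_le_mul ht1 _ (by positivity) (by positivity)
          apply mul_le_mul hX2 _ (by positivity) (by positivity)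
          exact mul_le_mul_of_nonneg_right hh1 hs
  have a2 : cN * (C2 * t ^ k2 * h ^ k2 * (P / (N * Real.sqrt N))) ≤
      36 * C2 * (t ^ k * (1024 ^ 2 * X ^ 2 * (h ^ k * (1 / Real.sqrt N)))) := by
    calc cN * (C2 * t ^ k2 * h ^ k2 * (P / (N * Real.sqrt N)))
        ≤ (36 * N * h ^ 2) * (C2 * t ^ k2 * h ^ k2 * (P / (N * Real.sqrt N))) :=
          mul_le_mul_of_nonneg_right hNN (by positivity)
      _ = 36 * C2 * (t ^ k2 * (P * ((h ^ 2 * h ^ k2) * (1 / Real.sqrt N)))) := by field_simp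
      _ ≤ _ := by
          apply mul_le_mul_of_nonneg_left _ (by positivity)
          apply mul_le_mul ht2 _ (by positivity) (by positivity)
          apply mul_le_mul hX2 _ (by positivity) (by positivity)
          exact mul_le_mul_of_nonneg_right hh2 (by positivity)
  have a3 : cD * (C3 * t ^ k3 * Real.sqrt h * (P / N)) ≤ 3 * C3 * (t ^ k * (1024 ^ 2 * X ^ 2 * (h * Real.sqrt h))) := by
    calc cD * (C3 * t ^ k3 * Real.sqrt h * (P / N))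
        ≤ (3 * N * h) * (C3 * t ^ k3 * Real.sqrt h * (P / N)) :=
          mul_le_mul_of_nonneg_right hD (by positivity)
      _ = 3 * C3 * (t ^ k3 * (P * (h * Real.sqrt h))) := by field_simp
      _ ≤ _ := by
          apply mul_le_mul_of_nonneg_left _ (by positivity)
          apply mul_le_mul ht3 _ (by positivity) (by positivity)
          exact mul_le_mul_of_nonneg_right hX2 (by positivity)
  have p1 : 0 ≤ t ^ k * (1024 ^ 2 * X ^ 2 * (h ^ k * s)) := by positivity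
  have p2 : 0 ≤ t ^ k * (1024 ^ 2 * X ^ 2 * (h ^ k * (1 / Real.sqrt N))) := by positivity
  have p3 : 0 ≤ t ^ k * (1024 ^ 2 * X ^ 2 * (h * Real.sqrt h)) := by positivity
  generalize e1 : t ^ k * (1024 ^ 2 * X ^ 2 * (h ^ k * s)) = u1 at a1 p1
  generalize e2 : t ^ k * (1024 ^ 2 * X ^ 2 * (h ^ k * (1 / Real.sqrt N))) = u2 at a2 p2
  generalize e3 : t ^ k * (1024 ^ 2 * X ^ 2 * (h * Real.sqrt h)) = u3 at a3 p3
  have e : (1024 ^ 2 * (9 * C1 + 36 * C2 + 3 * C3)) * t ^ k *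
        (X ^ 2 * (h ^ k * (s + 1 / Real.sqrt N) + h * Real.sqrt h)) = (9 * C1 + 36 * C2 + 3 * C3) * (u1 + u2 + u3) := by
    rw [← e1, ← e2, ← e3]; ring
  rw [e]
  nlinarith [mul_nonneg hC1.le p2, mul_nonneg hC1.le p3, mul_nonneg hC2.le p1, mul_nonneg hC2.le p3,
    mul_nonneg hC3.le p1, mul_nonneg hC3.le p2]

/-- expansion of the square -/
theorem SM6b_square (DD : Finset (ℕ × ℕ)) (b : ℕ × ℕ → ℝ) (W : Finset ℤ) (A B D : Finset SL) :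
    ∑ g1 ∈ A, ∑ s ∈ B, ∑ g2 ∈ D, VV ra DD b W (g1 * s * g2) ^ 2 =
      ∑ x ∈ DD ×ˢ DD, (b x.1 * b x.2) * ∑ g1 ∈ A, ∑ s ∈ B, ∑ g2 ∈ D,
        (FF ra W x.1.1 x.1.2 (g1 * s * g2) - mu W x.1.1 x.1.2) * (FF ra W x.2.1 x.2.2 (g1 * s * g2) - mu W x.2.1 x.2.2) := by
  have e : ∀ g : SL, VV ra DD b W g ^ 2 = ∑ x ∈ DD ×ˢ DD, (b x.1 * b x.2) *
      ((FF ra W x.1.1 x.1.2 g - mu W x.1.1 x.1.2) * (FF ra W x.2.1 x.2.2 g - mu W x.2.1 x.2.2)) := by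
    intro g
    unfold VV
    rw [sq, Finset.sum_mul_sum, Finset.sum_product]
    refine Finset.sum_congr rfl fun p _ => Finset.sum_congr rfl fun q _ => ?_
    ring
  simp only [e]
  have e2 : ∀ (S : Finset SL) (F : SL → (ℕ × ℕ) × (ℕ × ℕ) → ℝ), ∑ g ∈ S, ∑ x ∈ DD ×ˢ DD, F g x =
      ∑ x ∈ DD ×ˢ DD, ∑ g ∈ S, F g x := fun S F => Finset.sum_comm
  simp only [e2, Finset.mul_sum]

/-- the bound of a quadratic form by three bounds -/
theorem SM6b_quad (DD : Finset (ℕ × ℕ)) (b : ℕ × ℕ → ℝ) (hb : ∀ p, |b p| ≤ 1) (F : (ℕ × ℕ) × (ℕ × ℕ) → ℝ)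
    (Bad : (ℕ × ℕ) × (ℕ × ℕ) → Prop) [DecidablePred Bad] (G O D : ℝ) (hG : 0 ≤ G) (hO : 0 ≤ O) (hD : 0 ≤ D)
    (h2 : ∀ x ∈ DD ×ˢ DD, x.1 ≠ x.2 → |F x| ≤ G ∨ (Bad x ∧ |F x| ≤ O))
    (h3 : ∀ x ∈ DD ×ˢ DD, x.1 = x.2 → |F x| ≤ D) :
    ∑ x ∈ DD ×ˢ DD, (b x.1 * b x.2) * F x ≤
      (DD.card : ℝ) ^ 2 * G + (((DD ×ˢ DD).filter Bad).card : ℝ) * O + DD.card * D := by
  have step : ∀ x ∈ DD ×ˢ DD, (b x.1 * b x.2) * F x ≤ G + (if Bad x then O else 0) + (if x.1 = x.2 then D else 0) := by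
    intro x hx
    have a1 : (b x.1 * b x.2) * F x ≤ |F x| := by
      refine (le_abs_self _).trans ?_
      rw [abs_mul, abs_mul]
      have c1 := hb x.1
      have c2 := hb x.2
      have c3 : |b x.1| * |b x.2| ≤ 1 := by
        calc |b x.1| * |b x.2| ≤ 1 * 1 := mul_le_mul c1 c2 (abs_nonneg _) (by norm_num)
          _ = 1 := by norm_num
      calc |b x.1| * |b x.2| * |F x| ≤ 1 * |F x| := mul_le_mul_of_nonneg_right c3 (abs_nonneg _)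
        _ = _ := one_mul _
    refine a1.trans ?_
    have d0 : (0 : ℝ) ≤ if Bad x then O else 0 := by split_ifs <;> simp [hO]
    have d1 : (0 : ℝ) ≤ if x.1 = x.2 then D else 0 := by split_ifs <;> simp [hD]
    by_cases hx12 : x.1 = x.2
    · have := h3 x hx hx12
      rw [if_pos hx12]
      linarith
    · rcases h2 x hx hx12 with h | ⟨h, h'⟩
      · linarith
      · rw [if_pos h]
        linarith
  refine (Finset.sum_le_sum step).trans (le_of_eq ?_)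
  rw [Finset.sum_add_distrib, Finset.sum_add_distrib, Finset.sum_const, Finset.card_product, nsmul_eq_mul,
    ← Finset.sum_filter, Finset.sum_const, nsmul_eq_mul]
  have e3 : ∑ x ∈ DD ×ˢ DD, (if x.1 = x.2 then D else 0) = DD.card * D := by
    rw [Finset.sum_product]
    have : ∀ p ∈ DD, ∑ q ∈ DD, (if p = q then D else 0) = D := by
      intro p hp
      rw [Finset.sum_ite_eq DD p (fun _ => D), if_pos hp]
    rw [Finset.sum_congr rfl this, Finset.sum_const, nsmul_eq_mul]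
  rw [e3]
  push_cast
  ring

/-- conditions from the membership in `TR` -/
theorem SM6b_cond {N H Z V X K : ℕ} {T ρ : ℝ} (hB : Big N H Z V X K T ρ) {R Zm Y : ℕ} (hR : 1 ≤ R) (hZm : 1 ≤ Zm)
    (hY : 1 ≤ Y) (h1 : R * Zm * Y ≤ 1024 * X) (h3 : R ≤ 512 * N * Z ^ 2)
    (h4 : Z ≤ 4 * Zm) :
    (2 * N) ^ 12 ≤ Zm ^ (2 * K) ∧ 16 * (2 * Zm) ^ (4 * K) ≤ V ∧ 2 * R ^ 2 ≤ N ^ 2 * Z ^ 5 ∧ 100 * Y ^ 4 ≤ V := by
  have hK := hB.hK
  have hV := hB.hV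
  have hZ20 := hB.hZ
  have hZK := hB.hZK
  have a1 : Zm ≤ 1024 * X := by
    calc Zm = 1 * Zm * 1 := by ring
      _ ≤ R * Zm * Y := by gcongr
      _ ≤ _ := h1
  have a2 : Y ≤ 1024 * X := by
    calc Y = 1 * 1 * Y := by ring
      _ ≤ R * Zm * Y := by gcongr
      _ ≤ _ := h1
  have hX1 : 1 ≤ X := by omega
  refine ⟨?_, ?_, ?_, ?_⟩
  · have b1 : Z ^ (2 * K) ≤ 4 ^ (2 * K) * Zm ^ (2 * K) := by
      rw [← mul_pow]; exact Nat.pow_le_pow_left h4 _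
    have b2 : 4 ^ (2 * K) * (2 * N) ^ 12 ≤ 4 ^ (2 * K) * Zm ^ (2 * K) := by
      rw [mul_comm]; exact hZK.trans b1
    exact Nat.le_of_mul_le_mul_left b2 (by positivity)
  · have b1 : (2 * Zm) ^ (4 * K) ≤ (2048 * X) ^ (4 * K) := Nat.pow_le_pow_left (by omega) _
    calc 16 * (2 * Zm) ^ (4 * K) ≤ 100 * (2048 * X) ^ (4 * K) := Nat.mul_le_mul (by norm_num) b1
      _ ≤ V := hV
  · have b1 : R ^ 2 ≤ (512 * N * Z ^ 2) ^ 2 := Nat.pow_le_pow_left h3 2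
    calc 2 * R ^ 2 ≤ 2 * (512 * N * Z ^ 2) ^ 2 := Nat.mul_le_mul_left _ b1
      _ = N ^ 2 * (524288 * Z ^ 4) := by ring
      _ ≤ N ^ 2 * (Z * Z ^ 4) := by
          apply Nat.mul_le_mul_left
          apply Nat.mul_le_mul_right
          exact le_trans (by norm_num) hZ20
      _ = N ^ 2 * Z ^ 5 := by ring
  · have b1 : Y ^ 4 ≤ (2048 * X) ^ (4 * K) := by
      calc Y ^ 4 ≤ (2048 * X) ^ 4 := Nat.pow_le_pow_left (by omega) 4
        _ ≤ _ := Nat.pow_le_pow_right (by omega) (by omega)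
    calc 100 * Y ^ 4 ≤ 100 * (2048 * X) ^ (4 * K) := Nat.mul_le_mul_left _ b1
      _ ≤ V := hV

/-- [SM6b-1] one triple of scales. Proof. Expand the square; at most `9 N² H²` quadruples are generic (`G_gen`), at most `36 N H²` are not `Dist4` (`card_notDist`), `G_one` for
those with `(n₁, n₂) ≠ (n₃, n₄)`, `G_diag` for the rest, at most `3 N H` (`card_Pair`). `R Zm Y ≤ 1024 X`. -/
theorem G_triple : ∃ C : ℝ, ∃ k : ℕ, 0 < C ∧ ∀ (ra : ℤ) (N H Z V X K : ℕ) (T ρ : ℝ) (DD : Finset (ℕ × ℕ)) (b : ℕ × ℕ → ℝ)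
    (W : Finset ℤ) (q : ℕ × ℕ × ℕ), Big N H Z V X K T ρ → Coef ra N H DD b W → q ∈ TR X N Z →
      ∑ g1 ∈ ball (2 ^ q.1), ∑ s ∈ ball (2 ^ q.2.1), ∑ g2 ∈ ball (2 ^ q.2.2), VV ra DD b W (g1 * s * g2) ^ 2 ≤
        C * T ^ k * ((X : ℝ) ^ 2 * ((H : ℝ) ^ k * (Real.sqrt ρ + 1 / Real.sqrt N) + H * Real.sqrt H)) := by
  classical
  obtain ⟨C1, k1, hC1, hg⟩ := G_gen
  obtain ⟨C2, k2, hC2, ho⟩ := G_one
  obtain ⟨C3, k3, hC3, hd⟩ := G_diag
  refine ⟨1024 ^ 2 * (9 * C1 + 36 * C2 + 3 * C3), k1 + k2 + k3 + 2, by positivity, ?_⟩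
  intro ra N H Z V X K T ρ DD b W q hB hc hq
  obtain ⟨h1, h2, h3, h4, h5⟩ := (Finset.mem_filter.1 hq).2
  have hR : 1 ≤ 2 ^ q.1 := Nat.one_le_two_pow
  have hZm : 1 ≤ 2 ^ q.2.1 := Nat.one_le_two_pow
  have hY : 1 ≤ 2 ^ q.2.2 := Nat.one_le_two_pow
  clear hq
  generalize 2 ^ q.1 = R at h1 h2 h3 h4 h5 hR hZm hY ⊢
  generalize 2 ^ q.2.1 = Zm at h1 h2 h3 h4 h5 hR hZm hY ⊢
  generalize 2 ^ q.2.2 = Y at h1 h2 h3 h4 h5 hR hZm hY ⊢
  obtain ⟨c1, c2, c3, c4⟩ := SM6b_cond hB hR hZm hY h1 h3 h4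
  have hN2 : 2 ≤ N := SM4d_two hB.par
  have hT2 : 2 ≤ T := hB.par.loss.two
  have hNr : (1 : ℝ) ≤ N := by exact_mod_cast (by omega : 1 ≤ N)
  have hHr : (1 : ℝ) ≤ H := by exact_mod_cast hB.par.hH
  have hP0 : (0 : ℝ) ≤ ((R : ℝ) * Zm * Y) ^ 2 := by positivity
  have hPX : ((R : ℝ) * Zm * Y) ^ 2 ≤ (1024 * (X : ℝ)) ^ 2 := by
    apply pow_le_pow_left₀ (by positivity)
    exact_mod_cast h1
  have hsN : 0 < Real.sqrt (N : ℝ) := Real.sqrt_pos.2 (by linarith)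
  rw [SM6b_square]
  have hpair : ∀ x ∈ DD ×ˢ DD, Pair ra N H x.1.1 x.1.2 ∧ Pair ra N H x.2.1 x.2.2 := fun x hx =>
    ⟨hc.pair _ (Finset.mem_product.1 hx).1, hc.pair _ (Finset.mem_product.1 hx).2⟩
  refine (SM6b_quad DD b hc.b (fun x => ∑ g1 ∈ ball R, ∑ s ∈ ball Zm, ∑ g2 ∈ ball Y,
        (FF ra W x.1.1 x.1.2 (g1 * s * g2) - mu W x.1.1 x.1.2) * (FF ra W x.2.1 x.2.2 (g1 * s * g2) - mu W x.2.1 x.2.2))
    (fun x => ¬ Dist4 x.1.1 x.1.2 x.2.1 x.2.2)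
    (C1 * T ^ k1 * (H : ℝ) ^ k1 * Real.sqrt ρ * (((R : ℝ) * Zm * Y) ^ 2 / (N : ℝ) ^ 2))
    (C2 * T ^ k2 * (H : ℝ) ^ k2 * (((R : ℝ) * Zm * Y) ^ 2 / (N * Real.sqrt N)))
    (C3 * T ^ k3 * Real.sqrt H * (((R : ℝ) * Zm * Y) ^ 2 / N))
    (by positivity) (by positivity) (by positivity) ?_ ?_).trans ?_
  · intro x hx hne
    by_cases hx2 : Dist4 x.1.1 x.1.2 x.2.1 x.2.2
    · left
      exact hg ra N H Z V T ρ W x.1.1 x.1.2 x.2.1 x.2.2 R Zm Y K hB.par hc.win (hpair x hx).1 (hpair x hx).2 hx2 hB.hK hB.hρ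
        hB.hρ' hZm c1 c2 hR h2 c3 h5 c4
    · right
      exact ⟨hx2, ho ra N H Z V T W x.1.1 x.1.2 x.2.1 x.2.2 R Zm Y hB.par hc.win (hpair x hx).1 (hpair x hx).2 hne hZm
        hR h2 c3 h5 c4⟩
  · intro x hx he
    have key := hd ra N H Z V T W x.1.1 x.1.2 R Zm Y hB.par hc.win (hpair x hx).1 hZm hR h2 c3 h5 c4
    rw [← he]
    refine le_trans (le_of_eq ?_) key
    have e1 : ∑ g1 ∈ ball R, ∑ s ∈ ball Zm, ∑ g2 ∈ ball Y,
        (FF ra W x.1.1 x.1.2 (g1 * s * g2) - mu W x.1.1 x.1.2) * (FF ra W x.1.1 x.1.2 (g1 * s * g2) - mu W x.1.1 x.1.2) =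
        ∑ g1 ∈ ball R, ∑ s ∈ ball Zm, ∑ g2 ∈ ball Y, (FF ra W x.1.1 x.1.2 (g1 * s * g2) - mu W x.1.1 x.1.2) ^ 2 :=
      Finset.sum_congr rfl fun g1 _ => Finset.sum_congr rfl fun s _ => Finset.sum_congr rfl fun g2 _ => (sq _).symm
    rw [e1]
    apply abs_of_nonneg
    exact Finset.sum_nonneg fun g1 _ => Finset.sum_nonneg fun s _ => Finset.sum_nonneg fun g2 _ => sq_nonneg _
  · exact SM6b_calc C1 C2 C3 T H (Real.sqrt ρ) N DD.card _ (((R : ℝ) * Zm * Y) ^ 2) X k1 k2 k3 hC1 hC2 hC3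
      (by linarith) hHr (Real.sqrt_nonneg _) hNr hP0 hPX (Nat.cast_nonneg _)
      (card_Pair N H (by omega) hB.par.hH DD hc.pair)
      (card_notDist N H (by omega) hB.par.hH DD hc.pair)

/-- [SM6b-2] at most `T³` triples of scales -/
theorem G_total : ∃ C : ℝ, ∃ k : ℕ, 0 < C ∧ ∀ (ra : ℤ) (N H Z V X K : ℕ) (T ρ : ℝ) (DD : Finset (ℕ × ℕ)) (b : ℕ × ℕ → ℝ)
    (W : Finset ℤ), Big N H Z V X K T ρ → Coef ra N H DD b W →
      ∑ q ∈ TR X N Z, ∑ g1 ∈ ball (2 ^ q.1), ∑ s ∈ ball (2 ^ q.2.1), ∑ g2 ∈ ball (2 ^ q.2.2),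
          VV ra DD b W (g1 * s * g2) ^ 2 ≤
        C * T ^ k * ((X : ℝ) ^ 2 * ((H : ℝ) ^ k * (Real.sqrt ρ + 1 / Real.sqrt N) + H * Real.sqrt H)) := by
  obtain ⟨C, k, hC, h⟩ := G_triple
  refine ⟨C, k + 3, hC, ?_⟩
  intro ra N H Z V X K T ρ DD b W hB hc
  have hT2 : 2 ≤ T := hB.par.loss.two
  have hHr : (1 : ℝ) ≤ H := by exact_mod_cast hB.par.hH
  set M := (X : ℝ) ^ 2 * ((H : ℝ) ^ k * (Real.sqrt ρ + 1 / Real.sqrt N) + H * Real.sqrt H) with hM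
  have hM0 : 0 ≤ M := by positivity
  have hcard : ((TR X N Z).card : ℝ) ≤ T ^ 3 := by
    have b1 : (TR X N Z).card ≤ (Nat.log 2 (1024 * X) + 1) ^ 3 := by
      unfold TR
      refine (Finset.card_filter_le _ _).trans (le_of_eq ?_)
      rw [Finset.card_product, Finset.card_product, Finset.card_range]
      ring
    have b2 : Nat.log 2 (1024 * X) ≤ Nat.log 2 V := by
      apply Nat.log_mono_right
      have hV := hB.hV
      have hK := hB.hK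
      rcases Nat.eq_zero_or_pos X with hX | hX
      · subst hX; simp
      · calc 1024 * X ≤ 2048 * X := by omega
          _ = (2048 * X) ^ 1 := (pow_one _).symm
          _ ≤ (2048 * X) ^ (4 * K) := Nat.pow_le_pow_right (by omega) (by omega)
          _ ≤ 100 * (2048 * X) ^ (4 * K) := by omega
          _ ≤ V := hV
    have b3 : ((Nat.log 2 (1024 * X) + 1 : ℕ) : ℝ) ≤ T := by
      have := hB.par.loss.log
      have b4 : ((Nat.log 2 (1024 * X) : ℕ) : ℝ) ≤ (Nat.log 2 V : ℕ) := by exact_mod_cast b2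
      push_cast
      linarith
    calc ((TR X N Z).card : ℝ) ≤ (((Nat.log 2 (1024 * X) + 1) ^ 3 : ℕ) : ℝ) := by exact_mod_cast b1
      _ = ((Nat.log 2 (1024 * X) + 1 : ℕ) : ℝ) ^ 3 := by push_cast; ring
      _ ≤ T ^ 3 := pow_le_pow_left₀ (Nat.cast_nonneg _) b3 3
  calc ∑ q ∈ TR X N Z, ∑ g1 ∈ ball (2 ^ q.1), ∑ s ∈ ball (2 ^ q.2.1), ∑ g2 ∈ ball (2 ^ q.2.2),
          VV ra DD b W (g1 * s * g2) ^ 2
      ≤ ∑ _q ∈ TR X N Z, C * T ^ k * M := Finset.sum_le_sum fun q hq => h ra N H Z V X K T ρ DD b W q hB hc hq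
    _ = (TR X N Z).card * (C * T ^ k * M) := by rw [Finset.sum_const, nsmul_eq_mul]
    _ ≤ T ^ 3 * (C * T ^ k * M) := mul_le_mul_of_nonneg_right hcard (by positivity)
    _ = C * T ^ (k + 3) * M := by rw [pow_add]; ring
    _ ≤ _ := by
        apply mul_le_mul_of_nonneg_left _ (by positivity)
        rw [hM]
        apply mul_le_mul_of_nonneg_left _ (by positivity)
        have : (H : ℝ) ^ k ≤ (H : ℝ) ^ (k + 3) := pow_le_pow_right₀ hHr (by omega)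
        have b5 : (H : ℝ) ^ k * (Real.sqrt ρ + 1 / Real.sqrt N) ≤ (H : ℝ) ^ (k + 3) * (Real.sqrt ρ + 1 / Real.sqrt N) :=
          mul_le_mul_of_nonneg_right this (by positivity)
        linarith

end Pool.Agent.TIA
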