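import Pool.Agent.TIA.SM6b

/-!
# [TII-SM7] the second moment theorem
-/

set_option autoImplicit false

namespace Pool.Agent.TIA

open Finset Pool.Agent.TII

variable {ra : ℤ}

/-- [SM7] Proof. `cover` with `Φ = V²`, `B_total`, `G_total`. -/
theorem SM : ∃ C : ℝ, ∃ k : ℕ, 0 < C ∧ ∀ (ra : ℤ) (N H Z V X K : ℕ) (T ρ : ℝ) (DD : Finset (ℕ × ℕ)) (b : ℕ × ℕ → ℝ)
    (W : Finset ℤ), Big N H Z V X K T ρ → Coef ra N H DD b W →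
      ∑ g ∈ GX X, VV ra DD b W g ^ 2 ≤
        C * T ^ k * ((X : ℝ) ^ 2 * ((H : ℝ) ^ k * (1 / Z + Real.sqrt ρ + 1 / Real.sqrt N) + H * Real.sqrt H)) := by
  obtain ⟨C1, k1, hC1, h1⟩ := B_total
  obtain ⟨C2, k2, hC2, h2⟩ := G_total
  refine ⟨C1 + C2, k1 + k2, by positivity, fun ra N H Z V X K T ρ DD b W hB hc => ?_⟩
  have e1 := h1 ra N H Z V X K T ρ DD b W hB hc
  have e2 := h2 ra N H Z V X K T ρ DD b W hB hc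
  have hT : (2 : ℝ) ≤ T := hB.par.loss.two
  have hT1 : (1 : ℝ) ≤ T := by linarith
  have hH : (1 : ℝ) ≤ H := by exact_mod_cast hB.par.hH
  have hZ2 : 2 ≤ Z := hB.par.hZ
  have hZ : (0 : ℝ) < Z := by
    have : (2 : ℝ) ≤ Z := by exact_mod_cast hZ2
    linarith
  have hbase : (10000 * T * H * Z) ^ 100 ≤ N := hB.par.hN
  have hZ' : (2 : ℝ) ≤ Z := by exact_mod_cast hZ2
  have hprod : (2 : ℝ) ≤ 10000 * T * H * Z := by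
    have a1 : (1 : ℝ) ≤ T * H := one_le_mul_of_one_le_of_one_le hT1 hH
    have a2 : (2 : ℝ) ≤ T * H * Z := by nlinarith
    nlinarith
  have hN2 : (2 : ℝ) ≤ N := by
    refine le_trans ?_ hbase
    calc (2 : ℝ) ≤ 2 ^ 100 := by norm_num
      _ ≤ (10000 * T * H * Z) ^ 100 := by gcongr
  have hN2' : 2 ≤ N := by exact_mod_cast hN2
  have hcov := cover X N Z (by omega) hZ2 hB.hX (by nlinarith) (fun g => VV ra DD b W g ^ 2)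
    (fun g => sq_nonneg _)
  refine hcov.trans ?_
  have hTk1 : T ^ k1 ≤ T ^ (k1 + k2) := pow_le_pow_right₀ hT1 (by omega)
  have hTk2 : T ^ k2 ≤ T ^ (k1 + k2) := pow_le_pow_right₀ hT1 (by omega)
  have hHk1 : (H : ℝ) ^ k1 ≤ (H : ℝ) ^ (k1 + k2) := pow_le_pow_right₀ hH (by omega)
  have hHk2 : (H : ℝ) ^ k2 ≤ (H : ℝ) ^ (k1 + k2) := pow_le_pow_right₀ hH (by omega)
  have hT0 : (0 : ℝ) ≤ T := by linarith
  have hs : 0 ≤ Real.sqrt ρ + 1 / Real.sqrt N := by positivity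
  have hHH : (0 : ℝ) ≤ H * Real.sqrt H := by positivity
  have f1 : C1 * T ^ k1 * (H : ℝ) ^ k1 * ((X : ℝ) ^ 2 / Z) ≤
      C1 * T ^ (k1 + k2) * ((X : ℝ) ^ 2 * ((H : ℝ) ^ (k1 + k2) * (1 / Z))) := by
    have : C1 * T ^ k1 * (H : ℝ) ^ k1 * ((X : ℝ) ^ 2 / Z) ≤
        C1 * T ^ (k1 + k2) * (H : ℝ) ^ (k1 + k2) * ((X : ℝ) ^ 2 / Z) := by
      gcongr
    refine this.trans (le_of_eq ?_)
    ring
  have f2 : C2 * T ^ k2 * ((X : ℝ) ^ 2 * ((H : ℝ) ^ k2 * (Real.sqrt ρ + 1 / Real.sqrt N) + H * Real.sqrt H)) ≤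
      C2 * T ^ (k1 + k2) * ((X : ℝ) ^ 2 * ((H : ℝ) ^ (k1 + k2) * (Real.sqrt ρ + 1 / Real.sqrt N) + H * Real.sqrt H)) := by
    gcongr
  have f3 : 0 ≤ C1 * T ^ (k1 + k2) * ((X : ℝ) ^ 2 * ((H : ℝ) ^ (k1 + k2) * (Real.sqrt ρ + 1 / Real.sqrt N) + H * Real.sqrt H)) := by
    positivity
  have f4 : 0 ≤ C2 * T ^ (k1 + k2) * ((X : ℝ) ^ 2 * ((H : ℝ) ^ (k1 + k2) * (1 / Z))) := by
    positivity
  refine (add_le_add (e2.trans f2) (e1.trans f1)).trans ?_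
  calc C2 * T ^ (k1 + k2) * ((X : ℝ) ^ 2 * ((H : ℝ) ^ (k1 + k2) * (Real.sqrt ρ + 1 / Real.sqrt N) + H * Real.sqrt H)) +
        C1 * T ^ (k1 + k2) * ((X : ℝ) ^ 2 * ((H : ℝ) ^ (k1 + k2) * (1 / Z)))
      ≤ C2 * T ^ (k1 + k2) * ((X : ℝ) ^ 2 * ((H : ℝ) ^ (k1 + k2) * (Real.sqrt ρ + 1 / Real.sqrt N) + H * Real.sqrt H)) +
        C1 * T ^ (k1 + k2) * ((X : ℝ) ^ 2 * ((H : ℝ) ^ (k1 + k2) * (1 / Z))) +
        C1 * T ^ (k1 + k2) * ((X : ℝ) ^ 2 * ((H : ℝ) ^ (k1 + k2) * (Real.sqrt ρ + 1 / Real.sqrt N) + H * Real.sqrt H)) +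
        C2 * T ^ (k1 + k2) * ((X : ℝ) ^ 2 * ((H : ℝ) ^ (k1 + k2) * (1 / Z))) := by linarith
    _ = (C1 + C2) * T ^ (k1 + k2) * ((X : ℝ) ^ 2 * ((H : ℝ) ^ (k1 + k2) * (1 / Z + Real.sqrt ρ + 1 / Real.sqrt N) + H * Real.sqrt H)) := by
      ring

end Pool.Agent.TIA
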