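import Pool.Agent.TIA.T3

/-!
# [TIA-T4] the Type II estimate for the residue class `a`
-/

set_option autoImplicit false

namespace Pool.Agent.TIA

open Finset

theorem typeIIa (e : ℝ) (he : 0 < e) (he' : e < 1 / 3) : ∃ η δ C : ℝ, 0 < η ∧ 0 < δ ∧ 0 < C ∧
    ∀ X N M : ℕ, 2 ≤ X → (X : ℝ) ^ e ≤ N → (N : ℝ) ≤ (X : ℝ) ^ (1 / 3 - e) →
      (X : ℝ) ^ (2 - η) ≤ (M : ℝ) * N → (M : ℝ) * N ≤ (X : ℝ) ^ 2 →
      ∀ a : ℤ, a ≠ 0 → |(a : ℝ)| ≤ (X : ℝ) ^ η →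
      ∀ α β : ℕ → ℝ, (∀ m, |α m| ≤ 1) → (∀ n, |β n| ≤ 1) → (∀ n, ¬ n.Prime → β n = 0) →
        ∑ p ∈ (Ioc X (2 * X)).filter Nat.Prime,
          |∑ m ∈ Ioc M (2 * M), ∑ n ∈ Ioc N (2 * N),
            α m * β n * ((if (p : ℤ) ∣ (m : ℤ) * n - a then 1 else 0) - 1 / (p : ℝ))| ≤
        C * (X : ℝ) ^ (1 - δ) * ((M : ℝ) * N) / X := by
  obtain ⟨η, δ, C, hη, hδ, hC, h⟩ := TII e he he'
  refine ⟨η, δ, C, hη, hδ, hC, ?_⟩
  intro X N M hX hN hN' hMN hMN' a ha haX al be hal hbe hbe'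
  have h1 := h X N M a al be ha haX hX hN hN' hMN (by exact_mod_cast hMN') hal hbe
    (fun n hn => by by_contra hcon; exact hn (hbe' n hcon))
  have hXpos : (0 : ℝ) < X := by exact_mod_cast (by omega : 0 < X)
  have e1 : C * (X : ℝ) ^ (1 - δ) * ((M : ℝ) * N) / X = C * (X : ℝ) ^ (-δ) * (M * N) := by
    rw [sub_eq_add_neg, Real.rpow_add hXpos, Real.rpow_one]
    field_simp
  rw [e1]
  exact h1

end Pool.Agent.TIA
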